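import Pool.Agent.helper31.EQ.R.Defs
import Pool.Agent.helper31.EQ.Y.Positive

/-!
# EQ-R0: the rigid sum in the coordinate `τ = tanh κζ`
-/

namespace Pool.Agent.helper31.EQ.R

open Complex Pool.Agent.helper31.EQ.Y Set

private theorem r_tanh_pos {κ : ℝ} (hκ : 0 < κ) : 0 < Real.tanh κ := by
  rw [Real.tanh_eq_sinh_div_cosh]
  exact div_pos (Real.sinh_pos_iff.2 hκ) (Real.cosh_pos _)

private theorem r_den_re {κ : ℝ} (hκ : 0 < κ) {τ : ℂ} (h : 0 ≤ τ.re) :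
    1 ≤ (1 + (Real.tanh κ : ℂ) * τ).re := by
  have ht := r_tanh_pos hκ
  simp only [add_re, one_re, mul_re, ofReal_re, ofReal_im, zero_mul, sub_zero]
  nlinarith [mul_nonneg ht.le h]

theorem shf_den {κ : ℝ} (hκ : 0 < κ) {τ : ℂ} (h : 0 ≤ τ.re) :
    1 + (Real.tanh κ : ℂ) * τ ≠ 0 := by
  intro h0
  have := r_den_re hκ h
  rw [h0, zero_re] at this
  linarith

/-- `Re (shf τ) > 0` for `Re τ ≥ 0`; `1 + θτ ≠ 0`. -/
theorem shf_re {κ : ℝ} (hκ : 0 < κ) {τ : ℂ} (h : 0 ≤ τ.re) : 0 < (shf κ τ).re := by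
  have ht := r_tanh_pos hκ
  have hn : 0 < normSq (1 + (Real.tanh κ : ℂ) * τ) := normSq_pos.2 (shf_den hκ h)
  unfold shf
  rw [div_re, ← add_div]
  apply div_pos _ hn
  simp only [add_re, one_re, mul_re, ofReal_re, ofReal_im, zero_mul, sub_zero, add_im, one_im,
    mul_im, add_zero, zero_add]
  have h1 : 0 ≤ Real.tanh κ * τ.re := mul_nonneg ht.le h
  nlinarith [mul_nonneg ht.le (sq_nonneg τ.re), mul_nonneg ht.le (sq_nonneg τ.im),
    mul_nonneg ht.le h1]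

theorem Qk_re {κ : ℝ} (hκ : 0 < κ) {τ : ℂ} (h : 0 ≤ τ.re) : Real.cosh κ ≤ (Qk κ τ).re := by
  have hs : 0 < Real.sinh κ := Real.sinh_pos_iff.2 hκ
  unfold Qk
  simp only [add_re, mul_re, ofReal_re, ofReal_im, zero_mul, sub_zero]
  nlinarith [mul_nonneg hs.le h]

/-- every `τ ≠ 1` with `Re τ > 0` is `tanh κζ` with `Re ζ > 0`, `|Im ζ| ≤ π/(2κ)`:
`ζ = (1/(2κ)) log ((1+τ)/(1-τ))`, `|1+τ| > |1-τ|`. -/
theorem exists_tanh {κ : ℝ} (hκ : 0 < κ) {τ : ℂ} (h : 0 < τ.re) (h1 : τ ≠ 1) :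
    ∃ ζ : ℂ, 0 < ζ.re ∧ |ζ.im| ≤ Real.pi / (2 * κ) ∧ cosh (κ * ζ) ≠ 0 ∧ tanh (κ * ζ) = τ := by
  have hκc : (κ : ℂ) ≠ 0 := ofReal_ne_zero.2 hκ.ne'
  have hd : 1 - τ ≠ 0 := sub_ne_zero.2 h1.symm
  have hlt : ‖1 - τ‖ < ‖1 + τ‖ := by
    apply lt_of_pow_lt_pow_left₀ 2 (norm_nonneg _)
    rw [Complex.sq_norm, Complex.sq_norm, normSq_apply, normSq_apply]
    simp only [sub_re, add_re, one_re, sub_im, add_im, one_im, zero_sub, zero_add]
    nlinarith
  set w : ℂ := (1 + τ) / (1 - τ) with hw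
  have hdn : 0 < ‖1 - τ‖ := norm_pos_iff.2 hd
  have hwn : 1 < ‖w‖ := by
    rw [hw, norm_div, one_lt_div hdn]
    exact hlt
  have hw0 : w ≠ 0 := by
    intro h0
    rw [h0, norm_zero] at hwn
    linarith
  have hre : ((1 / (2 * κ) : ℝ) * Complex.log w).re = 1 / (2 * κ) * (Complex.log w).re := by
    rw [re_ofReal_mul]
  have him : ((1 / (2 * κ) : ℝ) * Complex.log w).im = 1 / (2 * κ) * (Complex.log w).im := by
    rw [im_ofReal_mul]
  have hexp : Complex.exp (κ * (((1 / (2 * κ) : ℝ) : ℂ) * Complex.log w)) *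
      Complex.exp (κ * (((1 / (2 * κ) : ℝ) : ℂ) * Complex.log w)) = w := by
    rw [← Complex.exp_add]
    have : (κ * (((1 / (2 * κ) : ℝ) : ℂ) * Complex.log w)) +
        (κ * (((1 / (2 * κ) : ℝ) : ℂ) * Complex.log w)) = Complex.log w := by
      push_cast
      field_simp
      ring
    rw [this, Complex.exp_log hw0]
  have hinv : Complex.exp (κ * (((1 / (2 * κ) : ℝ) : ℂ) * Complex.log w)) *
      Complex.exp (-(κ * (((1 / (2 * κ) : ℝ) : ℂ) * Complex.log w))) = 1 := by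
    rw [← Complex.exp_add]
    simp
  have hw1 : w + 1 ≠ 0 := by
    rw [hw]
    have : (1 + τ) / (1 - τ) + 1 = 2 / (1 - τ) := by
      field_simp
      ring
    rw [this]
    exact div_ne_zero two_ne_zero hd
  set a := Complex.exp (κ * (((1 / (2 * κ) : ℝ) : ℂ) * Complex.log w)) with ha
  set b := Complex.exp (-(κ * (((1 / (2 * κ) : ℝ) : ℂ) * Complex.log w))) with hb
  have ha0 : a ≠ 0 := Complex.exp_ne_zero _
  have hab : a * (a + b) = w + 1 := by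
    rw [mul_add, hexp, hinv]
  have hab' : a * (a - b) = w - 1 := by
    rw [mul_sub, hexp, hinv]
  have hne : a + b ≠ 0 := by
    intro h0
    rw [h0, mul_zero] at hab
    exact hw1 hab.symm
  refine ⟨((1 / (2 * κ) : ℝ) : ℂ) * Complex.log w, ?_, ?_, ?_, ?_⟩
  · rw [hre, Complex.log_re]
    exact mul_pos (by positivity) (Real.log_pos hwn)
  · rw [him, Complex.log_im, abs_mul, abs_of_pos (by positivity : 0 < 1 / (2 * κ))]
    have := Complex.abs_arg_le_pi w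
    calc 1 / (2 * κ) * |arg w| ≤ 1 / (2 * κ) * Real.pi :=
          mul_le_mul_of_nonneg_left this (by positivity)
      _ = Real.pi / (2 * κ) := by ring
  · rw [Complex.cosh, ← ha, ← hb]
    exact div_ne_zero hne two_ne_zero
  · rw [tanh_eq_sinh_div_cosh, Complex.cosh, Complex.sinh, ← ha, ← hb]
    rw [div_div_div_cancel_right₀ two_ne_zero, ← mul_div_mul_left _ _ ha0, hab, hab']
    rw [div_eq_iff hw1, hw]
    field_simp
    ring

private theorem r_fT_one {e κ : ℝ} (he : 0 < e) (hκ : 0 < κ) :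
    fT e κ 1 = (((1 + Real.exp (-(e * κ)))⁻¹ : ℝ) : ℂ) := by
  unfold fT
  have hterm : ∀ k : ℕ, (-1 : ℂ) ^ k *
      ((Real.cosh (κ * k) : ℂ) + 1 * (Real.sinh (κ * k) : ℂ)) ^ (-(e : ℂ)) =
      ((-Real.exp (-(e * κ)) : ℝ) : ℂ) ^ k := by
    intro k
    have h1 : (Real.cosh (κ * k) : ℂ) + 1 * (Real.sinh (κ * k) : ℂ) =
        ((Real.exp (κ * k) : ℝ) : ℂ) := by
      rw [one_mul, ← Complex.ofReal_add, Real.cosh_add_sinh]
    rw [h1]
    have h2 : (-(e : ℂ)) = ((-e : ℝ) : ℂ) := by push_cast; ring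
    rw [h2, ← Complex.ofReal_cpow (Real.exp_pos _).le]
    rw [← Real.exp_mul]
    have h3 : Real.exp (κ * k * -e) = (Real.exp (-(e * κ))) ^ k := by
      rw [← Real.exp_nat_mul]
      congr 1
      ring
    rw [h3]
    push_cast
    rw [neg_pow (Complex.exp _)]
  rw [tsum_congr hterm]
  have hlt : Real.exp (-(e * κ)) < 1 := by
    rw [Real.exp_lt_one_iff]
    have := mul_pos he hκ
    linarith
  have hn : ‖((-Real.exp (-(e * κ)) : ℝ) : ℂ)‖ < 1 := by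
    rw [Complex.norm_real, Real.norm_eq_abs, abs_neg, abs_of_pos (Real.exp_pos _)]
    exact hlt
  rw [tsum_geometric_of_norm_lt_one hn]
  push_cast
  rw [sub_neg_eq_add]

/-- value at the fixed point -/
theorem fT_one {e κ : ℝ} (he : 0 < e) (hκ : 0 < κ) :
    fT e κ 1 = ((1 / (1 + Real.exp (-(e * κ))) : ℝ) : ℂ) := by
  rw [r_fT_one he hκ, one_div]

/-- `Re fT > 1/2` (from `half_lt_re_f`; at `τ = 1` the sum is geometric,
`fT 1 = 1/(1 + exp(-eκ))`). -/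
theorem half_lt_re_fT {e κ : ℝ} (he : 0 < e) (hκ : 0 < κ) {τ : ℂ} (h : 0 < τ.re) :
    1 / 2 < (fT e κ τ).re := by
  rcases eq_or_ne τ 1 with h1 | h1
  · rw [h1, fT_one he hκ, ofReal_re]
    have hlt : Real.exp (-(e * κ)) < 1 := by
      rw [Real.exp_lt_one_iff]
      have := mul_pos he hκ
      linarith
    have hpos := Real.exp_pos (-(e * κ))
    apply one_div_lt_one_div_of_lt (by linarith) (by linarith)
  · obtain ⟨ζ, hζ, -, -, ht⟩ := exists_tanh hκ h h1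
    have := half_lt_re_f he hκ hζ
    unfold f at this
    rw [ht] at this
    exact this

private theorem r_mul_cpow {x y : ℂ} (hx : 0 < x.re) (hy : 0 < y.re) (c : ℂ) :
    (x * y) ^ c = x ^ c * y ^ c := by
  have hx0 : x ≠ 0 := by
    intro h
    rw [h, zero_re] at hx
    exact lt_irrefl _ hx
  have hy0 : y ≠ 0 := by
    intro h
    rw [h, zero_re] at hy
    exact lt_irrefl _ hy
  have a1 := abs_lt.1 (abs_arg_lt_pi_div_two_iff.2 (Or.inl hx))
  have a2 := abs_lt.1 (abs_arg_lt_pi_div_two_iff.2 (Or.inl hy))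
  have hl := Complex.log_mul hx0 hy0 ⟨by linarith [a1.1, a2.1], by linarith [a1.2, a2.2]⟩
  rw [cpow_def_of_ne_zero (mul_ne_zero hx0 hy0), cpow_def_of_ne_zero hx0,
    cpow_def_of_ne_zero hy0, hl, add_mul, exp_add]

private theorem r_base_pos {κ : ℝ} (hκ : 0 < κ) {T : ℂ} (hT : 0 ≤ T.re) (k : ℕ) :
    0 < ((Real.cosh (κ * k) : ℂ) + T * (Real.sinh (κ * k) : ℂ)).re :=
  lt_of_lt_of_le (Real.cosh_pos _) (re_base hκ hT k)

private theorem r_summable {e κ : ℝ} (he : 0 < e) (hκ : 0 < κ) {T : ℂ} (hT : 0 ≤ T.re) :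
    Summable (fun k : ℕ => (-1 : ℂ) ^ k *
      ((Real.cosh (κ * k) : ℂ) + T * (Real.sinh (κ * k) : ℂ)) ^ (-(e : ℂ))) :=
  Summable.of_norm_bounded (summable_bound he hκ) (fun k => norm_term_le he hκ hT k)

private theorem r_base_succ {κ : ℝ} (hκ : 0 < κ) {τ : ℂ} (h : 0 ≤ τ.re) (k : ℕ) :
    (Real.cosh (κ * (k + 1 : ℕ)) : ℂ) + τ * (Real.sinh (κ * (k + 1 : ℕ)) : ℂ) =
      Qk κ τ * ((Real.cosh (κ * k) : ℂ) + shf κ τ * (Real.sinh (κ * k) : ℂ)) := by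
  have hd := shf_den hκ h
  have hc : (Real.cosh κ : ℂ) ≠ 0 := ofReal_ne_zero.2 (Real.cosh_pos κ).ne'
  have hQ : Qk κ τ = (Real.cosh κ : ℂ) * (1 + (Real.tanh κ : ℂ) * τ) := by
    unfold Qk
    rw [Real.tanh_eq_sinh_div_cosh]
    push_cast at hc ⊢
    field_simp
  have hQs : Qk κ τ * shf κ τ = (Real.cosh κ : ℂ) * τ + (Real.sinh κ : ℂ) := by
    rw [hQ]
    unfold shf
    rw [mul_assoc, mul_div_cancel₀ _ hd, Real.tanh_eq_sinh_div_cosh]
    push_cast at hc ⊢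
    field_simp
  have e1 : κ * ((k + 1 : ℕ) : ℝ) = κ * k + κ := by
    push_cast
    ring
  rw [mul_add, ← mul_assoc, hQs, e1, Real.cosh_add, Real.sinh_add]
  unfold Qk
  push_cast
  ring

/-- `cosh κ(k+1) + τ sinh κ(k+1) = Q(τ) (cosh κk + shf τ sinh κk)`, all factors have positive real
part; the arguments of `Q(τ)` and of the second factor have the sign of `Im τ` and their sum is the
argument of the left side, so the powers multiply. -/
theorem fT_add {e κ : ℝ} (he : 0 < e) (hκ : 0 < κ) {τ : ℂ} (h : 0 < τ.re) :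
    fT e κ τ + Qk κ τ ^ (-(e : ℂ)) * fT e κ (shf κ τ) = 1 := by
  have hQ : 0 < (Qk κ τ).re := lt_of_lt_of_le (Real.cosh_pos _) (Qk_re hκ h.le)
  have hs := shf_re hκ h.le
  unfold fT
  rw [(r_summable he hκ h.le).tsum_eq_zero_add]
  have e1 : ∑' k : ℕ, (-1 : ℂ) ^ (k + 1) * ((Real.cosh (κ * (k + 1 : ℕ)) : ℂ) +
      τ * (Real.sinh (κ * (k + 1 : ℕ)) : ℂ)) ^ (-(e : ℂ)) =
      - (Qk κ τ ^ (-(e : ℂ)) * ∑' k : ℕ, (-1 : ℂ) ^ k * ((Real.cosh (κ * k) : ℂ) +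
        shf κ τ * (Real.sinh (κ * k) : ℂ)) ^ (-(e : ℂ))) := by
    rw [← tsum_mul_left, ← tsum_neg]
    apply tsum_congr
    intro k
    rw [r_base_succ hκ h.le k, r_mul_cpow hQ (r_base_pos hκ hs.le k), pow_succ]
    ring
  rw [e1]
  simp

/-- real on the real axis -/
theorem fT_real {e κ : ℝ} (he : 0 < e) (hκ : 0 < κ) {τ : ℝ} (h : 0 < τ) :
    (fT e κ (τ : ℂ)).im = 0 := by
  have hterm : ∀ k : ℕ, (-1 : ℂ) ^ k *
      ((Real.cosh (κ * k) : ℂ) + (τ : ℂ) * (Real.sinh (κ * k) : ℂ)) ^ (-(e : ℂ)) =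
      (((-1) ^ k * (Real.cosh (κ * k) + τ * Real.sinh (κ * k)) ^ (-e) : ℝ) : ℂ) := by
    intro k
    have h0 : 0 ≤ Real.cosh (κ * k) + τ * Real.sinh (κ * k) := by
      have h1 := Real.cosh_pos (κ * k)
      have h2 : 0 ≤ Real.sinh (κ * k) := Real.sinh_nonneg_iff.2 (by positivity)
      positivity
    have h2 : (-(e : ℂ)) = ((-e : ℝ) : ℂ) := by push_cast; ring
    rw [← ofReal_mul, ← ofReal_add, h2, ← Complex.ofReal_cpow h0]
    push_cast
    ring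
  unfold fT
  rw [tsum_congr hterm, ← ofReal_tsum, ofReal_im]

private theorem r_one_sub {e κ : ℝ} (he : 0 < e) (hκ : 0 < κ) {τ : ℂ} (h : 0 < τ.re) :
    1 - fT e κ τ = Qk κ τ ^ (-(e : ℂ)) * fT e κ (shf κ τ) := by
  linear_combination -(fT_add he hκ h)

theorem one_sub_fT_ne {e κ : ℝ} (he : 0 < e) (hκ : 0 < κ) {τ : ℂ} (h : 0 < τ.re) :
    1 - fT e κ τ ≠ 0 := by
  rw [r_one_sub he hκ h]
  have hQ : 0 < (Qk κ τ).re := lt_of_lt_of_le (Real.cosh_pos _) (Qk_re hκ h.le)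
  have hQ0 : Qk κ τ ≠ 0 := by
    intro h0
    rw [h0, zero_re] at hQ
    exact lt_irrefl _ hQ
  apply mul_ne_zero
  · rw [cpow_def_of_ne_zero hQ0]
    exact exp_ne_zero _
  · intro h0
    have := half_lt_re_fT he hκ (shf_re hκ h.le)
    rw [h0, zero_re] at this
    linarith

private theorem r_shf_real (κ τ : ℝ) :
    shf κ (τ : ℂ) = (((τ + Real.tanh κ) / (1 + Real.tanh κ * τ) : ℝ) : ℂ) := by
  unfold shf
  push_cast
  rfl

private theorem r_Qk_real (κ τ : ℝ) :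
    Qk κ (τ : ℂ) = ((Real.cosh κ + Real.sinh κ * τ : ℝ) : ℂ) := by
  unfold Qk
  push_cast
  rfl

private theorem r_fT_ofReal {e κ : ℝ} (he : 0 < e) (hκ : 0 < κ) {τ : ℝ} (h : 0 < τ) :
    fT e κ (τ : ℂ) = (((fT e κ (τ : ℂ)).re : ℝ) : ℂ) := by
  apply Complex.ext
  · simp
  · rw [fT_real he hκ h, ofReal_im]

/-- For real `η` the definition of `aR` is `(CC (1 - F))^(1/e)`: for real `τ > 0`, real `η` with
`η < 1 - fT (shf τ)` (all numbers positive), by `fT_add`. -/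
theorem aR_real {e κ : ℝ} (he : 0 < e) (hκ : 0 < κ) {τ η : ℝ} (h : 0 < τ)
    (hη : 0 < 1 - η / (1 - (fT e κ (shf κ τ)).re)) :
    0 < 1 - (fT e κ (shf κ τ)).re - η ∧
    aR e κ τ η = (((Ck e κ * (1 - (fT e κ (shf κ τ)).re - η)) ^ (1 / e) : ℝ) : ℂ) := by
  have htk := r_tanh_pos hκ
  set σ : ℝ := (τ + Real.tanh κ) / (1 + Real.tanh κ * τ) with hσ
  have hσp : 0 < σ := by
    rw [hσ]
    positivity
  have hsh : shf κ (τ : ℂ) = (σ : ℂ) := r_shf_real κ τ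
  set σ' : ℝ := (σ + Real.tanh κ) / (1 + Real.tanh κ * σ) with hσ'
  have hσ'p : 0 < σ' := by
    rw [hσ']
    positivity
  have hsh' : shf κ (σ : ℂ) = (σ' : ℂ) := r_shf_real κ σ
  rw [hsh] at hη ⊢
  set F : ℝ := (fT e κ (σ : ℂ)).re with hF
  have hFc : fT e κ (σ : ℂ) = (F : ℂ) := r_fT_ofReal he hκ hσp
  set g : ℝ := (fT e κ (σ' : ℂ)).re with hg
  have hgc : fT e κ (σ' : ℂ) = (g : ℂ) := r_fT_ofReal he hκ hσ'p
  have hgp : 0 < g := by
    have := half_lt_re_fT he hκ (τ := (σ' : ℂ)) (by simpa using hσ'p)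
    rw [← hg] at this
    linarith
  set q : ℝ := Real.cosh κ + Real.sinh κ * σ with hq
  have hsk : 0 < Real.sinh κ := Real.sinh_pos_iff.2 hκ
  have hck := Real.cosh_pos κ
  have hqp : 0 < q := by
    rw [hq]
    positivity
  have hqc : Qk κ (σ : ℂ) = (q : ℂ) := r_Qk_real κ σ
  have hrel : 1 - F = q ^ (-e) * g := by
    have h1 := r_one_sub he hκ (τ := (σ : ℂ)) (by simpa using hσp)
    rw [hFc, hqc, hsh', hgc] at h1
    have h2 : (-(e : ℂ)) = ((-e : ℝ) : ℂ) := by push_cast; ring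
    rw [h2, ← Complex.ofReal_cpow hqp.le] at h1
    exact_mod_cast h1
  have hqe : 0 < q ^ (-e) := Real.rpow_pos_of_pos hqp _
  have hF1 : 0 < 1 - F := by
    rw [hrel]
    positivity
  have hsplit : 1 - F - η = (1 - F) * (1 - η / (1 - F)) := by
    field_simp
  have hpos : 0 < 1 - F - η := by
    rw [hsplit]
    positivity
  refine ⟨hpos, ?_⟩
  have hC : 0 < Ck e κ := by
    unfold Ck
    have h1 := Real.cosh_pos (e * κ / 2)
    have h2 : 0 < Real.sinh (κ / 2) := Real.sinh_pos_iff.2 (by linarith)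
    have h3 : 0 < (2 * Real.sinh (κ / 2)) ^ (-e) := Real.rpow_pos_of_pos (by positivity) _
    positivity
  unfold aR
  rw [hsh, hsh', hgc, hqc, hFc]
  have e1 : (1 : ℂ) - (η : ℂ) / (1 - (F : ℂ)) = ((1 - η / (1 - F) : ℝ) : ℂ) := by
    push_cast
    rfl
  rw [e1, ← Complex.ofReal_cpow hgp.le, ← Complex.ofReal_cpow hη.le, ← ofReal_mul, ← ofReal_div,
    ← ofReal_mul]
  congr 1
  have e2 : -e * (1 / e) = -1 := by
    field_simp
  have e3 : (1 - F) ^ (1 / e) = q⁻¹ * g ^ (1 / e) := by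
    rw [hrel, Real.mul_rpow hqe.le hgp.le, ← Real.rpow_mul hqp.le, e2, Real.rpow_neg_one]
  rw [hsplit, Real.mul_rpow hC.le (mul_pos hF1 hη).le, Real.mul_rpow hF1.le hη.le, e3]
  ring

end Pool.Agent.helper31.EQ.R
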