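import Pool.Agent.helper31.EQ.R.Defs

/-!
# EQ-R: the ratio position scheme, universal form, definitions

The unknown of a node is `1 - f = exp (-C) (v - r x)` with free functions `C`, `v`, `r` of the start
`p`, the index and the position of the link before the node (`C0`, `v0`, `r0` of `p` only at the node
`1`).  With `g = v - r x`, `F = 1 - exp (-C) g`, `ρ = (CC F)^(-1/e)`, `a = (CC (1 - F))^(1/e) =
CC^(1/e) exp (-C/e) g^(1/e)` the step is as in `R/Defs.lean`.  The law `1 - F = Q₊^(-e) F₊` gives the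
new value `x_new = (v - exp C * Q₊^(-e) * F₊) / r`; no logarithm is needed.  The sequence map is
`x - M (x - x_new)`.
-/

namespace Pool.Agent.helper31.EQ.R

open Complex Pool.Agent.helper31.EQ.Y

noncomputable section

/-- `f` for `1 - f = exp (-C) g`. -/
def fF (C g : ℂ) : ℂ := 1 - exp (-C) * g

/-- `a = (CC (1 - f))^(1/e)` for `1 - f = exp (-C) g`. -/
def aF (e κ : ℝ) (C g : ℂ) : ℂ :=
  ((Ck e κ ^ (1 / e) : ℝ) : ℂ) * exp (-(C / e)) * g ^ ((1 / e : ℝ) : ℂ)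

/-- the radicand `(Q (n+1))²` -/
def radF (e κ : ℝ) (τ C g : ℂ) : ℂ :=
  1 + (1 / aF e κ C g + rho e κ (fF C g) + (1 - (Qk κ τ ^ 2)⁻¹) / rho e κ (fF C g)) /
    aF e κ C g

/-- the next link -/
def stepF (e κ : ℝ) (τ C g : ℂ) : ℂ :=
  (radF e κ τ C g ^ ((1 / 2 : ℝ) : ℂ) - (Real.cosh κ : ℂ)) / (Real.sinh κ : ℂ)

/-- the radicand `(Q 1)²` for the start `p` -/
def rad0F (e κ : ℝ) (p C g : ℂ) : ℂ :=
  1 + (1 / aF e κ C g + 2 * T1 (tanh (κ * p)) (rho e κ (fF C g))) / aF e κ C g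

/-- the first link `τ 1` -/
def step0F (e κ : ℝ) (p C g : ℂ) : ℂ :=
  (rad0F e κ p C g ^ ((1 / 2 : ℝ) : ℂ) - (Real.cosh κ : ℂ)) / (Real.sinh κ : ℂ)

/-- the new value of `x` at a node with data `C`, `v`, `r`; the next link is `τ'`, the next node has
the value `F'` -/
def lawF (e κ : ℝ) (C v r τ' F' : ℂ) : ℂ := (v - exp C * Qk κ τ' ^ (-(e : ℂ)) * F') / r

/-- Links: `pos 0 = τ 1`; the node `1` has `1 - f = exp (-C0 p) (v0 p - r0 p * x 0)`, the node `n+2` has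
`1 - f = exp (-C p n (pos n)) (v p n (pos n) - r p n (pos n) * x (n+1))`. -/
def posF (e κ : ℝ) (C0 v0 r0 : ℂ → ℂ) (C v r : ℂ → ℕ → ℂ → ℂ) (p : ℂ) (x : ℕ → ℂ) : ℕ → ℂ
  | 0 => step0F e κ p (C0 p) (v0 p - r0 p * x 0)
  | n + 1 => stepF e κ (posF e κ C0 v0 r0 C v r p x n)
      (C p n (posF e κ C0 v0 r0 C v r p x n))
      (v p n (posF e κ C0 v0 r0 C v r p x n) -
        r p n (posF e κ C0 v0 r0 C v r p x n) * x (n + 1))

/-- the value of the node `n+2` -/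
def valF (e κ : ℝ) (C0 v0 r0 : ℂ → ℂ) (C v r : ℂ → ℕ → ℂ → ℂ) (p : ℂ) (x : ℕ → ℂ) (n : ℕ) : ℂ :=
  fF (C p n (posF e κ C0 v0 r0 C v r p x n))
    (v p n (posF e κ C0 v0 r0 C v r p x n) - r p n (posF e κ C0 v0 r0 C v r p x n) * x (n + 1))

/-- The sequence map, with preconditioners `M0 p`, `M p n τ`. -/
def PhiF (e κ : ℝ) (C0 v0 r0 : ℂ → ℂ) (C v r : ℂ → ℕ → ℂ → ℂ) (M0 : ℂ → ℂ) (M : ℂ → ℕ → ℂ → ℂ)
    (p : ℂ) (x : ℕ → ℂ) : ℕ → ℂ
  | 0 => x 0 - M0 p * (x 0 -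
      lawF e κ (C0 p) (v0 p) (r0 p) (posF e κ C0 v0 r0 C v r p x 0)
        (valF e κ C0 v0 r0 C v r p x 0))
  | n + 1 => x (n + 1) - M p n (posF e κ C0 v0 r0 C v r p x n) * (x (n + 1) -
      lawF e κ (C p n (posF e κ C0 v0 r0 C v r p x n)) (v p n (posF e κ C0 v0 r0 C v r p x n))
        (r p n (posF e κ C0 v0 r0 C v r p x n)) (posF e κ C0 v0 r0 C v r p x (n + 1))
        (valF e κ C0 v0 r0 C v r p x (n + 1)))

end

end Pool.Agent.helper31.EQ.R
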