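import Pool.Agent.helper31.EQ.R.DataN
import Pool.Agent.helper31.EQ.R.DefsF

/-!
# EQ-R6: the interface of the ratio position scheme, universal form
-/

namespace Pool.Agent.helper31.EQ.R

open Set Metric Filter Topology Complex Pool.Agent.helper31.EQ.Y

/-- Everything the scheme needs for one pair `(e, κ)`. -/
structure RDataF (e κ : ℝ) where
  θ : ℝ
  hθ0 : 0 ≤ θ
  hθ1 : θ < 1
  /-- starts `p = ζ 0`, `t 0 = sinh (κ p)` -/
  D : Set ℂ
  isOpen_D : IsOpen D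
  D_strip : ∀ p ∈ D, |p.im| < Real.pi / (2 * κ)
  /-- positions `τ` of the link number `n` (`n = 0` is the link from node `1` to node `2`) -/
  Ω : ℂ → ℕ → Set ℂ
  Ω_re : ∀ p ∈ D, ∀ n, ∀ τ ∈ Ω p n, 0 < τ.re
  /-- node `1`: `1 - f = exp (-C0 p) (v0 p - r0 p * x 0)` -/
  C0 : ℂ → ℂ
  v0 : ℂ → ℂ
  r0 : ℂ → ℂ
  /-- node `n+2`: `1 - f = exp (-C p n (pos n)) (v p n (pos n) - r p n (pos n) * x (n+1))` -/
  C : ℂ → ℕ → ℂ → ℂ
  v : ℂ → ℕ → ℂ → ℂ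
  r : ℂ → ℕ → ℂ → ℂ
  /-- preconditioners -/
  M0 : ℂ → ℂ
  M : ℂ → ℕ → ℂ → ℂ
  C0_diff : DifferentiableOn ℂ C0 D
  v0_diff : DifferentiableOn ℂ v0 D
  r0_diff : DifferentiableOn ℂ r0 D
  M0_diff : DifferentiableOn ℂ M0 D
  C_diff : ∀ p ∈ D, ∀ n, ∀ τ ∈ Ω p n, DifferentiableAt ℂ (fun q : ℂ × ℂ => C q.1 n q.2) (p, τ)
  v_diff : ∀ p ∈ D, ∀ n, ∀ τ ∈ Ω p n, DifferentiableAt ℂ (fun q : ℂ × ℂ => v q.1 n q.2) (p, τ)
  r_diff : ∀ p ∈ D, ∀ n, ∀ τ ∈ Ω p n, DifferentiableAt ℂ (fun q : ℂ × ℂ => r q.1 n q.2) (p, τ)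
  M_diff : ∀ p ∈ D, ∀ n, ∀ τ ∈ Ω p n, DifferentiableAt ℂ (fun q : ℂ × ℂ => M q.1 n q.2) (p, τ)
  r0_ne : ∀ p ∈ D, r0 p ≠ 0
  r_ne : ∀ p ∈ D, ∀ n, ∀ τ ∈ Ω p n, r p n τ ≠ 0
  M0_ne : ∀ p ∈ D, M0 p ≠ 0
  M_ne : ∀ p ∈ D, ∀ n, ∀ τ ∈ Ω p n, M p n τ ≠ 0
  C0_real : ∀ p : ℝ, (p : ℂ) ∈ D → (C0 p).im = 0
  v0_real : ∀ p : ℝ, (p : ℂ) ∈ D → (v0 p).im = 0
  r0_real : ∀ p : ℝ, (p : ℂ) ∈ D → (r0 p).im = 0
  M0_real : ∀ p : ℝ, (p : ℂ) ∈ D → (M0 p).im = 0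
  C_real : ∀ p : ℝ, (p : ℂ) ∈ D → ∀ n, ∀ τ : ℝ, (τ : ℂ) ∈ Ω p n → (C p n τ).im = 0
  v_real : ∀ p : ℝ, (p : ℂ) ∈ D → ∀ n, ∀ τ : ℝ, (τ : ℂ) ∈ Ω p n → (v p n τ).im = 0
  r_real : ∀ p : ℝ, (p : ℂ) ∈ D → ∀ n, ∀ τ : ℝ, (τ : ℂ) ∈ Ω p n → (r p n τ).im = 0
  M_real : ∀ p : ℝ, (p : ℂ) ∈ D → ∀ n, ∀ τ : ℝ, (τ : ℂ) ∈ Ω p n → (M p n τ).im = 0
  /-- node `1`: all powers are in the slit plane -/
  F0_slit : ∀ p ∈ D, ∀ x : ℂ, ‖x‖ ≤ 1 → fF (C0 p) (v0 p - r0 p * x) ∈ slitPlane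
  g0_slit : ∀ p ∈ D, ∀ x : ℂ, ‖x‖ ≤ 1 → v0 p - r0 p * x ∈ slitPlane
  w0_slit : ∀ p ∈ D, ∀ x : ℂ, ‖x‖ ≤ 1 →
    1 - rho e κ (fF (C0 p) (v0 p - r0 p * x)) ^ 2 * (1 - tanh (κ * p) ^ 2) ∈ slitPlane
  rad0_slit : ∀ p ∈ D, ∀ x : ℂ, ‖x‖ ≤ 1 → rad0F e κ p (C0 p) (v0 p - r0 p * x) ∈ slitPlane
  radH_slit : ∀ p ∈ D, ∀ x : ℂ, ‖x‖ ≤ 1 →
    radH e κ p (fF (C0 p) (v0 p - r0 p * x)) ∈ slitPlane
  rho_lt : ∀ p : ℝ, (p : ℂ) ∈ D → ∀ x : ℂ, ‖x‖ ≤ 1 →
    ‖rho e κ (fF (C0 p) (v0 p - r0 p * x))‖ < 1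
  /-- links -/
  F_slit : ∀ p ∈ D, ∀ n, ∀ τ ∈ Ω p n, ∀ x : ℂ, ‖x‖ ≤ 1 →
    fF (C p n τ) (v p n τ - r p n τ * x) ∈ slitPlane
  g_slit : ∀ p ∈ D, ∀ n, ∀ τ ∈ Ω p n, ∀ x : ℂ, ‖x‖ ≤ 1 → v p n τ - r p n τ * x ∈ slitPlane
  rad_slit : ∀ p ∈ D, ∀ n, ∀ τ ∈ Ω p n, ∀ x : ℂ, ‖x‖ ≤ 1 →
    radF e κ τ (C p n τ) (v p n τ - r p n τ * x) ∈ slitPlane
  /-- invariance -/
  inv0 : ∀ p ∈ D, ∀ x : ℂ, ‖x‖ ≤ 1 → step0F e κ p (C0 p) (v0 p - r0 p * x) ∈ Ω p 0
  inv : ∀ p ∈ D, ∀ n, ∀ τ ∈ Ω p n, ∀ x : ℂ, ‖x‖ ≤ 1 →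
    stepF e κ τ (C p n τ) (v p n τ - r p n τ * x) ∈ Ω p (n + 1)
  /-- closing -/
  close0 : ∀ p ∈ D, ∀ x x' : ℂ, ‖x‖ ≤ 1 → ‖x'‖ ≤ 1 →
    ∀ τ, τ = step0F e κ p (C0 p) (v0 p - r0 p * x) →
    ‖x - M0 p * (x - lawF e κ (C0 p) (v0 p) (r0 p) τ (fF (C p 0 τ) (v p 0 τ - r p 0 τ * x')))‖ ≤ θ
  close : ∀ p ∈ D, ∀ n, ∀ τ ∈ Ω p n, ∀ x x' : ℂ, ‖x‖ ≤ 1 → ‖x'‖ ≤ 1 →
    ∀ τ', τ' = stepF e κ τ (C p n τ) (v p n τ - r p n τ * x) →
    ‖x - M p n τ * (x - lawF e κ (C p n τ) (v p n τ) (r p n τ) τ'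
      (fF (C p (n + 1) τ') (v p (n + 1) τ' - r p (n + 1) τ' * x')))‖ ≤ θ
  /-- real positions converge to `1` -/
  tend : ∀ p : ℝ, (p : ℂ) ∈ D → ∀ x : ℕ → ℂ, (∀ n, ‖x n‖ ≤ 1) → (∀ n, (x n).im = 0) →
    Tendsto (posF e κ C0 v0 r0 C v r p x) atTop (𝓝 1)
  η : ℝ
  hη : 0 < η
  seg : ∀ y : ℝ, |y| ≤ η → ((y : ℂ) * I) ∈ D
  test : ∀ x : ℕ → ℂ, (∀ n, ‖x n‖ ≤ 1) →
    (∀ n, x n = PhiF e κ C0 v0 r0 C v r M0 M ((η : ℂ) * I) x n) →
    (H0 e κ ((η : ℂ) * I)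
      (fF (C0 ((η : ℂ) * I)) (v0 ((η : ℂ) * I) - r0 ((η : ℂ) * I) * x 0))).re ≠ 1 / 2

variable {e κ : ℝ}

private theorem DataF_real_pos {z : ℂ} (hz : z ∈ slitPlane) (h : z.im = 0) : 0 < z.re := by
  rcases (mem_slitPlane_iff.1 hz) with h1 | h1
  · exact h1
  · exact absurd h h1

private theorem DataF_ofReal_pos {x : ℝ} (hz : (x : ℂ) ∈ slitPlane) : 0 < x := by
  have := DataF_real_pos hz (ofReal_im x)
  simpa using this

private theorem DataF_eq_re {z : ℂ} (h : z.im = 0) : z = ((z.re : ℝ) : ℂ) := by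
  apply Complex.ext
  · simp
  · simp [h]

private theorem DataF_T1_real {T ρ : ℝ} (h : 0 ≤ 1 - ρ ^ 2 * (1 - T ^ 2)) :
    T1 (T : ℂ) (ρ : ℂ) =
      ((ρ * (1 - T ^ 2) + T * Real.sqrt (1 - ρ ^ 2 * (1 - T ^ 2)) : ℝ) : ℂ) := by
  unfold T1
  rw [Real.sqrt_eq_rpow]
  have h1 := Complex.ofReal_cpow h (1 / 2)
  have h2 : ((1 - ρ ^ 2 * (1 - T ^ 2) : ℝ) : ℂ) = 1 - (ρ : ℂ) ^ 2 * (1 - (T : ℂ) ^ 2) := by
    push_cast
    ring
  rw [h2] at h1
  rw [ofReal_add, ofReal_mul, ofReal_mul, h1]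
  push_cast
  ring

private theorem DataF_sqrt_real {w : ℝ} (h : 0 ≤ w) :
    (w : ℂ) ^ ((1 / 2 : ℝ) : ℂ) = ((Real.sqrt w : ℝ) : ℂ) := by
  rw [Real.sqrt_eq_rpow, Complex.ofReal_cpow h]

private theorem DataF_tanh_real (κ p : ℝ) :
    tanh ((κ : ℂ) * (p : ℂ)) = ((Real.tanh (κ * p) : ℝ) : ℂ) := by
  push_cast
  rfl

private theorem DataF_Qk_real (κ τ : ℝ) :
    Qk κ (τ : ℂ) = ((Real.cosh κ + Real.sinh κ * τ : ℝ) : ℂ) := by
  unfold Qk
  push_cast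
  rfl

private theorem DataF_mul_slit {C : ℝ} (hC : 0 < C) {F : ℂ} (h : F ∈ slitPlane) :
    (C : ℂ) * F ∈ slitPlane := by
  rw [mem_slitPlane_iff] at h ⊢
  rw [re_ofReal_mul, im_ofReal_mul]
  rcases h with h | h
  · exact Or.inl (mul_pos hC h)
  · exact Or.inr (mul_ne_zero hC.ne' h)

private theorem DataF_T1_diff {T ρ : ℂ → ℂ} {z : ℂ} (dT : DifferentiableAt ℂ T z)
    (dρ : DifferentiableAt ℂ ρ z) (h : 1 - ρ z ^ 2 * (1 - T z ^ 2) ∈ slitPlane) :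
    DifferentiableAt ℂ (fun w => T1 (T w) (ρ w)) z := by
  unfold T1
  have d1 : DifferentiableAt ℂ (fun w => 1 - T w ^ 2) z := (dT.pow 2).const_sub 1
  have d2 : DifferentiableAt ℂ (fun w => 1 - ρ w ^ 2 * (1 - T w ^ 2)) z :=
    ((dρ.pow 2).mul d1).const_sub 1
  exact (dρ.mul d1).add (dT.mul (d2.cpow_const h))

private theorem DataF_cosh_ne (hκ : 0 < κ) {ζ : ℂ} (h : |ζ.im| < Real.pi / (2 * κ)) :
    cosh (κ * ζ) ≠ 0 := by
  intro h0
  have := re_cosh_pos hκ h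
  rw [h0] at this
  simp at this

private theorem DataF_tanh_diff (hκ : 0 < κ) {p : ℂ → ℂ} {z : ℂ}
    (dp : DifferentiableAt ℂ p z) (h : |(p z).im| < Real.pi / (2 * κ)) :
    DifferentiableAt ℂ (fun w => tanh (κ * p w)) z := by
  have e1 : (fun w : ℂ => tanh (κ * p w)) = fun w => sinh (κ * p w) / cosh (κ * p w) := by
    funext w
    rw [tanh_eq_sinh_div_cosh]
  rw [e1]
  have dκ : DifferentiableAt ℂ (fun w : ℂ => (κ : ℂ) * p w) z := dp.const_mul _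
  exact dκ.csinh.div dκ.ccosh (DataF_cosh_ne hκ h)

private theorem DataF_Qk_slit (hκ : 0 < κ) {τ : ℂ} (h : 0 < τ.re) :
    Qk κ τ ∈ slitPlane := by
  left
  exact (Real.cosh_pos κ).trans_le (Qk_re hκ h.le)

private theorem DataF_Qk_diff {τ : ℂ → ℂ} {z : ℂ} (dτ : DifferentiableAt ℂ τ z) :
    DifferentiableAt ℂ (fun w => Qk κ (τ w)) z := by
  unfold Qk
  exact (dτ.const_mul _).const_add _

private theorem DataF_comp_diff {g : ℂ → ℕ → ℂ → ℂ} {k : ℕ} {t τ : ℂ → ℂ} {z : ℂ}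
    (dg : DifferentiableAt ℂ (fun q : ℂ × ℂ => g q.1 k q.2) (t z, τ z))
    (dt : DifferentiableAt ℂ t z) (dτ : DifferentiableAt ℂ τ z) :
    DifferentiableAt ℂ (fun w => g (t w) k (τ w)) z :=
  DifferentiableAt.comp (g := fun q : ℂ × ℂ => g q.1 k q.2) (f := fun w => (t w, τ w)) z dg
    (dt.prodMk dτ)

private theorem DataF_mem_iff {z : ℂ} :
    z ∈ (Complex.ofRealHom : ℝ →+* ℂ).fieldRange ↔ z.im = 0 := by
  constructor
  · rintro ⟨r, rfl⟩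
    exact ofReal_im r
  · intro h
    exact ⟨z.re, (DataF_eq_re h).symm⟩

private theorem DataF_exp_mem {z : ℂ} (h : z ∈ (Complex.ofRealHom : ℝ →+* ℂ).fieldRange) :
    exp z ∈ (Complex.ofRealHom : ℝ →+* ℂ).fieldRange := by
  obtain ⟨r, rfl⟩ := h
  refine ⟨Real.exp r, ?_⟩
  simp

private theorem DataF_step_real {κ R : ℝ} (hR : 0 < R) :
    (((R : ℂ) ^ ((1 / 2 : ℝ) : ℂ) - (Real.cosh κ : ℂ)) / (Real.sinh κ : ℂ)) =
      (((Real.sqrt R - Real.cosh κ) / Real.sinh κ : ℝ) : ℂ) := by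
  rw [DataF_sqrt_real hR.le, ofReal_div, ofReal_sub]

private theorem DataF_Qk_step {κ R : ℝ} (hκ : 0 < κ) :
    Real.cosh κ + Real.sinh κ * ((Real.sqrt R - Real.cosh κ) / Real.sinh κ) = Real.sqrt R := by
  have : 0 < Real.sinh κ := Real.sinh_pos_iff.2 hκ
  field_simp
  ring

/-! ### real values -/

private theorem DataF_rho_real (hκ : 0 < κ) {f : ℝ} (hf : 0 < f) :
    rho e κ (f : ℂ) = (((Ck e κ * f) ^ (-(1 / e)) : ℝ) : ℂ) := by
  have hC := Ck_pos (e := e) hκ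
  unfold rho
  rw [← ofReal_mul, ← ofReal_neg, ← Complex.ofReal_cpow (mul_pos hC hf).le]

private theorem DataF_a_real (he : 0 < e) (hκ : 0 < κ) {C g : ℝ} (hg : 0 < g) {f : ℝ}
    (hf : 1 - f = Real.exp (-C) * g) :
    aF e κ (C : ℂ) (g : ℂ) = (((Ck e κ * (1 - f)) ^ (1 / e) : ℝ) : ℂ) := by
  have hC := Ck_pos (e := e) hκ
  have h1 := Real.exp_pos (-C)
  unfold aF
  rw [hf, ← Complex.ofReal_cpow hg.le, Real.mul_rpow hC.le (mul_pos h1 hg).le,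
    Real.mul_rpow h1.le hg.le, ← Real.exp_mul]
  have h2 : -C * (1 / e) = -(C / e) := by ring
  rw [h2]
  push_cast
  ring

private theorem DataF_rad0_real (he : 0 < e) (hκ : 0 < κ) {p C g : ℝ} (hg : 0 < g) {f : ℝ}
    (hf : 1 - f = Real.exp (-C) * g) (hf0 : 0 < f)
    (hw : 0 ≤ 1 - ((Ck e κ * f) ^ (-(1 / e))) ^ 2 * (1 - Real.tanh (κ * p) ^ 2)) :
    rad0F e κ (p : ℂ) (C : ℂ) (g : ℂ) =
      ((1 + (1 / (Ck e κ * (1 - f)) ^ (1 / e) +
      2 * ((Ck e κ * f) ^ (-(1 / e)) * (1 - Real.tanh (κ * p) ^ 2) +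
          Real.tanh (κ * p) * Real.sqrt (1 - ((Ck e κ * f) ^ (-(1 / e))) ^ 2 *
            (1 - Real.tanh (κ * p) ^ 2)))) / (Ck e κ * (1 - f)) ^ (1 / e) : ℝ) : ℂ) := by
  have h1 : fF (C : ℂ) (g : ℂ) = (f : ℂ) := by
    unfold fF
    have : f = 1 - Real.exp (-C) * g := by linear_combination -hf
    rw [this]
    push_cast
    rfl
  unfold rad0F
  rw [h1, DataF_rho_real hκ hf0, DataF_tanh_real, DataF_T1_real hw, DataF_a_real he hκ hg hf]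
  push_cast
  rfl

private theorem DataF_rad_real (he : 0 < e) (hκ : 0 < κ) {τ C g : ℝ} (hg : 0 < g) {f : ℝ}
    (hf : 1 - f = Real.exp (-C) * g) (hf0 : 0 < f) :
    radF e κ (τ : ℂ) (C : ℂ) (g : ℂ) = ((1 + (1 / (Ck e κ * (1 - f)) ^ (1 / e) +
      (Ck e κ * f) ^ (-(1 / e)) +
        (1 - ((Real.cosh κ + Real.sinh κ * τ) ^ 2)⁻¹) /
          (Ck e κ * f) ^ (-(1 / e))) / (Ck e κ * (1 - f)) ^ (1 / e) : ℝ) : ℂ) := by
  have h1 : fF (C : ℂ) (g : ℂ) = (f : ℂ) := by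
    unfold fF
    have : f = 1 - Real.exp (-C) * g := by linear_combination -hf
    rw [this]
    push_cast
    rfl
  unfold radF
  rw [h1, DataF_rho_real hκ hf0, DataF_a_real he hκ hg hf, DataF_Qk_real]
  push_cast
  rfl

/-! ### differentiability -/

private theorem DataF_f_diff {C g : ℂ → ℂ} {z : ℂ} (dC : DifferentiableAt ℂ C z)
    (dg : DifferentiableAt ℂ g z) : DifferentiableAt ℂ (fun w => fF (C w) (g w)) z := by
  unfold fF
  exact ((dC.neg.cexp).mul dg).const_sub 1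

private theorem DataF_rho_diff (hκ : 0 < κ) {F : ℂ → ℂ} {z : ℂ}
    (dF : DifferentiableAt ℂ F z) (h : F z ∈ slitPlane) :
    DifferentiableAt ℂ (fun w => rho e κ (F w)) z := by
  unfold rho
  exact (dF.const_mul _).cpow_const (DataF_mul_slit (Ck_pos hκ) h)

private theorem DataF_rho_ne (hκ : 0 < κ) {F : ℂ} (h : F ∈ slitPlane) : rho e κ F ≠ 0 := by
  unfold rho
  have h1 := slitPlane_ne_zero (DataF_mul_slit (Ck_pos (e := e) hκ) h)
  rw [Complex.cpow_def_of_ne_zero h1]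
  exact exp_ne_zero _

private theorem DataF_a_diff {C g : ℂ → ℂ} {z : ℂ} (dC : DifferentiableAt ℂ C z)
    (dg : DifferentiableAt ℂ g z) (h : g z ∈ slitPlane) :
    DifferentiableAt ℂ (fun w => aF e κ (C w) (g w)) z := by
  unfold aF
  exact (((dC.div_const _).neg.cexp).const_mul _).mul (dg.cpow_const h)

private theorem DataF_a_ne (hκ : 0 < κ) {C g : ℂ} (h : g ∈ slitPlane) : aF e κ C g ≠ 0 := by
  unfold aF
  have h1 : ((Ck e κ ^ (1 / e) : ℝ) : ℂ) ≠ 0 := by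
    rw [Ne, ofReal_eq_zero]
    exact (Real.rpow_pos_of_pos (Ck_pos hκ) _).ne'
  have h2 : g ^ ((1 / e : ℝ) : ℂ) ≠ 0 := by
    rw [Complex.cpow_def_of_ne_zero (slitPlane_ne_zero h)]
    exact exp_ne_zero _
  exact mul_ne_zero (mul_ne_zero h1 (exp_ne_zero _)) h2

private theorem DataF_step0_diff (hκ : 0 < κ) {p C g : ℂ → ℂ} {z : ℂ}
    (dp : DifferentiableAt ℂ p z) (dC : DifferentiableAt ℂ C z) (dg : DifferentiableAt ℂ g z)
    (hp : |(p z).im| < Real.pi / (2 * κ)) (h : fF (C z) (g z) ∈ slitPlane)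
    (hg : g z ∈ slitPlane)
    (hw : 1 - rho e κ (fF (C z) (g z)) ^ 2 * (1 - tanh (κ * p z) ^ 2) ∈ slitPlane)
    (hr : rad0F e κ (p z) (C z) (g z) ∈ slitPlane) :
    DifferentiableAt ℂ (fun w => step0F e κ (p w) (C w) (g w)) z := by
  have dρ : DifferentiableAt ℂ (fun w => rho e κ (fF (C w) (g w))) z :=
    DataF_rho_diff hκ (DataF_f_diff dC dg) h
  have dT := DataF_T1_diff (DataF_tanh_diff hκ dp hp) dρ hw
  have dA : DifferentiableAt ℂ (fun w => aF e κ (C w) (g w)) z := DataF_a_diff dC dg hg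
  have hA : aF e κ (C z) (g z) ≠ 0 := DataF_a_ne hκ hg
  have d1 : DifferentiableAt ℂ (fun w => 1 / aF e κ (C w) (g w)) z :=
    (differentiableAt_const _).div dA hA
  have dR : DifferentiableAt ℂ (fun w => rad0F e κ (p w) (C w) (g w)) z := by
    unfold rad0F
    exact ((d1.add (dT.const_mul 2)).div dA hA).const_add 1
  unfold step0F
  exact ((dR.cpow_const hr).sub_const _).div_const _

private theorem DataF_step_diff (hκ : 0 < κ) {τ C g : ℂ → ℂ} {z : ℂ}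
    (dτ : DifferentiableAt ℂ τ z) (dC : DifferentiableAt ℂ C z) (dg : DifferentiableAt ℂ g z)
    (h0 : 0 < (τ z).re) (h : fF (C z) (g z) ∈ slitPlane) (hg : g z ∈ slitPlane)
    (hr : radF e κ (τ z) (C z) (g z) ∈ slitPlane) :
    DifferentiableAt ℂ (fun w => stepF e κ (τ w) (C w) (g w)) z := by
  have dρ : DifferentiableAt ℂ (fun w => rho e κ (fF (C w) (g w))) z :=
    DataF_rho_diff hκ (DataF_f_diff dC dg) h
  have hρ : rho e κ (fF (C z) (g z)) ≠ 0 := DataF_rho_ne hκ h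
  have dA : DifferentiableAt ℂ (fun w => aF e κ (C w) (g w)) z := DataF_a_diff dC dg hg
  have hA : aF e κ (C z) (g z) ≠ 0 := DataF_a_ne hκ hg
  have d1 : DifferentiableAt ℂ (fun w => 1 / aF e κ (C w) (g w)) z :=
    (differentiableAt_const _).div dA hA
  have hQne : Qk κ (τ z) ^ 2 ≠ 0 := pow_ne_zero 2 (slitPlane_ne_zero (DataF_Qk_slit hκ h0))
  have dQ : DifferentiableAt ℂ (fun w => Qk κ (τ w)) z := DataF_Qk_diff dτ
  have dQi : DifferentiableAt ℂ (fun w => 1 - (Qk κ (τ w) ^ 2)⁻¹) z :=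
    ((dQ.pow 2).inv hQne).const_sub 1
  have dR : DifferentiableAt ℂ (fun w => radF e κ (τ w) (C w) (g w)) z := by
    unfold radF
    exact (((d1.add dρ).add (dQi.div dρ hρ)).div dA hA).const_add 1
  unfold stepF
  exact ((dR.cpow_const hr).sub_const _).div_const _

private theorem DataF_law_diff (hκ : 0 < κ) {C v r τ F : ℂ → ℂ} {z : ℂ}
    (dC : DifferentiableAt ℂ C z) (dv : DifferentiableAt ℂ v z) (dr : DifferentiableAt ℂ r z)
    (dτ : DifferentiableAt ℂ τ z) (dF : DifferentiableAt ℂ F z) (h : 0 < (τ z).re)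
    (hr : r z ≠ 0) :
    DifferentiableAt ℂ (fun w => lawF e κ (C w) (v w) (r w) (τ w) (F w)) z := by
  unfold lawF
  exact (dv.sub ((dC.cexp.mul ((DataF_Qk_diff dτ).cpow_const (DataF_Qk_slit hκ h))).mul dF)).div
    dr hr

/-- Positions stay in `Ω`. -/
private theorem DataF_pos_mem (W : RDataF e κ) {p : ℂ} (hp : p ∈ W.D) {x : ℕ → ℂ}
    (hx : ∀ n, ‖x n‖ ≤ 1) (n : ℕ) : posF e κ W.C0 W.v0 W.r0 W.C W.v W.r p x n ∈ W.Ω p n := by
  induction n with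
  | zero => exact W.inv0 p hp (x 0) (hx 0)
  | succ n ih => exact W.inv p hp n _ ih (x (n + 1)) (hx (n + 1))

/-- Self-map: `close0`, `close`. -/
private theorem DataF_maps (W : RDataF e κ) {p : ℂ} (hp : p ∈ W.D) {x : ℕ → ℂ}
    (hx : ∀ n, ‖x n‖ ≤ 1) (n : ℕ) :
    ‖PhiF e κ W.C0 W.v0 W.r0 W.C W.v W.r W.M0 W.M p x n‖ ≤ W.θ := by
  cases n with
  | zero =>
    exact W.close0 p hp (x 0) (x 1) (hx 0) (hx 1)
      (posF e κ W.C0 W.v0 W.r0 W.C W.v W.r p x 0) rfl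
  | succ n =>
    exact W.close p hp n _ (DataF_pos_mem W hp hx n) (x (n + 1)) (x (n + 2)) (hx _) (hx _)
      (posF e κ W.C0 W.v0 W.r0 W.C W.v W.r p x (n + 1)) rfl

private theorem DataF_hol (he : 1 < e) (hκ : 0 < κ) (W : RDataF e κ) :
    HolFamilyR W.D (fun _ _ => 1) (PhiF e κ W.C0 W.v0 W.r0 W.C W.v W.r W.M0 W.M) := by
  intro O t x hO ht hmaps hx hR
  have he0 : 0 < e := by linarith
  -- positions are differentiable
  have hpos : ∀ n, ∀ z ∈ O, DifferentiableAt ℂ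
      (fun w => posF e κ W.C0 W.v0 W.r0 W.C W.v W.r (t w) (x w) n) z := by
    intro n
    induction n with
    | zero =>
      intro z hz
      have hO' := hO.mem_nhds hz
      have dt : DifferentiableAt ℂ t z := ht.differentiableAt hO'
      have dx : DifferentiableAt ℂ (fun w => x w 0) z := (hx 0).differentiableAt hO'
      have hp := hmaps hz
      have hD := W.isOpen_D.mem_nhds hp
      have dC : DifferentiableAt ℂ (fun w => W.C0 (t w)) z :=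
        DifferentiableAt.comp (g := W.C0) z (W.C0_diff.differentiableAt hD) dt
      have dv : DifferentiableAt ℂ (fun w => W.v0 (t w)) z :=
        DifferentiableAt.comp (g := W.v0) z (W.v0_diff.differentiableAt hD) dt
      have dr : DifferentiableAt ℂ (fun w => W.r0 (t w)) z :=
        DifferentiableAt.comp (g := W.r0) z (W.r0_diff.differentiableAt hD) dt
      have hx0 := hR z hz 0
      exact DataF_step0_diff hκ dt dC (dv.sub (dr.mul dx)) (W.D_strip _ hp)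
        (W.F0_slit _ hp _ hx0) (W.g0_slit _ hp _ hx0) (W.w0_slit _ hp _ hx0)
        (W.rad0_slit _ hp _ hx0)
    | succ n ih =>
      intro z hz
      have hO' := hO.mem_nhds hz
      have dt : DifferentiableAt ℂ t z := ht.differentiableAt hO'
      have dx : DifferentiableAt ℂ (fun w => x w (n + 1)) z := (hx _).differentiableAt hO'
      have hp := hmaps hz
      have hm := DataF_pos_mem W hp (hR z hz) n
      have hxn := hR z hz (n + 1)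
      have dr : DifferentiableAt ℂ
          (fun w => W.r (t w) n (posF e κ W.C0 W.v0 W.r0 W.C W.v W.r (t w) (x w) n)) z :=
        DataF_comp_diff (g := W.r) (W.r_diff _ hp n _ hm) dt (ih z hz)
      have dv : DifferentiableAt ℂ
          (fun w => W.v (t w) n (posF e κ W.C0 W.v0 W.r0 W.C W.v W.r (t w) (x w) n)) z :=
        DataF_comp_diff (g := W.v) (W.v_diff _ hp n _ hm) dt (ih z hz)
      have dC : DifferentiableAt ℂ
          (fun w => W.C (t w) n (posF e κ W.C0 W.v0 W.r0 W.C W.v W.r (t w) (x w) n)) z :=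
        DataF_comp_diff (g := W.C) (W.C_diff _ hp n _ hm) dt (ih z hz)
      exact DataF_step_diff hκ (ih z hz) dC (dv.sub (dr.mul dx)) (W.Ω_re _ hp n _ hm)
        (W.F_slit _ hp n _ hm _ hxn) (W.g_slit _ hp n _ hm _ hxn) (W.rad_slit _ hp n _ hm _ hxn)
  intro n z hz
  apply DifferentiableAt.differentiableWithinAt
  have hO' := hO.mem_nhds hz
  have dt : DifferentiableAt ℂ t z := ht.differentiableAt hO'
  have dx : ∀ k, DifferentiableAt ℂ (fun w => x w k) z := fun k => (hx k).differentiableAt hO'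
  have hp := hmaps hz
  have hmem := DataF_pos_mem W hp (hR z hz)
  have dP := fun k => hpos k z hz
  have dr : ∀ k, DifferentiableAt ℂ
      (fun w => W.r (t w) k (posF e κ W.C0 W.v0 W.r0 W.C W.v W.r (t w) (x w) k)) z := fun k =>
    DataF_comp_diff (g := W.r) (W.r_diff _ hp k _ (hmem k)) dt (dP k)
  have dv : ∀ k, DifferentiableAt ℂ
      (fun w => W.v (t w) k (posF e κ W.C0 W.v0 W.r0 W.C W.v W.r (t w) (x w) k)) z := fun k =>
    DataF_comp_diff (g := W.v) (W.v_diff _ hp k _ (hmem k)) dt (dP k)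
  have dC : ∀ k, DifferentiableAt ℂ
      (fun w => W.C (t w) k (posF e κ W.C0 W.v0 W.r0 W.C W.v W.r (t w) (x w) k)) z := fun k =>
    DataF_comp_diff (g := W.C) (W.C_diff _ hp k _ (hmem k)) dt (dP k)
  have dM : ∀ k, DifferentiableAt ℂ
      (fun w => W.M (t w) k (posF e κ W.C0 W.v0 W.r0 W.C W.v W.r (t w) (x w) k)) z := fun k =>
    DataF_comp_diff (g := W.M) (W.M_diff _ hp k _ (hmem k)) dt (dP k)
  have dval : ∀ k, DifferentiableAt ℂ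
      (fun w => valF e κ W.C0 W.v0 W.r0 W.C W.v W.r (t w) (x w) k) z := fun k =>
    DataF_f_diff (dC k) ((dv k).sub ((dr k).mul (dx (k + 1))))
  cases n with
  | zero =>
    have hD := W.isOpen_D.mem_nhds hp
    have dC0 : DifferentiableAt ℂ (fun w => W.C0 (t w)) z :=
      DifferentiableAt.comp (g := W.C0) z (W.C0_diff.differentiableAt hD) dt
    have dv0 : DifferentiableAt ℂ (fun w => W.v0 (t w)) z :=
      DifferentiableAt.comp (g := W.v0) z (W.v0_diff.differentiableAt hD) dt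
    have dr0 : DifferentiableAt ℂ (fun w => W.r0 (t w)) z :=
      DifferentiableAt.comp (g := W.r0) z (W.r0_diff.differentiableAt hD) dt
    have dM0 : DifferentiableAt ℂ (fun w => W.M0 (t w)) z :=
      DifferentiableAt.comp (g := W.M0) z (W.M0_diff.differentiableAt hD) dt
    exact (dx 0).sub (dM0.mul ((dx 0).sub
      (DataF_law_diff hκ dC0 dv0 dr0 (dP 0) (dval 0) (W.Ω_re _ hp 0 _ (hmem 0))
        (W.r0_ne _ hp))))
  | succ n =>
    exact (dx (n + 1)).sub ((dM n).mul ((dx (n + 1)).sub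
      (DataF_law_diff hκ (dC n) (dv n) (dr n) (dP (n + 1)) (dval (n + 1))
        (W.Ω_re _ hp (n + 1) _ (hmem (n + 1))) (W.r_ne _ hp n _ (hmem n)))))

private theorem DataF_Q_mem (hκ : 0 < κ) {z : ℂ} (h : 0 < z.re) (hz : z.im = 0) :
    Qk κ z ^ (-(e : ℂ)) ∈ (Complex.ofRealHom : ℝ →+* ℂ).fieldRange := by
  have h1 : 0 < Real.cosh κ + Real.sinh κ * z.re := by
    have := Real.cosh_pos κ
    have := mul_pos (Real.sinh_pos_iff.2 hκ) h
    linarith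
  rw [DataF_eq_re hz, DataF_Qk_real, ← ofReal_neg, ← Complex.ofReal_cpow h1.le]
  exact ⟨_, rfl⟩

private theorem DataF_law_mem (hκ : 0 < κ) {C v r z F : ℂ}
    (hC : C ∈ (Complex.ofRealHom : ℝ →+* ℂ).fieldRange)
    (hv : v ∈ (Complex.ofRealHom : ℝ →+* ℂ).fieldRange)
    (hr : r ∈ (Complex.ofRealHom : ℝ →+* ℂ).fieldRange) (h : 0 < z.re) (hz : z.im = 0)
    (hF : F ∈ (Complex.ofRealHom : ℝ →+* ℂ).fieldRange) :
    lawF e κ C v r z F ∈ (Complex.ofRealHom : ℝ →+* ℂ).fieldRange := by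
  unfold lawF
  exact div_mem (sub_mem hv (mul_mem (mul_mem (DataF_exp_mem hC) (DataF_Q_mem hκ h hz)) hF)) hr

private theorem DataF_f_mem {C g : ℂ} (hC : C ∈ (Complex.ofRealHom : ℝ →+* ℂ).fieldRange)
    (hg : g ∈ (Complex.ofRealHom : ℝ →+* ℂ).fieldRange) :
    fF C g ∈ (Complex.ofRealHom : ℝ →+* ℂ).fieldRange := by
  unfold fF
  exact sub_mem (one_mem _) (mul_mem (DataF_exp_mem (neg_mem hC)) hg)

/-- real data of a node -/
private theorem DataF_real_node {C g : ℂ} (hC : C.im = 0) (hg : g.im = 0)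
    (hgs : g ∈ slitPlane) (hF : fF C g ∈ slitPlane) :
    ∃ c γ f : ℝ, C = (c : ℂ) ∧ g = (γ : ℂ) ∧ fF C g = (f : ℂ) ∧ f = (fF C g).re ∧ 0 < γ ∧ 0 < f ∧
      f < 1 ∧ 1 - f = Real.exp (-c) * γ := by
  have h1 := DataF_eq_re hC
  have h2 := DataF_eq_re hg
  have h3 : 0 < g.re := DataF_real_pos hgs hg
  have h4 : fF C g = ((1 - Real.exp (-C.re) * g.re : ℝ) : ℂ) := by
    unfold fF
    rw [h1, h2]
    push_cast
    simp
  have h5 : 0 < 1 - Real.exp (-C.re) * g.re := by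
    rw [h4] at hF
    exact DataF_ofReal_pos hF
  have h6 := mul_pos (Real.exp_pos (-C.re)) h3
  refine ⟨C.re, g.re, 1 - Real.exp (-C.re) * g.re, h1, h2, h4, ?_, h3, h5, ?_, ?_⟩
  · rw [h4, ofReal_re]
  · linarith
  · ring

private theorem DataF_node0 (he : 0 < e) (hκ : 0 < κ) (W : RDataF e κ) {p : ℝ}
    (hp : (p : ℂ) ∈ W.D) {x : ℂ} (hx : ‖x‖ ≤ 1) (hr : x.im = 0) {f : ℝ}
    (hf : f = (fF (W.C0 p) (W.v0 p - W.r0 p * x)).re) :
    fF (W.C0 p) (W.v0 p - W.r0 p * x) = (f : ℂ) ∧ 0 < f ∧ f < 1 ∧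
    (Ck e κ * f) ^ (-(1 / e)) < 1 ∧
    0 ≤ 1 - ((Ck e κ * f) ^ (-(1 / e))) ^ 2 * (1 - Real.tanh (κ * p) ^ 2) ∧
    ∃ R : ℝ, 0 < R ∧ rad0F e κ p (W.C0 p) (W.v0 p - W.r0 p * x) = (R : ℂ) ∧
      R = 1 + (1 / (Ck e κ * (1 - f)) ^ (1 / e) +
      2 * ((Ck e κ * f) ^ (-(1 / e)) * (1 - Real.tanh (κ * p) ^ 2) +
          Real.tanh (κ * p) * Real.sqrt (1 - ((Ck e κ * f) ^ (-(1 / e))) ^ 2 *
            (1 - Real.tanh (κ * p) ^ 2)))) / (Ck e κ * (1 - f)) ^ (1 / e) := by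
  have hgi : (W.v0 p - W.r0 p * x).im = 0 := by
    rw [sub_im, mul_im, hr, W.r0_real p hp, W.v0_real p hp]
    ring
  have hCi := W.C0_real p hp
  have hw := W.w0_slit p hp x hx
  have hrad := W.rad0_slit p hp x hx
  have hρ := W.rho_lt p hp x hx
  have hF := W.F0_slit p hp x hx
  have hgs := W.g0_slit p hp x hx
  obtain ⟨c, γ, f', e1, e2, e3, e4, hγ, hf0, hf1, e5⟩ := DataF_real_node hCi hgi hgs hF
  have hff : f = f' := by rw [hf, e4]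
  subst hff
  rw [e3, DataF_rho_real hκ hf0] at hρ hw
  have hρ0 : 0 < (Ck e κ * f) ^ (-(1 / e)) :=
    Real.rpow_pos_of_pos (mul_pos (Ck_pos hκ) hf0) _
  have hρ1 : (Ck e κ * f) ^ (-(1 / e)) < 1 := by
    rw [Complex.norm_real, Real.norm_of_nonneg hρ0.le] at hρ
    exact hρ
  have hw' : 0 ≤ 1 - ((Ck e κ * f) ^ (-(1 / e))) ^ 2 * (1 - Real.tanh (κ * p) ^ 2) := by
    apply le_of_lt
    apply DataF_ofReal_pos
    rw [DataF_tanh_real] at hw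
    push_cast
    push_cast at hw
    exact hw
  have h2 := DataF_rad0_real he hκ (p := p) hγ e5 hf0 hw'
  rw [← e1, ← e2] at h2
  refine ⟨e3, hf0, hf1, hρ1, hw', _, ?_, h2, rfl⟩
  rw [h2] at hrad
  exact DataF_ofReal_pos hrad

private theorem DataF_link (he : 0 < e) (hκ : 0 < κ) (W : RDataF e κ) {p : ℝ}
    (hp : (p : ℂ) ∈ W.D) {n : ℕ} {τ : ℝ}
    (hτ : (τ : ℂ) ∈ W.Ω p n) {x : ℂ} (hx : ‖x‖ ≤ 1) (hr : x.im = 0) {f : ℝ}
    (hf : f = (fF (W.C p n τ) (W.v p n τ - W.r p n τ * x)).re) :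
    fF (W.C p n τ) (W.v p n τ - W.r p n τ * x) = (f : ℂ) ∧ 0 < f ∧ f < 1 ∧
    ∃ R : ℝ, 0 < R ∧ radF e κ τ (W.C p n τ) (W.v p n τ - W.r p n τ * x) = (R : ℂ) ∧
      R = 1 + (1 / (Ck e κ * (1 - f)) ^ (1 / e) +
      (Ck e κ * f) ^ (-(1 / e)) +
        (1 - ((Real.cosh κ + Real.sinh κ * τ) ^ 2)⁻¹) / (Ck e κ * f) ^ (-(1 / e))) /
          (Ck e κ * (1 - f)) ^ (1 / e) := by
  have hgi : (W.v p n τ - W.r p n τ * x).im = 0 := by
    rw [sub_im, mul_im, hr, W.r_real p hp n τ hτ, W.v_real p hp n τ hτ]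
    ring
  have hCi := W.C_real p hp n τ hτ
  have hrad := W.rad_slit p hp n _ hτ x hx
  have hF := W.F_slit p hp n _ hτ x hx
  have hgs := W.g_slit p hp n _ hτ x hx
  obtain ⟨c, γ, f', e1, e2, e3, e4, hγ, hf0, hf1, e5⟩ := DataF_real_node hCi hgi hgs hF
  have hff : f = f' := by rw [hf, e4]
  subst hff
  have h2 := DataF_rad_real he hκ (τ := τ) hγ e5 hf0
  rw [← e1, ← e2] at h2
  refine ⟨e3, hf0, hf1, _, ?_, h2, rfl⟩
  rw [h2] at hrad
  exact DataF_ofReal_pos hrad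

private theorem DataF_pos_real (he : 0 < e) (hκ : 0 < κ) (W : RDataF e κ) {p : ℝ}
    (hp : (p : ℂ) ∈ W.D) {x : ℕ → ℂ} (hx : ∀ n, ‖x n‖ ≤ 1) (hr : ∀ n, (x n).im = 0) (n : ℕ) :
    (posF e κ W.C0 W.v0 W.r0 W.C W.v W.r p x n).im = 0 := by
  induction n with
  | zero =>
    obtain ⟨-, -, -, -, -, R, hR, h1, -⟩ := DataF_node0 he hκ W hp (hx 0) (hr 0) rfl
    show (step0F e κ p (W.C0 p) (W.v0 p - W.r0 p * x 0)).im = 0
    unfold step0F
    rw [h1, DataF_step_real hR, ofReal_im]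
  | succ n ih =>
    have hm := DataF_pos_mem W hp hx n
    show (stepF e κ (posF e κ W.C0 W.v0 W.r0 W.C W.v W.r p x n)
      (W.C p n (posF e κ W.C0 W.v0 W.r0 W.C W.v W.r p x n))
      (W.v p n (posF e κ W.C0 W.v0 W.r0 W.C W.v W.r p x n) -
        W.r p n (posF e κ W.C0 W.v0 W.r0 W.C W.v W.r p x n) * x (n + 1))).im = 0
    have h0 := DataF_eq_re ih
    generalize posF e κ W.C0 W.v0 W.r0 W.C W.v W.r p x n = τ at *
    generalize τ.re = τ' at *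
    subst h0
    obtain ⟨-, -, -, R, hR, h1, -⟩ := DataF_link he hκ W hp hm (hx (n + 1)) (hr (n + 1)) rfl
    unfold stepF
    rw [h1, DataF_step_real hR, ofReal_im]

/-- Reality for real `p` and real `x`. -/
private theorem DataF_real (he : 1 < e) (hκ : 0 < κ) (W : RDataF e κ) {p : ℝ}
    (hp : (p : ℂ) ∈ W.D)
    {x : ℕ → ℂ} (hx : ∀ n, ‖x n‖ ≤ 1) (hr : ∀ n, (x n).im = 0) (n : ℕ) :
    (PhiF e κ W.C0 W.v0 W.r0 W.C W.v W.r W.M0 W.M p x n).im = 0 := by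
  have he0 : 0 < e := by linarith
  have hP := DataF_pos_real he0 hκ W hp hx hr
  have hmem := DataF_pos_mem W hp hx
  have hx' : ∀ n, x n ∈ (Complex.ofRealHom : ℝ →+* ℂ).fieldRange := fun n =>
    DataF_mem_iff.2 (hr n)
  have hr' : ∀ n, W.r p n (posF e κ W.C0 W.v0 W.r0 W.C W.v W.r p x n) ∈
      (Complex.ofRealHom : ℝ →+* ℂ).fieldRange := by
    intro n
    have h1 := hmem n
    rw [DataF_eq_re (hP n)] at h1 ⊢
    exact DataF_mem_iff.2 (W.r_real p hp n _ h1)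
  have hv' : ∀ n, W.v p n (posF e κ W.C0 W.v0 W.r0 W.C W.v W.r p x n) ∈
      (Complex.ofRealHom : ℝ →+* ℂ).fieldRange := by
    intro n
    have h1 := hmem n
    rw [DataF_eq_re (hP n)] at h1 ⊢
    exact DataF_mem_iff.2 (W.v_real p hp n _ h1)
  have hC' : ∀ n, W.C p n (posF e κ W.C0 W.v0 W.r0 W.C W.v W.r p x n) ∈
      (Complex.ofRealHom : ℝ →+* ℂ).fieldRange := by
    intro n
    have h1 := hmem n
    rw [DataF_eq_re (hP n)] at h1 ⊢
    exact DataF_mem_iff.2 (W.C_real p hp n _ h1)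
  have hM' : ∀ n, W.M p n (posF e κ W.C0 W.v0 W.r0 W.C W.v W.r p x n) ∈
      (Complex.ofRealHom : ℝ →+* ℂ).fieldRange := by
    intro n
    have h1 := hmem n
    rw [DataF_eq_re (hP n)] at h1 ⊢
    exact DataF_mem_iff.2 (W.M_real p hp n _ h1)
  have hval : ∀ n, valF e κ W.C0 W.v0 W.r0 W.C W.v W.r p x n ∈
      (Complex.ofRealHom : ℝ →+* ℂ).fieldRange := fun n =>
    DataF_f_mem (hC' n) (sub_mem (hv' n) (mul_mem (hr' n) (hx' (n + 1))))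
  apply DataF_mem_iff.1
  cases n with
  | zero =>
    have h1 : W.r0 p ∈ (Complex.ofRealHom : ℝ →+* ℂ).fieldRange :=
      DataF_mem_iff.2 (W.r0_real p hp)
    have h2 : W.M0 p ∈ (Complex.ofRealHom : ℝ →+* ℂ).fieldRange :=
      DataF_mem_iff.2 (W.M0_real p hp)
    have h3 : W.C0 p ∈ (Complex.ofRealHom : ℝ →+* ℂ).fieldRange :=
      DataF_mem_iff.2 (W.C0_real p hp)
    have h4 : W.v0 p ∈ (Complex.ofRealHom : ℝ →+* ℂ).fieldRange :=
      DataF_mem_iff.2 (W.v0_real p hp)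
    exact sub_mem (hx' 0) (mul_mem h2 (sub_mem (hx' 0)
      (DataF_law_mem hκ h3 h4 h1 (W.Ω_re p hp 0 _ (hmem 0)) (hP 0) (hval 0))))
  | succ n =>
    exact sub_mem (hx' (n + 1)) (mul_mem (hM' n) (sub_mem (hx' (n + 1))
      (DataF_law_mem hκ (hC' n) (hv' n) (hr' n) (W.Ω_re p hp (n + 1) _ (hmem (n + 1)))
        (hP (n + 1)) (hval (n + 1)))))

/-- `f (n+1)` for a real sequence. -/
private noncomputable def DataF_fseq (C0 v0 r0 : ℂ → ℂ) (C v r : ℂ → ℕ → ℂ → ℂ) (e κ : ℝ) (p : ℝ)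
    (x : ℕ → ℂ) : ℕ → ℝ
  | 0 => (fF (C0 p) (v0 p - r0 p * x 0)).re
  | n + 1 => (valF e κ C0 v0 r0 C v r p x n).re

/-- `Q (n+1)` for a real sequence. -/
private noncomputable def DataF_Qseq (C0 v0 r0 : ℂ → ℂ) (C v r : ℂ → ℕ → ℂ → ℂ) (e κ : ℝ) (p : ℝ)
    (x : ℕ → ℂ) (n : ℕ) : ℝ :=
  (Qk κ (posF e κ C0 v0 r0 C v r p x n)).re

private theorem DataF_law_real {C v r x F' : ℂ} {q : ℝ} {f f' : ℝ} (hr : r ≠ 0)
    (hf : fF C (v - r * x) = (f : ℂ)) (hf' : F' = (f' : ℂ)) {Q : ℂ} (hQ : Q = (q : ℂ))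
    (h : x = (v - exp C * Q * F') / r) : 1 - f = f' * q := by
  have h1 : v - r * x = exp C * Q * F' := by
    rw [eq_div_iff hr] at h
    linear_combination -h
  have h2 : exp (-C) * exp C = 1 := by
    rw [← Complex.exp_add]; simp
  have h3 : ((1 - f : ℝ) : ℂ) = ((f' * q : ℝ) : ℂ) := by
    unfold fF at hf
    rw [h1] at hf
    push_cast
    rw [← hf, ← hf', ← hQ]
    linear_combination (Q * F') * h2
  exact_mod_cast h3

/-- The hypotheses of `orbit_of_f`. -/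
private theorem DataF_real_hyps (he : 1 < e) (hκ : 0 < κ) (W : RDataF e κ) {p : ℝ}
    (hp : (p : ℂ) ∈ W.D)
    {x : ℕ → ℂ} (hx : ∀ n, ‖x n‖ ≤ 1) (hr : ∀ n, (x n).im = 0)
    (hfix : ∀ n, x n = PhiF e κ W.C0 W.v0 W.r0 W.C W.v W.r W.M0 W.M p x n) :
    ∃ fs Qs : ℕ → ℝ, fs = DataF_fseq W.C0 W.v0 W.r0 W.C W.v W.r e κ p x ∧
    Qs = DataF_Qseq W.C0 W.v0 W.r0 W.C W.v W.r e κ p x ∧
    (∀ n, 0 < fs n) ∧ (∀ n, fs n < 1) ∧ (∀ n, 0 < Qs n) ∧
    ((Ck e κ * fs 0) ^ (-(1 / e)) < 1) ∧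
    (Qs 0 ^ 2 = 1 + (1 / (Ck e κ * (1 - fs 0)) ^ (1 / e) +
      2 * ((Ck e κ * fs 0) ^ (-(1 / e)) * (1 - Real.tanh (κ * p) ^ 2) +
          Real.tanh (κ * p) * Real.sqrt (1 - ((Ck e κ * fs 0) ^ (-(1 / e))) ^ 2 *
            (1 - Real.tanh (κ * p) ^ 2)))) / (Ck e κ * (1 - fs 0)) ^ (1 / e)) ∧
    (∀ n, Qs (n + 1) ^ 2 = 1 + (1 / (Ck e κ * (1 - fs (n + 1))) ^ (1 / e) +
      (Ck e κ * fs (n + 1)) ^ (-(1 / e)) +
        (1 - (Qs n ^ 2)⁻¹) / (Ck e κ * fs (n + 1)) ^ (-(1 / e))) /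
          (Ck e κ * (1 - fs (n + 1))) ^ (1 / e)) ∧
    (∀ n, 1 - fs n = fs (n + 1) * Qs n ^ (-e)) ∧
    Tendsto Qs atTop (𝓝 (Real.exp κ)) := by
  have he0 : 0 < e := by linarith
  have hP := DataF_pos_real he0 hκ W hp hx hr
  have hmem := DataF_pos_mem W hp hx
  obtain ⟨τ, hτ⟩ : ∃ τ : ℕ → ℝ, ∀ n,
      posF e κ W.C0 W.v0 W.r0 W.C W.v W.r p x n = ((τ n : ℝ) : ℂ) :=
    ⟨fun n => (posF e κ W.C0 W.v0 W.r0 W.C W.v W.r p x n).re, fun n => DataF_eq_re (hP n)⟩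
  have hτΩ : ∀ n, ((τ n : ℝ) : ℂ) ∈ W.Ω p n := fun n => by rw [← hτ]; exact hmem n
  have hτ0 : ∀ n, 0 < τ n := fun n => by
    have := W.Ω_re p hp n _ (hτΩ n)
    simpa using this
  have hfs0 : DataF_fseq W.C0 W.v0 W.r0 W.C W.v W.r e κ p x 0 =
      (fF (W.C0 p) (W.v0 p - W.r0 p * x 0)).re := rfl
  have hvalτ : ∀ n, valF e κ W.C0 W.v0 W.r0 W.C W.v W.r p x n =
      fF (W.C p n (τ n)) (W.v p n (τ n) - W.r p n (τ n) * x (n + 1)) := fun n => by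
    rw [← hτ n]; rfl
  have hfs1 : ∀ n, DataF_fseq W.C0 W.v0 W.r0 W.C W.v W.r e κ p x (n + 1) =
      (fF (W.C p n (τ n)) (W.v p n (τ n) - W.r p n (τ n) * x (n + 1))).re := fun n => by
    rw [← hvalτ n]; rfl
  have hQs : ∀ n, DataF_Qseq W.C0 W.v0 W.r0 W.C W.v W.r e κ p x n =
      Real.cosh κ + Real.sinh κ * τ n := by
    intro n
    unfold DataF_Qseq
    rw [hτ, DataF_Qk_real, ofReal_re]
  have hQpos : ∀ n, 0 < DataF_Qseq W.C0 W.v0 W.r0 W.C W.v W.r e κ p x n := by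
    intro n
    rw [hQs]
    have := Real.cosh_pos κ
    have := mul_pos (Real.sinh_pos_iff.2 hκ) (hτ0 n)
    linarith
  obtain ⟨n0a, n0b, n0c, n0d, n0e, R0, hR0, n0f, n0g⟩ :=
    DataF_node0 he0 hκ W hp (hx 0) (hr 0) hfs0
  have hL := fun n => DataF_link he0 hκ W hp (hτΩ n) (hx (n + 1)) (hr (n + 1)) (hfs1 n)
  refine ⟨_, _, rfl, rfl, ?_, ?_, hQpos, n0d, ?_, ?_, ?_, ?_⟩
  · intro n
    cases n with
    | zero => exact n0b
    | succ n => exact (hL n).2.1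
  · intro n
    cases n with
    | zero => exact n0c
    | succ n => exact (hL n).2.2.1
  · have h1 : ((τ 0 : ℝ) : ℂ) = (((Real.sqrt R0 - Real.cosh κ) / Real.sinh κ : ℝ) : ℂ) := by
      rw [← hτ 0, ← DataF_step_real hR0, ← n0f]
      rfl
    have h2 : τ 0 = (Real.sqrt R0 - Real.cosh κ) / Real.sinh κ := by exact_mod_cast h1
    rw [hQs, h2, DataF_Qk_step hκ, Real.sq_sqrt hR0.le]
    exact n0g
  · intro n
    obtain ⟨la, lb, lc, R, hR, lf, lg⟩ := hL n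
    have h1 : ((τ (n + 1) : ℝ) : ℂ) = (((Real.sqrt R - Real.cosh κ) / Real.sinh κ : ℝ) : ℂ) := by
      rw [← hτ (n + 1), ← DataF_step_real hR, ← lf, ← hτ n]
      rfl
    have h2 : τ (n + 1) = (Real.sqrt R - Real.cosh κ) / Real.sinh κ := by exact_mod_cast h1
    rw [hQs (n + 1), h2, DataF_Qk_step hκ, Real.sq_sqrt hR.le, hQs n]
    exact lg
  · intro n
    have hQc : ∀ n, Qk κ (posF e κ W.C0 W.v0 W.r0 W.C W.v W.r p x n) ^ (-(e : ℂ)) =
        ((DataF_Qseq W.C0 W.v0 W.r0 W.C W.v W.r e κ p x n ^ (-e) : ℝ) : ℂ) := by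
      intro n
      have h1 : Qk κ (posF e κ W.C0 W.v0 W.r0 W.C W.v W.r p x n) =
          ((DataF_Qseq W.C0 W.v0 W.r0 W.C W.v W.r e κ p x n : ℝ) : ℂ) := by
        rw [hQs n, hτ n, DataF_Qk_real]
      rw [h1, ← ofReal_neg, ← Complex.ofReal_cpow (hQpos n).le]
    have hval : ∀ n, valF e κ W.C0 W.v0 W.r0 W.C W.v W.r p x n =
        ((DataF_fseq W.C0 W.v0 W.r0 W.C W.v W.r e κ p x (n + 1) : ℝ) : ℂ) := by
      intro n
      rw [hvalτ n]
      exact (hL n).1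
    cases n with
    | zero =>
      have h1 := hfix 0
      have h2 : PhiF e κ W.C0 W.v0 W.r0 W.C W.v W.r W.M0 W.M p x 0 =
        x 0 - W.M0 p * (x 0 - lawF e κ (W.C0 p) (W.v0 p) (W.r0 p)
          (posF e κ W.C0 W.v0 W.r0 W.C W.v W.r p x 0)
          (valF e κ W.C0 W.v0 W.r0 W.C W.v W.r p x 0)) := rfl
      rw [h2] at h1
      have h3 : W.M0 p * (x 0 - lawF e κ (W.C0 p) (W.v0 p) (W.r0 p)
          (posF e κ W.C0 W.v0 W.r0 W.C W.v W.r p x 0)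
          (valF e κ W.C0 W.v0 W.r0 W.C W.v W.r p x 0)) = 0 := by linear_combination h1
      have h4 := (mul_eq_zero.1 h3).resolve_left (W.M0_ne p hp)
      rw [sub_eq_zero] at h4
      exact DataF_law_real (W.r0_ne p hp) n0a (hval 0) (hQc 0) h4
    | succ n =>
      have h1 := hfix (n + 1)
      have h2 : PhiF e κ W.C0 W.v0 W.r0 W.C W.v W.r W.M0 W.M p x (n + 1) =
        x (n + 1) - W.M p n (posF e κ W.C0 W.v0 W.r0 W.C W.v W.r p x n) * (x (n + 1) -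
          lawF e κ (W.C p n (posF e κ W.C0 W.v0 W.r0 W.C W.v W.r p x n))
            (W.v p n (posF e κ W.C0 W.v0 W.r0 W.C W.v W.r p x n))
            (W.r p n (posF e κ W.C0 W.v0 W.r0 W.C W.v W.r p x n))
            (posF e κ W.C0 W.v0 W.r0 W.C W.v W.r p x (n + 1))
            (valF e κ W.C0 W.v0 W.r0 W.C W.v W.r p x (n + 1))) := rfl
      rw [h2] at h1
      have h3 : W.M p n (posF e κ W.C0 W.v0 W.r0 W.C W.v W.r p x n) * (x (n + 1) -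
          lawF e κ (W.C p n (posF e κ W.C0 W.v0 W.r0 W.C W.v W.r p x n))
            (W.v p n (posF e κ W.C0 W.v0 W.r0 W.C W.v W.r p x n))
            (W.r p n (posF e κ W.C0 W.v0 W.r0 W.C W.v W.r p x n))
            (posF e κ W.C0 W.v0 W.r0 W.C W.v W.r p x (n + 1))
            (valF e κ W.C0 W.v0 W.r0 W.C W.v W.r p x (n + 1))) = 0 := by
        linear_combination h1
      have h4 := (mul_eq_zero.1 h3).resolve_left (W.M_ne p hp n _ (hmem n))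
      rw [sub_eq_zero] at h4
      exact DataF_law_real (W.r_ne p hp n _ (hmem n)) (hval n) (hval (n + 1)) (hQc (n + 1)) h4
  · have h1 := W.tend p hp x hx hr
    have h2 : Continuous (fun z : ℂ => (Qk κ z).re) := by
      unfold Qk
      fun_prop
    have h3 := (h2.tendsto 1).comp h1
    have h4 : (Qk κ 1).re = Real.exp κ := by
      unfold Qk
      rw [mul_one, add_re, ofReal_re, ofReal_re, Real.cosh_add_sinh]
    rw [← h4]
    exact h3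

/-- **The interface theorem.**  Same proof as `RDataN.nonempty_seqTrap`. -/
theorem RDataF.nonempty_seqTrap (he : 1 < e) (hκ : 0 < κ) (W : RDataF e κ) :
    Nonempty (SeqTrap e (Real.exp κ)) := by
  have he0 : 0 < e := by linarith
  refine ⟨{
    θ := W.θ
    hθ0 := W.hθ0
    hθ1 := W.hθ1
    D := W.D
    isOpen_D := W.isOpen_D
    R := fun _ _ => 1
    R_pos := fun _ _ _ => one_pos
    R_cont := fun s hs ε hε => Filter.Eventually.of_forall fun t n => by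
      constructor <;> linarith
    Φ := PhiF e κ W.C0 W.v0 W.r0 W.C W.v W.r W.M0 W.M
    maps := fun p hp x hx n => by
      rw [mul_one]
      exact DataF_maps W hp hx n
    hol := DataF_hol he hκ W
    real := fun p hp x hx hr n => DataF_real he hκ W hp hx hr n
    tr := fun p => Real.sinh (κ * p)
    s := fun p x => Ss e κ p (DataF_fseq W.C0 W.v0 W.r0 W.C W.v W.r e κ p x)
      (DataF_Qseq W.C0 W.v0 W.r0 W.C W.v W.r e κ p x)
    orbit := ?_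
    H := fun p x => H0 e κ p (fF (W.C0 p) (W.v0 p - W.r0 p * x 0))
    hol_H := ?_
    H_real := ?_
    η := W.η
    hη := W.hη
    seg := W.seg
    δ := 1
    hδ := one_pos
    odd := fun p _ => by rw [mul_neg, Real.sinh_neg]
    test := W.test }⟩
  · intro p hp x hx hr hfix
    obtain ⟨fs, Qs, hfs, hQs, h1, h2, h3, h4, h5, h6, h7, h8⟩ :=
      DataF_real_hyps he hκ W hp hx hr hfix
    obtain ⟨o1, o2, o3, o4, -⟩ := orbit_of_f he hκ p h1 h2 h3 h4 h5 h6 h7 h8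
    subst hfs
    subst hQs
    exact ⟨rfl, o1, o2, o3, o4⟩
  · intro x hx hR z hz
    apply DifferentiableAt.differentiableWithinAt
    have hD := W.isOpen_D.mem_nhds hz
    have hx0 := hR z hz 0
    have dx : DifferentiableAt ℂ (fun w => x w 0) z := (hx 0).differentiableAt hD
    have dF : DifferentiableAt ℂ (fun w => fF (W.C0 w) (W.v0 w - W.r0 w * x w 0)) z :=
      DataF_f_diff (W.C0_diff.differentiableAt hD)
        ((W.v0_diff.differentiableAt hD).sub ((W.r0_diff.differentiableAt hD).mul dx))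
    have hF0 := W.F0_slit z hz _ hx0
    have dρ : DifferentiableAt ℂ
        (fun w => rho e κ (fF (W.C0 w) (W.v0 w - W.r0 w * x w 0))) z :=
      DataF_rho_diff hκ dF hF0
    have dT := DataF_T1_diff (DataF_tanh_diff hκ differentiableAt_id (W.D_strip z hz)) dρ
      (W.w0_slit z hz _ hx0)
    have dR : DifferentiableAt ℂ
        (fun w => radH e κ w (fF (W.C0 w) (W.v0 w - W.r0 w * x w 0))) z := by
      unfold radH
      exact (((dρ.const_mul 2).mul dT).const_sub 1).add (dρ.pow 2)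
    show DifferentiableAt ℂ (fun w => H0 e κ w (fF (W.C0 w) (W.v0 w - W.r0 w * x w 0))) z
    unfold H0
    exact dF.mul (dR.cpow_const (W.radH_slit z hz _ hx0))
  · intro p hp x hx hr hfix
    obtain ⟨fs, Qs, hfs, hQs, h1, h2, h3, h4, h5, h6, h7, h8⟩ :=
      DataF_real_hyps he hκ W hp hx hr hfix
    obtain ⟨-, -, -, -, o5⟩ := orbit_of_f he hκ p h1 h2 h3 h4 h5 h6 h7 h8
    subst hfs
    subst hQs
    have hfs0 : DataF_fseq W.C0 W.v0 W.r0 W.C W.v W.r e κ p x 0 =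
      (fF (W.C0 p) (W.v0 p - W.r0 p * x 0)).re := rfl
    obtain ⟨n0a, n0b, n0c, n0d, n0e, -⟩ := DataF_node0 he0 hκ W hp (hx 0) (hr 0) hfs0
    have hH := W.radH_slit p hp (x 0) (hx 0)
    show H0 e κ p (fF (W.C0 p) (W.v0 p - W.r0 p * x 0)) = _
    rw [o5, n0a]
    rw [n0a] at hH
    generalize DataF_fseq W.C0 W.v0 W.r0 W.C W.v W.r e κ p x 0 = f at *
    unfold H0
    have e1 : radH e κ (p : ℂ) (f : ℂ) =
        ((1 - 2 * (Ck e κ * f) ^ (-(1 / e)) *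
        ((Ck e κ * f) ^ (-(1 / e)) * (1 - Real.tanh (κ * p) ^ 2) +
          Real.tanh (κ * p) * Real.sqrt (1 - ((Ck e κ * f) ^ (-(1 / e))) ^ 2 *
            (1 - Real.tanh (κ * p) ^ 2))) +
          ((Ck e κ * f) ^ (-(1 / e))) ^ 2 : ℝ) : ℂ) := by
      unfold radH
      rw [DataF_rho_real hκ n0b, DataF_tanh_real, DataF_T1_real n0e]
      push_cast
      rfl
    rw [e1] at hH ⊢
    have hpos := DataF_ofReal_pos hH
    rw [← Complex.ofReal_cpow hpos.le, ← ofReal_mul]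

end Pool.Agent.helper31.EQ.R
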