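import Pool.Agent.helper31.EQ.Y.Defs

/-!
# EQ-R: the ratio position scheme, definitions

`κ > 0`, `m = exp κ`, `F(t) = CC (1+t²)^(-e/2)`.  Slopes `t n = s n`, `E n = √(1 + (t n)²)`,
`T n = t n / E n`.  A link (from the node `n` to the node `n+1`, `n ≥ 1`) has the coordinate
`τ n` with `E (n+1) / E n = cosh κ + sinh κ * τ n =: Q n`.  The node `n` has the value
`f n` (left value over `F`), `1 - f n = f (n+1) (Q n)^(-e)`.  `fT` is the rigid sum, `shf` the rigid step.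
With `ρ (n+1) = (CC f (n+1))^(-1/e)` (the gap divided by `E (n+1)`) and
`a n = (CC (1 - f n))^(1/e)`:
`2 T (n+1) = ρ (n+1) + (1 - (Q n)^(-2)) / ρ (n+1)` and `2 T n = a n ((Q n)² - 1) - 1 / a n`.
The unknown of the link `n` is `η (n+1) = f (n+1) - fT (shf (τ n))`.
-/

namespace Pool.Agent.helper31.EQ.R

open Complex Pool.Agent.helper31.EQ.Y

noncomputable section

/-- `CC e (exp κ)`. -/
def Ck (e κ : ℝ) : ℝ := 2 * Real.cosh (e * κ / 2) * (2 * Real.sinh (κ / 2)) ^ (-e)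

/-- `p ↦ p + 1` in the coordinate `τ = tanh κζ`. -/
def shf (κ : ℝ) (τ : ℂ) : ℂ := (τ + (Real.tanh κ : ℂ)) / (1 + (Real.tanh κ : ℂ) * τ)

/-- `E (n+1) / E n`. -/
def Qk (κ : ℝ) (τ : ℂ) : ℂ := (Real.cosh κ : ℂ) + (Real.sinh κ : ℂ) * τ

/-- `ρ` for the node value `F`. -/
def rho (e κ : ℝ) (F : ℂ) : ℂ := ((Ck e κ : ℂ) * F) ^ (-((1 / e : ℝ) : ℂ))

/-- `a = (CC (1 - F))^(1/e)`, `F = fT (shf τ) + η`, written without a branch problem. -/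
def aR (e κ : ℝ) (τ η : ℂ) : ℂ :=
  (Ck e κ ^ (1 / e) : ℝ) * fT e κ (shf κ (shf κ τ)) ^ ((1 / e : ℝ) : ℂ) / Qk κ (shf κ τ) *
    (1 - η / (1 - fT e κ (shf κ τ))) ^ ((1 / e : ℝ) : ℂ)

/-- the radicand `(Q (n+1))²` -/
def radR (e κ : ℝ) (τ η : ℂ) : ℂ :=
  1 + (1 / aR e κ τ η + rho e κ (fT e κ (shf κ τ) + η) +
    (1 - (Qk κ τ ^ 2)⁻¹) / rho e κ (fT e κ (shf κ τ) + η)) / aR e κ τ η

/-- the next link -/
def stepR (e κ : ℝ) (τ η : ℂ) : ℂ :=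
  (radR e κ τ η ^ ((1 / 2 : ℝ) : ℂ) - (Real.cosh κ : ℂ)) / (Real.sinh κ : ℂ)

/-- `T 1` for the start `T0` and `ρ = ρ 1`. -/
def T1 (T0 ρ : ℂ) : ℂ := ρ * (1 - T0 ^ 2) + T0 * (1 - ρ ^ 2 * (1 - T0 ^ 2)) ^ ((1 / 2 : ℝ) : ℂ)

/-- `a 1` for `f 1 = c + d`, where `A0 = (CC (1 - c))^(1/e)`. -/
def a1 (e : ℝ) (c A0 d : ℂ) : ℂ := A0 * (1 - d / (1 - c)) ^ ((1 / e : ℝ) : ℂ)

/-- the radicand `(Q 1)²` for the start `p`, `f 1 = c + d` -/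
def rad0 (e κ : ℝ) (p c A0 d : ℂ) : ℂ :=
  1 + (1 / a1 e c A0 d + 2 * T1 (tanh (κ * p)) (rho e κ (c + d))) / a1 e c A0 d

/-- the first link `τ 1` -/
def step0 (e κ : ℝ) (p c A0 d : ℂ) : ℂ :=
  (rad0 e κ p c A0 d ^ ((1 / 2 : ℝ) : ℂ) - (Real.cosh κ : ℂ)) / (Real.sinh κ : ℂ)

/-- `(E 0 / E 1)²` -/
def radH (e κ : ℝ) (p F : ℂ) : ℂ :=
  1 - 2 * rho e κ F * T1 (tanh (κ * p)) (rho e κ F) + rho e κ F ^ 2

/-- `H = V_+/F` at node `0`, for `f 1 = F`. -/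
def H0 (e κ : ℝ) (p F : ℂ) : ℂ := F * radH e κ p F ^ ((e / 2 : ℝ) : ℂ)

/-- Links: `pos 0 = τ 1`, `f 1 = c p + r0 p * x 0`, `η (n+2) = r (pos n) * x (n+1)`. -/
def pos (e κ : ℝ) (c A0 r0 r : ℂ → ℂ) (p : ℂ) (x : ℕ → ℂ) : ℕ → ℂ
  | 0 => step0 e κ p (c p) (A0 p) (r0 p * x 0)
  | n + 1 => stepR e κ (pos e κ c A0 r0 r p x n) (r (pos e κ c A0 r0 r p x n) * x (n + 1))

/-- The sequence map, with preconditioners `M0 p`, `M τ`. -/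
def Phi (e κ : ℝ) (c A0 r0 r M0 M : ℂ → ℂ) (p : ℂ) (x : ℕ → ℂ) : ℕ → ℂ
  | 0 => (r0 p * x 0 - M0 p * (c p + r0 p * x 0 - (fT e κ (pos e κ c A0 r0 r p x 0) -
      Qk κ (pos e κ c A0 r0 r p x 0) ^ (-(e : ℂ)) * (r (pos e κ c A0 r0 r p x 0) * x 1)))) /
        r0 p
  | n + 1 => (r (pos e κ c A0 r0 r p x n) * x (n + 1) -
      M (pos e κ c A0 r0 r p x n) * (r (pos e κ c A0 r0 r p x n) * x (n + 1) -
      (fT e κ (pos e κ c A0 r0 r p x (n + 1)) - fT e κ (shf κ (pos e κ c A0 r0 r p x n)) -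
      Qk κ (pos e κ c A0 r0 r p x (n + 1)) ^ (-(e : ℂ)) *
        (r (pos e κ c A0 r0 r p x (n + 1)) * x (n + 2))))) / r (pos e κ c A0 r0 r p x n)

/-- Real orbits: `E n` for `fs n = f (n+1)`, `Qs n = Q (n+1)`. -/
def Es (e κ p : ℝ) (fs Qs : ℕ → ℝ) : ℕ → ℝ
  | 0 => Real.cosh (κ * p)
  | 1 => Real.cosh (κ * p) /
      Real.sqrt (1 - 2 * (Ck e κ * fs 0) ^ (-(1 / e)) *
        ((Ck e κ * fs 0) ^ (-(1 / e)) * (1 - Real.tanh (κ * p) ^ 2) +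
          Real.tanh (κ * p) * Real.sqrt (1 - ((Ck e κ * fs 0) ^ (-(1 / e))) ^ 2 *
            (1 - Real.tanh (κ * p) ^ 2))) + ((Ck e κ * fs 0) ^ (-(1 / e))) ^ 2)
  | n + 2 => Qs n * Es e κ p fs Qs (n + 1)

/-- Real orbits: slopes. -/
def Ss (e κ p : ℝ) (fs Qs : ℕ → ℝ) : ℕ → ℝ
  | 0 => Real.sinh (κ * p)
  | n + 1 => Ss e κ p fs Qs n + (Ck e κ * fs n) ^ (-(1 / e)) * Es e κ p fs Qs (n + 1)

end

end Pool.Agent.helper31.EQ.R
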