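import Pool.Agent.helper31.EQ.Defs
import Pool.Agent.helper31.EQ.R.Defs

/-!
# EQ-R1: real orbits of the ratio position scheme
-/

namespace Pool.Agent.helper31.EQ.R

open Filter Topology Pool.Agent.helper31.EQ

/-- `CC e (exp κ) = Ck e κ`. -/
theorem CC_eq_Ck {e κ : ℝ} (hκ : 0 < κ) : CC e (Real.exp κ) = Ck e κ := by
  have h1 : Real.exp κ - 1 = (2 * Real.sinh (κ / 2)) * Real.exp (κ / 2) := by
    have e1 : Real.exp κ = Real.exp (κ / 2) * Real.exp (κ / 2) := by
      rw [← Real.exp_add]; congr 1; ring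
    have e2 : Real.exp (-(κ / 2)) * Real.exp (κ / 2) = 1 := by
      rw [← Real.exp_add]; simp
    rw [Real.sinh_eq, e1]
    linear_combination e2
  have h2 : 1 + Real.exp κ ^ e = 2 * Real.cosh (e * κ / 2) * Real.exp (e * κ / 2) := by
    have e1 : Real.exp κ ^ e = Real.exp (e * κ / 2) * Real.exp (e * κ / 2) := by
      rw [← Real.exp_mul, ← Real.exp_add]; congr 1; ring
    have e2 : Real.exp (-(e * κ / 2)) * Real.exp (e * κ / 2) = 1 := by
      rw [← Real.exp_add]; simp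
    rw [Real.cosh_eq, e1]
    linear_combination -e2
  have hs : 0 < 2 * Real.sinh (κ / 2) := by
    have := Real.sinh_pos_iff.2 (show 0 < κ / 2 by linarith)
    linarith
  unfold CC Ck
  rw [h1, h2, Real.mul_rpow hs.le (Real.exp_pos _).le, ← Real.exp_mul, Real.rpow_neg hs.le]
  have h3 : κ / 2 * e = e * κ / 2 := by ring
  rw [h3]
  have h4 := Real.rpow_pos_of_pos hs e
  have h5 := Real.exp_pos (e * κ / 2)
  field_simp

theorem Ck_pos {e κ : ℝ} (hκ : 0 < κ) : 0 < Ck e κ := by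
  have hs : 0 < 2 * Real.sinh (κ / 2) := by
    have := Real.sinh_pos_iff.2 (show 0 < κ / 2 by linarith)
    linarith
  unfold Ck
  have h1 := Real.cosh_pos (e * κ / 2)
  have h4 := Real.rpow_pos_of_pos hs (-e)
  positivity

/-- The first node. -/
private theorem first_node {E0 S0 T0 ρ w T1 : ℝ} (hE0 : 0 < E0) (hS0 : S0 = T0 * E0)
    (hT : E0 ^ 2 * (1 - T0 ^ 2) = 1) (hρ0 : 0 < ρ) (hρ : ρ < 1)
    (hw : w = Real.sqrt (1 - ρ ^ 2 * (1 - T0 ^ 2))) (hT1 : T1 = ρ * (1 - T0 ^ 2) + T0 * w) :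
    0 < w - ρ * T0 ∧ 1 - 2 * ρ * T1 + ρ ^ 2 = (w - ρ * T0) ^ 2 ∧
      S0 + ρ * (E0 / (w - ρ * T0)) = T1 * (E0 / (w - ρ * T0)) ∧
      1 + (S0 + ρ * (E0 / (w - ρ * T0))) ^ 2 = (E0 / (w - ρ * T0)) ^ 2 := by
  have hE2 : 0 < E0 ^ 2 := by positivity
  have hTp : 0 < 1 - T0 ^ 2 := by
    by_contra hcon
    push Not at hcon
    nlinarith
  have hT0sq : 0 ≤ T0 ^ 2 := sq_nonneg _
  have hρ2 : ρ ^ 2 < 1 := by nlinarith
  have hrad : 0 ≤ 1 - ρ ^ 2 * (1 - T0 ^ 2) := by nlinarith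
  have hw2 : w ^ 2 = 1 - ρ ^ 2 * (1 - T0 ^ 2) := by rw [hw]; exact Real.sq_sqrt hrad
  have hw0 : 0 ≤ w := by rw [hw]; exact Real.sqrt_nonneg _
  have hb : 0 < w - ρ * T0 := by
    have h : (ρ * T0) ^ 2 < w ^ 2 := by rw [hw2]; nlinarith
    have := abs_lt_of_sq_lt_sq h hw0
    have h2 := le_abs_self (ρ * T0)
    linarith
  have hsq : 1 - 2 * ρ * T1 + ρ ^ 2 = (w - ρ * T0) ^ 2 := by
    rw [hT1]
    linear_combination -hw2
  have hST : S0 + ρ * (E0 / (w - ρ * T0)) = T1 * (E0 / (w - ρ * T0)) := by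
    have hbne := hb.ne'
    rw [hS0, hT1, ← mul_div_assoc, ← mul_div_assoc, eq_div_iff hbne, add_mul,
      div_mul_cancel₀ _ hbne]
    ring
  refine ⟨hb, hsq, hST, ?_⟩
  rw [hST]
  have hkey : E0 ^ 2 * (1 - T1 ^ 2) = (w - ρ * T0) ^ 2 := by
    have h1 : 1 - T1 ^ 2 = (1 - T0 ^ 2) * (w - ρ * T0) ^ 2 := by
      have hT1' : T1 = ρ + T0 * (w - ρ * T0) := by rw [hT1]; ring
      rw [hT1']
      linear_combination -hw2
    rw [h1, ← mul_assoc, hT, one_mul]
  have hb2 : (w - ρ * T0) ^ 2 ≠ 0 := by positivity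
  have : (E0 / (w - ρ * T0)) ^ 2 = E0 ^ 2 / (w - ρ * T0) ^ 2 := by rw [div_pow]
  rw [mul_pow, this]
  field_simp
  linear_combination -hkey

/-- **The real orbit.**  `fs n = f (n+1)`, `Qs n = Q (n+1)`, `ρ n = (CC fs n)^(-1/e)` is the gap
`n → n+1` divided by `E (n+1)`, `a n = (CC (1 - fs n))^(1/e)`.
(1) `E 1`: with `T0 = tanh κp`, `w = √(1 - ρ²(1-T0²))`, `T1 = ρ(1-T0²) + T0 w`:
`1 - 2ρT1 + ρ² = (w - ρT0)²` and `w > ρ T0` since `ρ < 1`, so `E 1 = E 0/(w - ρ T0)`;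
`T1 - ρ = T0 (w - ρ T0)`, hence `S 1 = S 0 + ρ E 1 = T1 E 1` and `1 + (S 1)² = (E 1)²`
(`1 - T1² = (1 - T0²)(w - ρT0)²`).
(2) Induction over `n ≥ 1`: `1 + (S n)² = (E n)²` and `2 S n/E n = a (Q²-1) - 1/a` for the
values `a = a (n-1)`, `Q = Qs (n-1)` (`hQ0`, `hQ`; `Qs > 0`).  By `hlaw`,
`a n' = (CC f(n'+1))^(1/e)/Q`, i.e. `ρ (n+1) Q a = 1`; so the next slope is
`S + E/a`, `1 + (S + E/a)² = E² Q²`, and `2 S (n+1)/E (n+1) = ρ + (1 - Q^(-2))/ρ` with the new `ρ`.
(3) The node relation: `(gap)^(-e) = CC f E^(-e)`, `F = CC E^(-e)` and `hlaw`.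
(4) `E (n+1) ≥ Qs n E n` with `Qs → exp κ > 1`, so `E → ∞`, hence `S → ∞`
(`S² = E² - 1`, `S` increasing); `S/E → 1`, so `S (n+1)/S n` has the limit of `Qs`.
(5) `(S 1 - S 0)^(-e)/F(S 0) = f 1 (E 0/E 1)^e`. -/
theorem orbit_of_f {e κ : ℝ} (he : 1 < e) (hκ : 0 < κ) (p : ℝ) {fs Qs : ℕ → ℝ}
    (hf0 : ∀ n, 0 < fs n) (hf1 : ∀ n, fs n < 1) (hQpos : ∀ n, 0 < Qs n)
    (hρ : (Ck e κ * fs 0) ^ (-(1 / e)) < 1)
    (hQ0 : Qs 0 ^ 2 = 1 + (1 / (Ck e κ * (1 - fs 0)) ^ (1 / e) +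
      2 * ((Ck e κ * fs 0) ^ (-(1 / e)) * (1 - Real.tanh (κ * p) ^ 2) +
          Real.tanh (κ * p) * Real.sqrt (1 - ((Ck e κ * fs 0) ^ (-(1 / e))) ^ 2 *
            (1 - Real.tanh (κ * p) ^ 2)))) / (Ck e κ * (1 - fs 0)) ^ (1 / e))
    (hQ : ∀ n, Qs (n + 1) ^ 2 = 1 + (1 / (Ck e κ * (1 - fs (n + 1))) ^ (1 / e) +
      (Ck e κ * fs (n + 1)) ^ (-(1 / e)) +
        (1 - (Qs n ^ 2)⁻¹) / (Ck e κ * fs (n + 1)) ^ (-(1 / e))) /
          (Ck e κ * (1 - fs (n + 1))) ^ (1 / e))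
    (hlaw : ∀ n, 1 - fs n = fs (n + 1) * Qs n ^ (-e))
    (hlim : Tendsto Qs atTop (𝓝 (Real.exp κ))) :
    (∀ n, Ss e κ p fs Qs n < Ss e κ p fs Qs (n + 1)) ∧
    (∀ n, (Ss e κ p fs Qs (n + 1) - Ss e κ p fs Qs n) ^ (-e) +
      (Ss e κ p fs Qs (n + 2) - Ss e κ p fs Qs (n + 1)) ^ (-e) =
        FF e (Real.exp κ) (Ss e κ p fs Qs (n + 1))) ∧
    Tendsto (Ss e κ p fs Qs) atTop atTop ∧
    Tendsto (fun n => Ss e κ p fs Qs (n + 1) / Ss e κ p fs Qs n) atTop (𝓝 (Real.exp κ)) ∧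
    (Ss e κ p fs Qs 1 - Ss e κ p fs Qs 0) ^ (-e) / FF e (Real.exp κ) (Ss e κ p fs Qs 0) =
      fs 0 * (1 - 2 * (Ck e κ * fs 0) ^ (-(1 / e)) *
        ((Ck e κ * fs 0) ^ (-(1 / e)) * (1 - Real.tanh (κ * p) ^ 2) +
          Real.tanh (κ * p) * Real.sqrt (1 - ((Ck e κ * fs 0) ^ (-(1 / e))) ^ 2 *
            (1 - Real.tanh (κ * p) ^ 2))) + ((Ck e κ * fs 0) ^ (-(1 / e))) ^ 2) ^ (e / 2) := by
  classical
  set C := Ck e κ with hC
  have hCp : 0 < C := Ck_pos hκ
  have he0 : 0 < e := by linarith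
  have hene : e ≠ 0 := he0.ne'
  set r : ℕ → ℝ := fun n => (C * fs n) ^ (-(1 / e)) with hr
  set a : ℕ → ℝ := fun n => (C * (1 - fs n)) ^ (1 / e) with ha
  have hrp : ∀ n, 0 < r n := fun n => Real.rpow_pos_of_pos (mul_pos hCp (hf0 n)) _
  have hap : ∀ n, 0 < a n := fun n =>
    Real.rpow_pos_of_pos (mul_pos hCp (by linarith [hf1 n])) _
  set E := Es e κ p fs Qs with hE
  set S := Ss e κ p fs Qs with hS
  set T0 := Real.tanh (κ * p) with hT0
  set w := Real.sqrt (1 - (r 0) ^ 2 * (1 - T0 ^ 2)) with hw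
  set T1 := r 0 * (1 - T0 ^ 2) + T0 * w with hT1
  have hE0 : E 0 = Real.cosh (κ * p) := rfl
  have hS0 : S 0 = Real.sinh (κ * p) := rfl
  have hE0p : 0 < E 0 := by rw [hE0]; exact Real.cosh_pos _
  have hS0E : S 0 = T0 * E 0 := by
    rw [hS0, hE0, hT0, Real.tanh_eq_sinh_div_cosh]
    field_simp [(Real.cosh_pos (κ * p)).ne']
  have hTE : E 0 ^ 2 * (1 - T0 ^ 2) = 1 := by
    have h1 := Real.cosh_sq (κ * p)
    have h2 : E 0 ^ 2 * T0 ^ 2 = Real.sinh (κ * p) ^ 2 := by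
      rw [← hS0, hS0E]; ring
    have h3 : E 0 ^ 2 = Real.sinh (κ * p) ^ 2 + 1 := by rw [hE0, h1]
    linear_combination h3 - h2
  obtain ⟨hb, hsq, hST, hone⟩ := first_node hE0p hS0E hTE (hrp 0) hρ hw hT1
  have hsqrt : Real.sqrt (1 - 2 * r 0 * T1 + r 0 ^ 2) = w - r 0 * T0 := by
    rw [hsq]; exact Real.sqrt_sq hb.le
  have hE1 : E 1 = E 0 / (w - r 0 * T0) := by
    rw [← hsqrt]
    rfl
  have hE1p : 0 < E 1 := by rw [hE1]; positivity
  have hEs : ∀ n, E (n + 2) = Qs n * E (n + 1) := fun n => rfl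
  have hSs : ∀ n, S (n + 1) = S n + r n * E (n + 1) := fun n => rfl
  have hEp : ∀ n, 0 < E n := by
    intro n
    induction n using Nat.strong_induction_on with
    | _ n ih =>
      match n with
      | 0 => exact hE0p
      | 1 => exact hE1p
      | k + 2 => rw [hEs]; exact mul_pos (hQpos k) (ih (k + 1) (by omega))
  have hmono : ∀ n, S n < S (n + 1) := fun n => by
    rw [hSs]; have := mul_pos (hrp n) (hEp (n + 1)); linarith
  -- r (n+1) * Q n * a n = 1
  have hra : ∀ n, r (n + 1) * Qs n * a n = 1 := by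
    intro n
    have h1 : C * (1 - fs n) = C * fs (n + 1) * Qs n ^ (-e) := by rw [hlaw n]; ring
    have hcf : 0 < C * fs (n + 1) := mul_pos hCp (hf0 _)
    have h2 : a n = (C * fs (n + 1)) ^ (1 / e) * (Qs n)⁻¹ := by
      show (C * (1 - fs n)) ^ (1 / e) = _
      rw [h1, Real.mul_rpow hcf.le (Real.rpow_pos_of_pos (hQpos n) _).le,
        ← Real.rpow_mul (hQpos n).le]
      congr 1
      rw [show -e * (1 / e) = -1 by field_simp, Real.rpow_neg_one]
    have h3 : r (n + 1) = ((C * fs (n + 1)) ^ (1 / e))⁻¹ := by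
      show (C * fs (n + 1)) ^ (-(1 / e)) = _
      rw [Real.rpow_neg hcf.le]
    have h4 := Real.rpow_pos_of_pos hcf (1 / e)
    have h5 := hQpos n
    rw [h2, h3]
    field_simp
  -- the invariant
  have hinv : ∀ n, 1 + S (n + 1) ^ 2 = E (n + 1) ^ 2 ∧
      2 * S (n + 1) / E (n + 1) = a n * (Qs n ^ 2 - 1) - 1 / a n := by
    intro n
    induction n with
    | zero =>
      have hS1 : S 1 = S 0 + r 0 * (E 0 / (w - r 0 * T0)) := by rw [hSs 0, ← hE1]
      refine ⟨?_, ?_⟩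
      · rw [show (0 + 1 : ℕ) = 1 from rfl, hS1, hE1]; exact hone
      · have hS1' : S 1 = T1 * E 1 := by rw [hS1, hST, ← hE1]
        rw [show (0 + 1 : ℕ) = 1 from rfl, hS1']
        have h0 : Qs 0 ^ 2 = 1 + (1 / a 0 + 2 * T1) / a 0 := hQ0
        rw [h0]
        have := (hap 0).ne'
        have := hE1p.ne'
        field_simp
        ring
    | succ n ih =>
      obtain ⟨ih1, ih2⟩ := ih
      have hEn := hEp (n + 1)
      have han := hap n
      have hrn := hrp (n + 1)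
      have hQn := hQpos n
      have h1 : r (n + 1) * Qs n * a n = 1 := hra n
      have hS2 : S (n + 1 + 1) = S (n + 1) + E (n + 1) / a n := by
        rw [hSs (n + 1), hEs n]
        have : r (n + 1) * (Qs n * E (n + 1)) = E (n + 1) / a n := by
          rw [eq_div_iff han.ne']
          linear_combination E (n + 1) * h1
        rw [this]
      have h2S : 2 * S (n + 1) = (a n * (Qs n ^ 2 - 1) - 1 / a n) * E (n + 1) := by
        rw [← ih2]; field_simp
      refine ⟨?_, ?_⟩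
      · rw [hS2, hEs n]
        have e1 : (S (n + 1) + E (n + 1) / a n) ^ 2 = S (n + 1) ^ 2 +
            2 * S (n + 1) * (E (n + 1) / a n) + (E (n + 1) / a n) ^ 2 := by ring
        rw [e1, h2S]
        have e2 : (a n * (Qs n ^ 2 - 1) - 1 / a n) * E (n + 1) * (E (n + 1) / a n) +
            (E (n + 1) / a n) ^ 2 = (Qs n ^ 2 - 1) * E (n + 1) ^ 2 := by
          field_simp
          ring
        linear_combination ih1 + e2
      · have hq := hQ n
        have hq' : Qs (n + 1) ^ 2 = 1 + (1 / a (n + 1) + r (n + 1) +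
          (1 - (Qs n ^ 2)⁻¹) / r (n + 1)) / a (n + 1) := hq
        have hrhs : a (n + 1) * (Qs (n + 1) ^ 2 - 1) - 1 / a (n + 1) =
            r (n + 1) + (1 - (Qs n ^ 2)⁻¹) / r (n + 1) := by
          rw [hq']
          have := (hap (n + 1)).ne'
          field_simp
          ring
        rw [hrhs, hS2, hEs n]
        have hreq : r (n + 1) = 1 / (Qs n * a n) := by
          rw [eq_div_iff (by positivity)]; linear_combination h1
        rw [hreq]
        have e1 : 2 * (S (n + 1) + E (n + 1) / a n) =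
            (a n * (Qs n ^ 2 - 1) + 1 / a n) * E (n + 1) := by
          have : 2 * (S (n + 1) + E (n + 1) / a n) = 2 * S (n + 1) + 2 * (E (n + 1) / a n) := by
            ring
          rw [this, h2S]
          field_simp
          ring
        rw [e1]
        field_simp
        ring
  -- 1 + S^2 = E^2 for all n
  have hSE : ∀ n, 1 + S n ^ 2 = E n ^ 2 := by
    intro n
    cases n with
    | zero =>
      rw [hS0, hE0, Real.cosh_sq]; ring
    | succ k => exact (hinv k).1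
  have hFF : ∀ n, FF e (Real.exp κ) (S n) = C * E n ^ (-e) := by
    intro n
    unfold FF
    rw [CC_eq_Ck hκ, ← hC, hSE n, ← Real.rpow_natCast, ← Real.rpow_mul (hEp n).le]
    congr 2
    push_cast
    ring
  have hgap : ∀ n, (S (n + 1) - S n) ^ (-e) = C * fs n * E (n + 1) ^ (-e) := by
    intro n
    have h1 : S (n + 1) - S n = r n * E (n + 1) := by rw [hSs n]; ring
    rw [h1, Real.mul_rpow (hrp n).le (hEp _).le]
    congr 1
    show ((C * fs n) ^ (-(1 / e))) ^ (-e) = _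
    rw [← Real.rpow_mul (mul_pos hCp (hf0 n)).le]
    rw [show -(1 / e) * -e = 1 by field_simp, Real.rpow_one]
  -- limits
  have hexp : 1 < Real.exp κ := by
    have := Real.add_one_lt_exp hκ.ne'
    linarith
  have hEtop : Tendsto E atTop atTop := by
    set c := (1 + Real.exp κ) / 2 with hc
    have hc1 : 1 < c := by rw [hc]; linarith
    have hc2 : c < Real.exp κ := by rw [hc]; linarith
    obtain ⟨N, hN⟩ := (hlim.eventually (lt_mem_nhds hc2)).exists_forall_of_atTop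
    have hgrow : ∀ n, c ^ n * E (N + 1) ≤ E (n + (N + 1)) := by
      intro n
      induction n with
      | zero => simp
      | succ n ih =>
        have e1 : n + 1 + (N + 1) = (n + N) + 2 := by ring
        have e2 : n + (N + 1) = (n + N) + 1 := by ring
        rw [e1, hEs (n + N)]
        rw [e2] at ih
        have h3 : c ≤ Qs (n + N) := (hN (n + N) (by omega)).le
        calc c ^ (n + 1) * E (N + 1) = c * (c ^ n * E (N + 1)) := by ring
          _ ≤ c * E (n + N + 1) := by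
              exact mul_le_mul_of_nonneg_left ih (by linarith)
          _ ≤ Qs (n + N) * E (n + N + 1) :=
              mul_le_mul_of_nonneg_right h3 (hEp _).le
    have h1 : Tendsto (fun n : ℕ => c ^ n * E (N + 1)) atTop atTop :=
      (tendsto_pow_atTop_atTop_of_one_lt hc1).atTop_mul_const (hEp _)
    have h2 : Tendsto (fun n => E (n + (N + 1))) atTop atTop :=
      tendsto_atTop_mono hgrow h1
    exact (tendsto_add_atTop_iff_nat (N + 1)).1 h2
  have hSmono : Monotone S := monotone_nat_of_le_succ fun n => (hmono n).le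
  have hStop : Tendsto S atTop atTop := by
    rcases tendsto_atTop_of_monotone hSmono with h | ⟨l, hl⟩
    · exact h
    · exfalso
      have h1 : Tendsto (fun n => 1 + S n ^ 2) atTop (𝓝 (1 + l ^ 2)) :=
        tendsto_const_nhds.add (hl.pow 2)
      have h2 : Tendsto (fun n => E n ^ 2) atTop atTop :=
        (tendsto_pow_atTop (two_ne_zero)).comp hEtop
      have h3 : Tendsto (fun n => E n ^ 2) atTop (𝓝 (1 + l ^ 2)) := by
        refine h1.congr fun n => hSE n
      exact not_tendsto_nhds_of_tendsto_atTop h2 _ h3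
  have hratio1 : Tendsto (fun n => S n / E n) atTop (𝓝 1) := by
    have h1 : Tendsto (fun n => Real.sqrt (1 - (E n ^ 2)⁻¹)) atTop (𝓝 1) := by
      have h2 : Tendsto (fun n => E n ^ 2) atTop atTop :=
        (tendsto_pow_atTop (two_ne_zero)).comp hEtop
      have h3 : Tendsto (fun n => 1 - (E n ^ 2)⁻¹) atTop (𝓝 (1 - 0)) :=
        tendsto_const_nhds.sub (tendsto_inv_atTop_zero.comp h2)
      have h4 := (Real.continuous_sqrt.tendsto (1 - 0)).comp h3
      rw [sub_zero, Real.sqrt_one] at h4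
      exact h4
    refine h1.congr' ?_
    filter_upwards [hStop.eventually_gt_atTop 0] with n hn
    have hEn := hEp n
    have h5 : 1 - (E n ^ 2)⁻¹ = (S n / E n) ^ 2 := by
      have := hSE n
      field_simp
      linarith
    rw [h5, Real.sqrt_sq (by positivity)]
  have hratio : Tendsto (fun n => S (n + 1) / S n) atTop (𝓝 (Real.exp κ)) := by
    have hshift : Tendsto (fun n => S (n + 2) / S (n + 1)) atTop (𝓝 (Real.exp κ)) := by
      have h1 : Tendsto (fun n => S (n + 2) / E (n + 2)) atTop (𝓝 1) :=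
        hratio1.comp (tendsto_add_atTop_nat 2)
      have h2 : Tendsto (fun n => S (n + 1) / E (n + 1)) atTop (𝓝 1) :=
        hratio1.comp (tendsto_add_atTop_nat 1)
      have h3 : Tendsto (fun n => S (n + 2) / E (n + 2) * Qs n * (S (n + 1) / E (n + 1))⁻¹) atTop
          (𝓝 (1 * Real.exp κ * 1⁻¹)) := (h1.mul hlim).mul (h2.inv₀ one_ne_zero)
      rw [show (1 : ℝ) * Real.exp κ * 1⁻¹ = Real.exp κ by simp] at h3
      refine h3.congr' ?_
      filter_upwards [(hStop.comp (tendsto_add_atTop_nat 1)).eventually_gt_atTop 0] with n hn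
      have hn' : 0 < S (n + 1) := hn
      have hE1' := hEp (n + 1)
      have hQn := hQpos n
      rw [hEs n]
      field_simp
    exact (tendsto_add_atTop_iff_nat 1).1 hshift
  refine ⟨hmono, ?_, hStop, hratio, ?_⟩
  · intro n
    rw [hgap n, hgap (n + 1), hFF (n + 1), hEs n, Real.mul_rpow (hQpos n).le (hEp _).le]
    linear_combination (-(C * E (n + 1) ^ (-e))) * hlaw n
  · rw [hgap 0, hFF 0]
    have hgoal : (1 - 2 * r 0 * T1 + r 0 ^ 2) ^ (e / 2) = (w - r 0 * T0) ^ e := by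
      rw [hsq, ← Real.rpow_natCast, ← Real.rpow_mul hb.le]
      congr 1
      push_cast
      ring
    have hfin : C * fs 0 * E 1 ^ (-e) / (C * E 0 ^ (-e)) = fs 0 * (w - r 0 * T0) ^ e := by
      have h0 := Real.rpow_pos_of_pos hE0p e
      have hbe := Real.rpow_pos_of_pos hb e
      rw [hE1, Real.div_rpow hE0p.le hb.le, Real.rpow_neg hE0p.le, Real.rpow_neg hb.le]
      field_simp
    rw [show (0 + 1 : ℕ) = 1 from rfl, hfin, ← hgoal]

end Pool.Agent.helper31.EQ.R
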