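import Pool.Agent.helper31.EQ.SeqTrap
import Pool.Agent.helper31.EQ.R.Alg
import Pool.Agent.helper31.EQ.R.Rigid

/-!
# EQ-R2: the interface of the ratio position scheme
-/

namespace Pool.Agent.helper31.EQ.R

open Set Metric Filter Topology Complex Pool.Agent.helper31.EQ.Y

/-- Everything the scheme needs for one pair `(e, κ)`. -/
structure RData (e κ : ℝ) where
  θ : ℝ
  hθ0 : 0 ≤ θ
  hθ1 : θ < 1
  /-- starts `p = ζ 0`, `t 0 = sinh (κ p)` -/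
  D : Set ℂ
  isOpen_D : IsOpen D
  D_strip : ∀ p ∈ D, |p.im| < Real.pi / (2 * κ)
  /-- positions `τ n` of the links `n ≥ 1` -/
  Ω : Set ℂ
  Ω_re : ∀ τ ∈ Ω, 0 < τ.re
  /-- `f 1 = c p + r0 p * x 0`, `A0 = (CC (1 - c))^(1/e)`; `η (n+1) = r (τ n) * x n` -/
  c : ℂ → ℂ
  A0 : ℂ → ℂ
  r0 : ℂ → ℂ
  r : ℂ → ℂ
  /-- preconditioners -/
  M0 : ℂ → ℂ
  M : ℂ → ℂ
  c_diff : DifferentiableOn ℂ c D
  A0_diff : DifferentiableOn ℂ A0 D
  r0_diff : DifferentiableOn ℂ r0 D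
  r_diff : ∀ τ ∈ Ω, DifferentiableAt ℂ r τ
  M0_diff : DifferentiableOn ℂ M0 D
  M_diff : ∀ τ ∈ Ω, DifferentiableAt ℂ M τ
  M0_ne : ∀ p ∈ D, M0 p ≠ 0
  M_ne : ∀ τ ∈ Ω, M τ ≠ 0
  M0_real : ∀ p : ℝ, (p : ℂ) ∈ D → (M0 p).im = 0
  M_real : ∀ τ : ℝ, (τ : ℂ) ∈ Ω → (M τ).im = 0
  c_ne : ∀ p ∈ D, 1 - c p ≠ 0
  A0_ne : ∀ p ∈ D, A0 p ≠ 0
  r0_ne : ∀ p ∈ D, r0 p ≠ 0
  r_ne : ∀ τ ∈ Ω, r τ ≠ 0
  c_real : ∀ p : ℝ, (p : ℂ) ∈ D → (c p).im = 0 ∧ (c p).re < 1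
  A0_real : ∀ p : ℝ, (p : ℂ) ∈ D → A0 p = (((Ck e κ * (1 - (c p).re)) ^ (1 / e) : ℝ) : ℂ)
  r0_real : ∀ p : ℝ, (p : ℂ) ∈ D → (r0 p).im = 0
  r_real : ∀ τ : ℝ, (τ : ℂ) ∈ Ω → (r τ).im = 0
  /-- node `0`: all powers are in the slit plane -/
  F0_slit : ∀ p ∈ D, ∀ x : ℂ, ‖x‖ ≤ 1 → c p + r0 p * x ∈ slitPlane
  a0_slit : ∀ p ∈ D, ∀ x : ℂ, ‖x‖ ≤ 1 → 1 - r0 p * x / (1 - c p) ∈ slitPlane
  w0_slit : ∀ p ∈ D, ∀ x : ℂ, ‖x‖ ≤ 1 →
    1 - rho e κ (c p + r0 p * x) ^ 2 * (1 - tanh (κ * p) ^ 2) ∈ slitPlane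
  rad0_slit : ∀ p ∈ D, ∀ x : ℂ, ‖x‖ ≤ 1 → rad0 e κ p (c p) (A0 p) (r0 p * x) ∈ slitPlane
  radH_slit : ∀ p ∈ D, ∀ x : ℂ, ‖x‖ ≤ 1 → radH e κ p (c p + r0 p * x) ∈ slitPlane
  rho_lt : ∀ p : ℝ, (p : ℂ) ∈ D → ∀ x : ℂ, ‖x‖ ≤ 1 → ‖rho e κ (c p + r0 p * x)‖ < 1
  /-- links -/
  F_slit : ∀ τ ∈ Ω, ∀ x : ℂ, ‖x‖ ≤ 1 → fT e κ (shf κ τ) + r τ * x ∈ slitPlane
  a_slit : ∀ τ ∈ Ω, ∀ x : ℂ, ‖x‖ ≤ 1 → 1 - r τ * x / (1 - fT e κ (shf κ τ)) ∈ slitPlane
  rad_slit : ∀ τ ∈ Ω, ∀ x : ℂ, ‖x‖ ≤ 1 → radR e κ τ (r τ * x) ∈ slitPlane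
  /-- invariance -/
  inv0 : ∀ p ∈ D, ∀ x : ℂ, ‖x‖ ≤ 1 → step0 e κ p (c p) (A0 p) (r0 p * x) ∈ Ω
  inv : ∀ τ ∈ Ω, ∀ x : ℂ, ‖x‖ ≤ 1 → stepR e κ τ (r τ * x) ∈ Ω
  /-- closing -/
  close0 : ∀ p ∈ D, ∀ x x' : ℂ, ‖x‖ ≤ 1 → ‖x'‖ ≤ 1 → ∀ τ, τ = step0 e κ p (c p) (A0 p) (r0 p * x) →
    ‖r0 p * x - M0 p * (c p + r0 p * x - (fT e κ τ - Qk κ τ ^ (-(e : ℂ)) * (r τ * x')))‖ ≤
      θ * ‖r0 p‖
  close : ∀ τ ∈ Ω, ∀ x x' : ℂ, ‖x‖ ≤ 1 → ‖x'‖ ≤ 1 → ∀ τ', τ' = stepR e κ τ (r τ * x) →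
    ‖r τ * x - M τ * (r τ * x - (fT e κ τ' - fT e κ (shf κ τ) -
      Qk κ τ' ^ (-(e : ℂ)) * (r τ' * x')))‖ ≤ θ * ‖r τ‖
  /-- real positions converge to `1` -/
  tend : ∀ p : ℝ, (p : ℂ) ∈ D → ∀ x : ℕ → ℂ, (∀ n, ‖x n‖ ≤ 1) → (∀ n, (x n).im = 0) →
    Tendsto (pos e κ c A0 r0 r p x) atTop (𝓝 1)
  η : ℝ
  hη : 0 < η
  seg : ∀ y : ℝ, |y| ≤ η → ((y : ℂ) * I) ∈ D
  test : ∀ x : ℕ → ℂ, (∀ n, ‖x n‖ ≤ 1) →
    (∀ n, x n = Phi e κ c A0 r0 r M0 M ((η : ℂ) * I) x n) →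
    (H0 e κ ((η : ℂ) * I) (c ((η : ℂ) * I) + r0 ((η : ℂ) * I) * x 0)).re ≠ 1 / 2

variable {e κ : ℝ}

private theorem Data_real_pos {z : ℂ} (hz : z ∈ slitPlane) (h : z.im = 0) : 0 < z.re := by
  rcases (mem_slitPlane_iff.1 hz) with h1 | h1
  · exact h1
  · exact absurd h h1

private theorem Data_ofReal_pos {x : ℝ} (hz : (x : ℂ) ∈ slitPlane) : 0 < x := by
  have := Data_real_pos hz (ofReal_im x)
  simpa using this

private theorem Data_eq_re {z : ℂ} (h : z.im = 0) : z = ((z.re : ℝ) : ℂ) := by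
  apply Complex.ext
  · simp
  · simp [h]

private theorem Data_rho_real {e κ : ℝ} (hκ : 0 < κ) {f : ℝ} (hf : 0 < f) :
    rho e κ (f : ℂ) = (((Ck e κ * f) ^ (-(1 / e)) : ℝ) : ℂ) := by
  unfold rho
  rw [Complex.ofReal_cpow (mul_pos (Ck_pos hκ) hf).le]
  push_cast
  rfl

private theorem Data_T1_real {T ρ : ℝ} (h : 0 ≤ 1 - ρ ^ 2 * (1 - T ^ 2)) :
    T1 (T : ℂ) (ρ : ℂ) =
      ((ρ * (1 - T ^ 2) + T * Real.sqrt (1 - ρ ^ 2 * (1 - T ^ 2)) : ℝ) : ℂ) := by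
  unfold T1
  rw [Real.sqrt_eq_rpow]
  have h1 := Complex.ofReal_cpow h (1 / 2)
  have h2 : ((1 - ρ ^ 2 * (1 - T ^ 2) : ℝ) : ℂ) = 1 - (ρ : ℂ) ^ 2 * (1 - (T : ℂ) ^ 2) := by
    push_cast
    ring
  rw [h2] at h1
  rw [ofReal_add, ofReal_mul, ofReal_mul, h1]
  push_cast
  ring

private theorem Data_a1_real {e κ : ℝ} (hκ : 0 < κ) {c d : ℝ} (hc : c < 1)
    (h : 0 < 1 - d / (1 - c)) :
    0 < 1 - (c + d) ∧ a1 e (c : ℂ) (((Ck e κ * (1 - c)) ^ (1 / e) : ℝ) : ℂ) (d : ℂ) =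
      (((Ck e κ * (1 - (c + d))) ^ (1 / e) : ℝ) : ℂ) := by
  have hc1 : 0 < 1 - c := by linarith
  have e1 : 1 - (c + d) = (1 - c) * (1 - d / (1 - c)) := by
    field_simp
    ring
  have h2 : 0 < 1 - (c + d) := by
    rw [e1]; exact mul_pos hc1 h
  refine ⟨h2, ?_⟩
  unfold a1
  have e2 : Ck e κ * (1 - (c + d)) = (Ck e κ * (1 - c)) * (1 - d / (1 - c)) := by
    rw [e1]; ring
  rw [e2, Real.mul_rpow (mul_pos (Ck_pos hκ) hc1).le h.le, ofReal_mul,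
    Complex.ofReal_cpow h.le (1 / e)]
  push_cast
  rfl

private theorem Data_sqrt_real {w : ℝ} (h : 0 ≤ w) :
    (w : ℂ) ^ ((1 / 2 : ℝ) : ℂ) = ((Real.sqrt w : ℝ) : ℂ) := by
  rw [Real.sqrt_eq_rpow, Complex.ofReal_cpow h]

private theorem Data_tanh_real (κ p : ℝ) :
    tanh ((κ : ℂ) * (p : ℂ)) = ((Real.tanh (κ * p) : ℝ) : ℂ) := by
  push_cast
  rfl

private theorem Data_shf_real (κ τ : ℝ) : (shf κ (τ : ℂ)).im = 0 := by
  have : shf κ (τ : ℂ) = (((τ + Real.tanh κ) / (1 + Real.tanh κ * τ) : ℝ) : ℂ) := by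
    unfold shf
    push_cast
    rfl
  rw [this, ofReal_im]

private theorem Data_Qk_real (κ τ : ℝ) :
    Qk κ (τ : ℂ) = ((Real.cosh κ + Real.sinh κ * τ : ℝ) : ℂ) := by
  unfold Qk
  push_cast
  rfl

/-- the real radicand of node `1` -/
private theorem Data_rad0_real {e κ : ℝ} (hκ : 0 < κ) {p c d : ℝ} (hc : c < 1)
    (h : 0 < 1 - d / (1 - c)) (hf : 0 < c + d)
    (hw : 0 ≤ 1 - ((Ck e κ * (c + d)) ^ (-(1 / e))) ^ 2 * (1 - Real.tanh (κ * p) ^ 2)) :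
    rad0 e κ (p : ℂ) (c : ℂ) (((Ck e κ * (1 - c)) ^ (1 / e) : ℝ) : ℂ) (d : ℂ) =
      ((1 + (1 / (Ck e κ * (1 - (c + d))) ^ (1 / e) +
      2 * ((Ck e κ * (c + d)) ^ (-(1 / e)) * (1 - Real.tanh (κ * p) ^ 2) +
          Real.tanh (κ * p) * Real.sqrt (1 - ((Ck e κ * (c + d)) ^ (-(1 / e))) ^ 2 *
            (1 - Real.tanh (κ * p) ^ 2)))) / (Ck e κ * (1 - (c + d))) ^ (1 / e) : ℝ) : ℂ) := by
  unfold rad0
  rw [(Data_a1_real (e := e) hκ hc h).2, ← ofReal_add c d, Data_rho_real hκ hf, Data_tanh_real,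
    Data_T1_real hw]
  push_cast
  rfl

/-- the real radicand of a link -/
private theorem Data_radR_real {e κ : ℝ} (he : 0 < e) (hκ : 0 < κ) {τ η : ℝ} (h : 0 < τ)
    (hη : 0 < 1 - η / (1 - (fT e κ (shf κ τ)).re)) (hf : 0 < (fT e κ (shf κ τ)).re + η) :
    radR e κ (τ : ℂ) (η : ℂ) = ((1 + (1 / (Ck e κ * (1 - ((fT e κ (shf κ τ)).re + η))) ^ (1 / e) +
      (Ck e κ * ((fT e κ (shf κ τ)).re + η)) ^ (-(1 / e)) +
        (1 - ((Real.cosh κ + Real.sinh κ * τ) ^ 2)⁻¹) /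
          (Ck e κ * ((fT e κ (shf κ τ)).re + η)) ^ (-(1 / e))) /
          (Ck e κ * (1 - ((fT e κ (shf κ τ)).re + η))) ^ (1 / e) : ℝ) : ℂ) := by
  have hs : (shf κ (τ : ℂ)).im = 0 := Data_shf_real κ τ
  have hsr : 0 < (shf κ (τ : ℂ)).re := shf_re hκ (by simpa using h.le)
  have hF : fT e κ (shf κ (τ : ℂ)) = (((fT e κ (shf κ (τ : ℂ))).re : ℝ) : ℂ) := by
    apply Data_eq_re
    rw [Data_eq_re hs]
    exact fT_real he hκ hsr
  have hA := (aR_real he hκ h hη).2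
  rw [show 1 - (fT e κ (shf κ (τ : ℂ))).re - η = 1 - ((fT e κ (shf κ (τ : ℂ))).re + η) by ring] at hA
  unfold radR
  rw [hA, Data_Qk_real]
  have hR : rho e κ (fT e κ (shf κ (τ : ℂ)) + (η : ℂ)) =
      (((Ck e κ * ((fT e κ (shf κ (τ : ℂ))).re + η)) ^ (-(1 / e)) : ℝ) : ℂ) := by
    rw [← Data_rho_real hκ hf, ofReal_add, ← hF]
  rw [hR]
  push_cast
  rfl

private theorem Data_mul_slit {C : ℝ} (hC : 0 < C) {F : ℂ} (h : F ∈ slitPlane) :
    (C : ℂ) * F ∈ slitPlane := by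
  rw [mem_slitPlane_iff] at h ⊢
  rw [re_ofReal_mul, im_ofReal_mul]
  rcases h with h | h
  · exact Or.inl (mul_pos hC h)
  · exact Or.inr (mul_ne_zero hC.ne' h)

private theorem Data_cpow_ne {z : ℂ} (h : z ≠ 0) (s : ℂ) : z ^ s ≠ 0 := by
  rw [Ne, cpow_eq_zero_iff]
  rintro ⟨h1, -⟩
  exact h h1

private theorem Data_rho_ne {e κ : ℝ} (hκ : 0 < κ) {F : ℂ} (h : F ∈ slitPlane) :
    rho e κ F ≠ 0 :=
  Data_cpow_ne (slitPlane_ne_zero (Data_mul_slit (Ck_pos hκ) h)) _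

private theorem Data_rho_diff {e κ : ℝ} (hκ : 0 < κ) {F : ℂ → ℂ} {z : ℂ}
    (dF : DifferentiableAt ℂ F z) (h : F z ∈ slitPlane) :
    DifferentiableAt ℂ (fun w => rho e κ (F w)) z := by
  unfold rho
  exact (dF.const_mul _).cpow_const (Data_mul_slit (Ck_pos hκ) h)

private theorem Data_T1_diff {T ρ : ℂ → ℂ} {z : ℂ} (dT : DifferentiableAt ℂ T z)
    (dρ : DifferentiableAt ℂ ρ z) (h : 1 - ρ z ^ 2 * (1 - T z ^ 2) ∈ slitPlane) :
    DifferentiableAt ℂ (fun w => T1 (T w) (ρ w)) z := by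
  unfold T1
  have d1 : DifferentiableAt ℂ (fun w => 1 - T w ^ 2) z := (dT.pow 2).const_sub 1
  have d2 : DifferentiableAt ℂ (fun w => 1 - ρ w ^ 2 * (1 - T w ^ 2)) z :=
    ((dρ.pow 2).mul d1).const_sub 1
  exact (dρ.mul d1).add (dT.mul (d2.cpow_const h))

private theorem Data_a1_diff {e : ℝ} {c A0 d : ℂ → ℂ} {z : ℂ} (dc : DifferentiableAt ℂ c z)
    (dA : DifferentiableAt ℂ A0 z) (dd : DifferentiableAt ℂ d z) (hc : 1 - c z ≠ 0)
    (h : 1 - d z / (1 - c z) ∈ slitPlane) :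
    DifferentiableAt ℂ (fun w => a1 e (c w) (A0 w) (d w)) z := by
  unfold a1
  have d1 : DifferentiableAt ℂ (fun w => 1 - d w / (1 - c w)) z :=
    (dd.div (dc.const_sub 1) hc).const_sub 1
  exact dA.mul (d1.cpow_const h)

private theorem Data_a1_ne {e : ℝ} {c A0 d : ℂ} (hA : A0 ≠ 0)
    (h : 1 - d / (1 - c) ∈ slitPlane) : a1 e c A0 d ≠ 0 :=
  mul_ne_zero hA (Data_cpow_ne (slitPlane_ne_zero h) _)

private theorem Data_cosh_ne {κ : ℝ} (hκ : 0 < κ) {ζ : ℂ} (h : |ζ.im| < Real.pi / (2 * κ)) :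
    cosh (κ * ζ) ≠ 0 := by
  intro h0
  have := re_cosh_pos hκ h
  rw [h0] at this
  simp at this

private theorem Data_tanh_diff {κ : ℝ} (hκ : 0 < κ) {p : ℂ → ℂ} {z : ℂ}
    (dp : DifferentiableAt ℂ p z) (h : |(p z).im| < Real.pi / (2 * κ)) :
    DifferentiableAt ℂ (fun w => tanh (κ * p w)) z := by
  have e1 : (fun w : ℂ => tanh (κ * p w)) = fun w => sinh (κ * p w) / cosh (κ * p w) := by
    funext w
    rw [tanh_eq_sinh_div_cosh]
  rw [e1]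
  have dκ : DifferentiableAt ℂ (fun w : ℂ => (κ : ℂ) * p w) z := dp.const_mul _
  exact dκ.csinh.div dκ.ccosh (Data_cosh_ne hκ h)

private theorem Data_rad0_diff {e κ : ℝ} (hκ : 0 < κ) {p c A0 d : ℂ → ℂ} {z : ℂ}
    (dp : DifferentiableAt ℂ p z) (dc : DifferentiableAt ℂ c z)
    (dA : DifferentiableAt ℂ A0 z) (dd : DifferentiableAt ℂ d z)
    (hp : |(p z).im| < Real.pi / (2 * κ)) (hc : 1 - c z ≠ 0) (hA : A0 z ≠ 0)
    (h : 1 - d z / (1 - c z) ∈ slitPlane) (hF : c z + d z ∈ slitPlane)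
    (hw : 1 - rho e κ (c z + d z) ^ 2 * (1 - tanh (κ * p z) ^ 2) ∈ slitPlane) :
    DifferentiableAt ℂ (fun w => rad0 e κ (p w) (c w) (A0 w) (d w)) z := by
  unfold rad0
  have da : DifferentiableAt ℂ (fun w => a1 e (c w) (A0 w) (d w)) z :=
    Data_a1_diff dc dA dd hc h
  have hane := Data_a1_ne (e := e) hA h
  have dρ : DifferentiableAt ℂ (fun w => rho e κ (c w + d w)) z :=
    Data_rho_diff hκ (dc.add dd) hF
  have dT := Data_T1_diff (Data_tanh_diff hκ dp hp) dρ hw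
  exact ((((differentiableAt_const 1).div da hane).add (dT.const_mul 2)).div da hane).const_add 1

private theorem Data_step0_diff {e κ : ℝ} (hκ : 0 < κ) {p c A0 d : ℂ → ℂ} {z : ℂ}
    (dp : DifferentiableAt ℂ p z) (dc : DifferentiableAt ℂ c z)
    (dA : DifferentiableAt ℂ A0 z) (dd : DifferentiableAt ℂ d z)
    (hp : |(p z).im| < Real.pi / (2 * κ)) (hc : 1 - c z ≠ 0) (hA : A0 z ≠ 0)
    (h : 1 - d z / (1 - c z) ∈ slitPlane) (hF : c z + d z ∈ slitPlane)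
    (hw : 1 - rho e κ (c z + d z) ^ 2 * (1 - tanh (κ * p z) ^ 2) ∈ slitPlane)
    (hr : rad0 e κ (p z) (c z) (A0 z) (d z) ∈ slitPlane) :
    DifferentiableAt ℂ (fun w => step0 e κ (p w) (c w) (A0 w) (d w)) z := by
  unfold step0
  exact (((Data_rad0_diff hκ dp dc dA dd hp hc hA h hF hw).cpow_const hr).sub_const _).div_const _

private theorem Data_shf_diff {κ : ℝ} (hκ : 0 < κ) {τ : ℂ → ℂ} {z : ℂ}
    (dτ : DifferentiableAt ℂ τ z) (h : 0 < (τ z).re) :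
    DifferentiableAt ℂ (fun w => shf κ (τ w)) z := by
  unfold shf
  exact (dτ.add_const _).div ((dτ.const_mul _).const_add 1) (shf_den hκ h.le)

private theorem Data_fT_diff {e κ : ℝ} (he : 0 < e) (hκ : 0 < κ) {τ : ℂ → ℂ} {z : ℂ}
    (dτ : DifferentiableAt ℂ τ z) (h : 0 < (τ z).re) :
    DifferentiableAt ℂ (fun w => fT e κ (τ w)) z := by
  have h1 : DifferentiableAt ℂ (fT e κ) (τ z) :=
    (differentiableOn_fT he hκ).differentiableAt
      ((isOpen_lt continuous_const continuous_re).mem_nhds h)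
  exact DifferentiableAt.comp (g := fT e κ) z h1 dτ

private theorem Data_fT_slit {e κ : ℝ} (he : 0 < e) (hκ : 0 < κ) {τ : ℂ} (h : 0 < τ.re) :
    fT e κ τ ∈ slitPlane := by
  left
  have := half_lt_re_fT he hκ h
  linarith

private theorem Data_Qk_slit {κ : ℝ} (hκ : 0 < κ) {τ : ℂ} (h : 0 < τ.re) :
    Qk κ τ ∈ slitPlane := by
  left
  exact (Real.cosh_pos κ).trans_le (Qk_re hκ h.le)

private theorem Data_Qk_diff {κ : ℝ} {τ : ℂ → ℂ} {z : ℂ} (dτ : DifferentiableAt ℂ τ z) :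
    DifferentiableAt ℂ (fun w => Qk κ (τ w)) z := by
  unfold Qk
  exact (dτ.const_mul _).const_add _

private theorem Data_aR_ne {e κ : ℝ} (he : 0 < e) (hκ : 0 < κ) {τ η : ℂ} (h : 0 < τ.re)
    (ha : 1 - η / (1 - fT e κ (shf κ τ)) ∈ slitPlane) : aR e κ τ η ≠ 0 := by
  have h1 : 0 < (shf κ τ).re := shf_re hκ h.le
  have h2 : 0 < (shf κ (shf κ τ)).re := shf_re hκ h1.le
  unfold aR
  refine mul_ne_zero (div_ne_zero (mul_ne_zero ?_ ?_) ?_) ?_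
  · exact_mod_cast (Real.rpow_pos_of_pos (Ck_pos hκ) _).ne'
  · exact Data_cpow_ne (slitPlane_ne_zero (Data_fT_slit he hκ h2)) _
  · exact slitPlane_ne_zero (Data_Qk_slit hκ h1)
  · exact Data_cpow_ne (slitPlane_ne_zero ha) _

private theorem Data_aR_diff {e κ : ℝ} (he : 0 < e) (hκ : 0 < κ) {τ η : ℂ → ℂ} {z : ℂ}
    (dτ : DifferentiableAt ℂ τ z) (dη : DifferentiableAt ℂ η z) (h : 0 < (τ z).re)
    (ha : 1 - η z / (1 - fT e κ (shf κ (τ z))) ∈ slitPlane) :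
    DifferentiableAt ℂ (fun w => aR e κ (τ w) (η w)) z := by
  have h1 : 0 < (shf κ (τ z)).re := shf_re hκ h.le
  have h2 : 0 < (shf κ (shf κ (τ z))).re := shf_re hκ h1.le
  have d1 : DifferentiableAt ℂ (fun w => shf κ (τ w)) z := Data_shf_diff hκ dτ h
  have d2 : DifferentiableAt ℂ (fun w => shf κ (shf κ (τ w))) z := Data_shf_diff hκ d1 h1
  have d3 : DifferentiableAt ℂ (fun w => fT e κ (shf κ (shf κ (τ w)))) z :=
    Data_fT_diff he hκ d2 h2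
  have d4 : DifferentiableAt ℂ (fun w => fT e κ (shf κ (τ w))) z := Data_fT_diff he hκ d1 h1
  have d5 : DifferentiableAt ℂ (fun w => 1 - η w / (1 - fT e κ (shf κ (τ w)))) z :=
    (dη.div (d4.const_sub 1) (one_sub_fT_ne he hκ h1)).const_sub 1
  unfold aR
  exact (((d3.cpow_const (Data_fT_slit he hκ h2)).const_mul _).div (Data_Qk_diff d1)
    (slitPlane_ne_zero (Data_Qk_slit hκ h1))).mul (d5.cpow_const ha)

private theorem Data_radR_diff {e κ : ℝ} (he : 0 < e) (hκ : 0 < κ) {τ η : ℂ → ℂ} {z : ℂ}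
    (dτ : DifferentiableAt ℂ τ z) (dη : DifferentiableAt ℂ η z) (h : 0 < (τ z).re)
    (ha : 1 - η z / (1 - fT e κ (shf κ (τ z))) ∈ slitPlane)
    (hF : fT e κ (shf κ (τ z)) + η z ∈ slitPlane) :
    DifferentiableAt ℂ (fun w => radR e κ (τ w) (η w)) z := by
  have h1 : 0 < (shf κ (τ z)).re := shf_re hκ h.le
  have d1 : DifferentiableAt ℂ (fun w => shf κ (τ w)) z := Data_shf_diff hκ dτ h
  have d4 : DifferentiableAt ℂ (fun w => fT e κ (shf κ (τ w))) z := Data_fT_diff he hκ d1 h1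
  have dρ : DifferentiableAt ℂ (fun w => rho e κ (fT e κ (shf κ (τ w)) + η w)) z :=
    Data_rho_diff hκ (d4.add dη) hF
  have da := Data_aR_diff he hκ dτ dη h ha
  have hane := Data_aR_ne he hκ h ha
  have hρne := Data_rho_ne (e := e) hκ hF
  have dQ : DifferentiableAt ℂ (fun w => Qk κ (τ w)) z := Data_Qk_diff dτ
  have hQne : Qk κ (τ z) ^ 2 ≠ 0 := pow_ne_zero 2 (slitPlane_ne_zero (Data_Qk_slit hκ h))
  have dQi : DifferentiableAt ℂ (fun w => 1 - (Qk κ (τ w) ^ 2)⁻¹) z :=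
    ((dQ.pow 2).inv hQne).const_sub 1
  unfold radR
  exact (((((differentiableAt_const 1).div da hane).add dρ).add (dQi.div dρ hρne)).div da
    hane).const_add 1

private theorem Data_stepR_diff {e κ : ℝ} (he : 0 < e) (hκ : 0 < κ) {τ η : ℂ → ℂ} {z : ℂ}
    (dτ : DifferentiableAt ℂ τ z) (dη : DifferentiableAt ℂ η z) (h : 0 < (τ z).re)
    (ha : 1 - η z / (1 - fT e κ (shf κ (τ z))) ∈ slitPlane)
    (hF : fT e κ (shf κ (τ z)) + η z ∈ slitPlane)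
    (hr : radR e κ (τ z) (η z) ∈ slitPlane) :
    DifferentiableAt ℂ (fun w => stepR e κ (τ w) (η w)) z := by
  unfold stepR
  exact (((Data_radR_diff he hκ dτ dη h ha hF).cpow_const hr).sub_const _).div_const _

private theorem Data_Qpow_diff {e κ : ℝ} (hκ : 0 < κ) {τ : ℂ → ℂ} {z : ℂ}
    (dτ : DifferentiableAt ℂ τ z) (h : 0 < (τ z).re) :
    DifferentiableAt ℂ (fun w => Qk κ (τ w) ^ (-(e : ℂ))) z :=
  (Data_Qk_diff dτ).cpow_const (Data_Qk_slit hκ h)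

/-- Positions stay in `Ω`. -/
theorem RData.pos_mem (W : RData e κ) {p : ℂ} (hp : p ∈ W.D) {x : ℕ → ℂ} (hx : ∀ n, ‖x n‖ ≤ 1)
    (n : ℕ) : pos e κ W.c W.A0 W.r0 W.r p x n ∈ W.Ω := by
  induction n with
  | zero => exact W.inv0 p hp (x 0) (hx 0)
  | succ n ih => exact W.inv _ ih (x (n + 1)) (hx (n + 1))

/-- Self-map: `close0`, `close`. -/
theorem RData.maps (W : RData e κ) {p : ℂ} (hp : p ∈ W.D) {x : ℕ → ℂ} (hx : ∀ n, ‖x n‖ ≤ 1)
    (n : ℕ) : ‖Phi e κ W.c W.A0 W.r0 W.r W.M0 W.M p x n‖ ≤ W.θ := by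
  cases n with
  | zero =>
    have h1 := W.close0 p hp (x 0) (x 1) (hx 0) (hx 1) (pos e κ W.c W.A0 W.r0 W.r p x 0) rfl
    have h2 : 0 < ‖W.r0 p‖ := norm_pos_iff.2 (W.r0_ne p hp)
    show ‖(_ : ℂ) / W.r0 p‖ ≤ W.θ
    rw [norm_div, div_le_iff₀ h2]
    exact h1
  | succ n =>
    have hm := W.pos_mem hp hx n
    have h1 := W.close _ hm (x (n + 1)) (x (n + 2)) (hx _) (hx _)
      (pos e κ W.c W.A0 W.r0 W.r p x (n + 1)) rfl
    have h2 : 0 < ‖W.r (pos e κ W.c W.A0 W.r0 W.r p x n)‖ := norm_pos_iff.2 (W.r_ne _ hm)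
    show ‖(_ : ℂ) / W.r (pos e κ W.c W.A0 W.r0 W.r p x n)‖ ≤ W.θ
    rw [norm_div, div_le_iff₀ h2]
    exact h1

/-- Holomorphy: every power is differentiable on the slit plane (`..._slit`), `fT` is
differentiable on the right half plane, which contains `Ω`, `shf Ω`, `shf (shf Ω)`; the
denominators `1 - fT`, `Qk`, `aR`, `rho` do not vanish. -/
theorem RData.hol (he : 1 < e) (hκ : 0 < κ) (W : RData e κ) :
    HolFamilyR W.D (fun _ _ => 1) (Phi e κ W.c W.A0 W.r0 W.r W.M0 W.M) := by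
  intro O t x hO ht hmaps hx hR
  have he0 : 0 < e := by linarith
  -- positions are differentiable
  have hpos : ∀ n, ∀ z ∈ O, DifferentiableAt ℂ
      (fun w => pos e κ W.c W.A0 W.r0 W.r (t w) (x w) n) z := by
    intro n
    induction n with
    | zero =>
      intro z hz
      have hO' := hO.mem_nhds hz
      have dt : DifferentiableAt ℂ t z := ht.differentiableAt hO'
      have dx : DifferentiableAt ℂ (fun w => x w 0) z := (hx 0).differentiableAt hO'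
      have hp := hmaps hz
      have hD := W.isOpen_D.mem_nhds hp
      have dc : DifferentiableAt ℂ (fun w => W.c (t w)) z :=
        DifferentiableAt.comp (g := W.c) z (W.c_diff.differentiableAt hD) dt
      have dA : DifferentiableAt ℂ (fun w => W.A0 (t w)) z :=
        DifferentiableAt.comp (g := W.A0) z (W.A0_diff.differentiableAt hD) dt
      have dr : DifferentiableAt ℂ (fun w => W.r0 (t w)) z :=
        DifferentiableAt.comp (g := W.r0) z (W.r0_diff.differentiableAt hD) dt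
      have hx0 := hR z hz 0
      exact Data_step0_diff hκ dt dc dA (dr.mul dx) (W.D_strip _ hp) (W.c_ne _ hp)
        (W.A0_ne _ hp) (W.a0_slit _ hp _ hx0) (W.F0_slit _ hp _ hx0) (W.w0_slit _ hp _ hx0)
        (W.rad0_slit _ hp _ hx0)
    | succ n ih =>
      intro z hz
      have hO' := hO.mem_nhds hz
      have dx : DifferentiableAt ℂ (fun w => x w (n + 1)) z := (hx _).differentiableAt hO'
      have hm := W.pos_mem (hmaps hz) (hR z hz) n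
      have hxn := hR z hz (n + 1)
      have dr : DifferentiableAt ℂ
          (fun w => W.r (pos e κ W.c W.A0 W.r0 W.r (t w) (x w) n)) z :=
        DifferentiableAt.comp (g := W.r) z (W.r_diff _ hm) (ih z hz)
      exact Data_stepR_diff he0 hκ (ih z hz) (dr.mul dx) (W.Ω_re _ hm) (W.a_slit _ hm _ hxn)
        (W.F_slit _ hm _ hxn) (W.rad_slit _ hm _ hxn)
  intro n z hz
  apply DifferentiableAt.differentiableWithinAt
  have hO' := hO.mem_nhds hz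
  have dt : DifferentiableAt ℂ t z := ht.differentiableAt hO'
  have dx : ∀ k, DifferentiableAt ℂ (fun w => x w k) z := fun k => (hx k).differentiableAt hO'
  have hp := hmaps hz
  have hmem := W.pos_mem hp (hR z hz)
  have dP := fun k => hpos k z hz
  have dr : ∀ k, DifferentiableAt ℂ
      (fun w => W.r (pos e κ W.c W.A0 W.r0 W.r (t w) (x w) k)) z := fun k =>
    DifferentiableAt.comp (g := W.r) z (W.r_diff _ (hmem k)) (dP k)
  have dM : ∀ k, DifferentiableAt ℂ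
      (fun w => W.M (pos e κ W.c W.A0 W.r0 W.r (t w) (x w) k)) z := fun k =>
    DifferentiableAt.comp (g := W.M) z (W.M_diff _ (hmem k)) (dP k)
  have dfT : ∀ k, DifferentiableAt ℂ
      (fun w => fT e κ (pos e κ W.c W.A0 W.r0 W.r (t w) (x w) k)) z := fun k =>
    Data_fT_diff he0 hκ (dP k) (W.Ω_re _ (hmem k))
  have dfTs : ∀ k, DifferentiableAt ℂ
      (fun w => fT e κ (shf κ (pos e κ W.c W.A0 W.r0 W.r (t w) (x w) k))) z := fun k =>
    Data_fT_diff he0 hκ (Data_shf_diff hκ (dP k) (W.Ω_re _ (hmem k)))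
      (shf_re hκ (W.Ω_re _ (hmem k)).le)
  have dQ : ∀ k, DifferentiableAt ℂ
      (fun w => Qk κ (pos e κ W.c W.A0 W.r0 W.r (t w) (x w) k) ^ (-(e : ℂ))) z := fun k =>
    Data_Qpow_diff hκ (dP k) (W.Ω_re _ (hmem k))
  cases n with
  | zero =>
    have hD := W.isOpen_D.mem_nhds hp
    have dc : DifferentiableAt ℂ (fun w => W.c (t w)) z :=
      DifferentiableAt.comp (g := W.c) z (W.c_diff.differentiableAt hD) dt
    have dr0 : DifferentiableAt ℂ (fun w => W.r0 (t w)) z :=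
      DifferentiableAt.comp (g := W.r0) z (W.r0_diff.differentiableAt hD) dt
    have dM0 : DifferentiableAt ℂ (fun w => W.M0 (t w)) z :=
      DifferentiableAt.comp (g := W.M0) z (W.M0_diff.differentiableAt hD) dt
    exact ((dr0.mul (dx 0)).sub (dM0.mul ((dc.add (dr0.mul (dx 0))).sub
      ((dfT 0).sub ((dQ 0).mul ((dr 0).mul (dx 1))))))).div dr0 (W.r0_ne _ hp)
  | succ n =>
    exact (((dr n).mul (dx (n + 1))).sub ((dM n).mul (((dr n).mul (dx (n + 1))).sub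
      (((dfT (n + 1)).sub (dfTs n)).sub
        ((dQ (n + 1)).mul ((dr (n + 1)).mul (dx (n + 2)))))))).div (dr n) (W.r_ne _ (hmem n))

private theorem Data_mem_iff {z : ℂ} : z ∈ (Complex.ofRealHom : ℝ →+* ℂ).fieldRange ↔ z.im = 0 := by
  constructor
  · rintro ⟨r, rfl⟩
    exact ofReal_im r
  · intro h
    exact ⟨z.re, (Data_eq_re h).symm⟩

private theorem Data_node0 (hκ : 0 < κ) (W : RData e κ) {p : ℝ} (hp : (p : ℂ) ∈ W.D)
    {x : ℂ} (hx : ‖x‖ ≤ 1) (hr : x.im = 0) {f : ℝ} (hf : f = (W.c p + W.r0 p * x).re) :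
    W.c p + W.r0 p * x = (f : ℂ) ∧ 0 < f ∧ f < 1 ∧ (Ck e κ * f) ^ (-(1 / e)) < 1 ∧
    0 ≤ 1 - ((Ck e κ * f) ^ (-(1 / e))) ^ 2 * (1 - Real.tanh (κ * p) ^ 2) ∧
    ∃ R : ℝ, 0 < R ∧ rad0 e κ p (W.c p) (W.A0 p) (W.r0 p * x) = (R : ℂ) ∧
      R = 1 + (1 / (Ck e κ * (1 - f)) ^ (1 / e) +
      2 * ((Ck e κ * f) ^ (-(1 / e)) * (1 - Real.tanh (κ * p) ^ 2) +
          Real.tanh (κ * p) * Real.sqrt (1 - ((Ck e κ * f) ^ (-(1 / e))) ^ 2 *
            (1 - Real.tanh (κ * p) ^ 2)))) / (Ck e κ * (1 - f)) ^ (1 / e) := by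
  obtain ⟨hc1, hc2⟩ := W.c_real p hp
  have hc : W.c p = (((W.c p).re : ℝ) : ℂ) := Data_eq_re hc1
  have hdi : (W.r0 p * x).im = 0 := by
    rw [mul_im, hr, W.r0_real p hp]
    ring
  have hd : W.r0 p * x = (((W.r0 p * x).re : ℝ) : ℂ) := Data_eq_re hdi
  have hA := W.A0_real p hp
  have hF := W.F0_slit p hp x hx
  have ha := W.a0_slit p hp x hx
  have hw := W.w0_slit p hp x hx
  have hrad := W.rad0_slit p hp x hx
  have hρ := W.rho_lt p hp x hx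
  have hff : f = (W.c p).re + (W.r0 p * x).re := by rw [hf, add_re]
  rw [hA] at hrad
  rw [hA]
  generalize W.r0 p * x = d at *
  generalize W.c p = c at *
  generalize d.re = d' at *
  generalize c.re = c' at *
  subst hd
  subst hc
  have e0 : (c' : ℂ) + (d' : ℂ) = ((f : ℝ) : ℂ) := by rw [hff, ofReal_add]
  rw [e0] at hF hw hρ
  have hfpos : 0 < f := Data_ofReal_pos hF
  have ha' : 0 < 1 - d' / (1 - c') := by
    apply Data_ofReal_pos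
    push_cast
    exact ha
  rw [Data_rho_real hκ hfpos] at hρ hw
  have hρ0 : 0 < (Ck e κ * f) ^ (-(1 / e)) :=
    Real.rpow_pos_of_pos (mul_pos (Ck_pos hκ) hfpos) _
  have hρ1 : (Ck e κ * f) ^ (-(1 / e)) < 1 := by
    rw [Complex.norm_real, Real.norm_of_nonneg hρ0.le] at hρ
    exact hρ
  have hw' : 0 ≤ 1 - ((Ck e κ * f) ^ (-(1 / e))) ^ 2 * (1 - Real.tanh (κ * p) ^ 2) := by
    apply le_of_lt
    apply Data_ofReal_pos
    rw [Data_tanh_real] at hw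
    push_cast
    push_cast at hw
    exact hw
  have h1 := Data_a1_real (e := e) hκ hc2 ha'
  have h2 := Data_rad0_real (e := e) hκ (p := p) hc2 ha' (by rw [← hff]; exact hfpos)
    (by rw [← hff]; exact hw')
  rw [← hff] at h1 h2
  refine ⟨e0, hfpos, by linarith [h1.1], hρ1, hw', _, ?_, h2, rfl⟩
  rw [h2] at hrad
  exact Data_ofReal_pos hrad

private theorem Data_link (he : 0 < e) (hκ : 0 < κ) (W : RData e κ) {τ : ℝ} (hτ : (τ : ℂ) ∈ W.Ω)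
    {x : ℂ} (hx : ‖x‖ ≤ 1) (hr : x.im = 0) {f : ℝ}
    (hf : f = (fT e κ (shf κ τ) + W.r τ * x).re) :
    fT e κ (shf κ τ) + W.r τ * x = (f : ℂ) ∧ 0 < f ∧ f < 1 ∧
    ∃ R : ℝ, 0 < R ∧ radR e κ τ (W.r τ * x) = (R : ℂ) ∧
      R = 1 + (1 / (Ck e κ * (1 - f)) ^ (1 / e) +
      (Ck e κ * f) ^ (-(1 / e)) +
        (1 - ((Real.cosh κ + Real.sinh κ * τ) ^ 2)⁻¹) / (Ck e κ * f) ^ (-(1 / e))) /
          (Ck e κ * (1 - f)) ^ (1 / e) := by
  have hτ0 : 0 < τ := by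
    have := W.Ω_re _ hτ
    simpa using this
  have hdi : (W.r τ * x).im = 0 := by
    rw [mul_im, hr, W.r_real τ hτ]
    ring
  have hd : W.r τ * x = (((W.r τ * x).re : ℝ) : ℂ) := Data_eq_re hdi
  have hF := W.F_slit _ hτ x hx
  have ha := W.a_slit _ hτ x hx
  have hrad := W.rad_slit _ hτ x hx
  have hff : f = (fT e κ (shf κ τ)).re + (W.r τ * x).re := by rw [hf, add_re]
  generalize W.r τ * x = d at *
  generalize d.re = d' at *
  subst hd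
  have hs : (shf κ (τ : ℂ)).im = 0 := Data_shf_real κ τ
  have hsr : 0 < (shf κ (τ : ℂ)).re := shf_re hκ (by simpa using hτ0.le)
  have hG : fT e κ (shf κ (τ : ℂ)) = (((fT e κ (shf κ (τ : ℂ))).re : ℝ) : ℂ) := by
    apply Data_eq_re
    rw [Data_eq_re hs]
    exact fT_real he hκ hsr
  have e0 : fT e κ (shf κ (τ : ℂ)) + (d' : ℂ) = ((f : ℝ) : ℂ) := by
    rw [hff, ofReal_add, ← hG]
  rw [e0] at hF
  have hfpos : 0 < f := Data_ofReal_pos hF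
  have ha' : 0 < 1 - d' / (1 - (fT e κ (shf κ (τ : ℂ))).re) := by
    apply Data_ofReal_pos
    rw [ofReal_sub, ofReal_div, ofReal_sub, ofReal_one, ← hG]
    exact ha
  have h1 := (aR_real he hκ hτ0 ha').1
  have h2 := Data_radR_real he hκ hτ0 ha' (by rw [← hff]; exact hfpos)
  rw [← hff] at h2
  refine ⟨e0, hfpos, by linarith, _, ?_, h2, rfl⟩
  rw [h2] at hrad
  exact Data_ofReal_pos hrad

private theorem Data_step_real {κ R : ℝ} (hR : 0 < R) :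
    (((R : ℂ) ^ ((1 / 2 : ℝ) : ℂ) - (Real.cosh κ : ℂ)) / (Real.sinh κ : ℂ)) =
      (((Real.sqrt R - Real.cosh κ) / Real.sinh κ : ℝ) : ℂ) := by
  rw [Data_sqrt_real hR.le, ofReal_div, ofReal_sub]

private theorem Data_Qk_step {κ R : ℝ} (hκ : 0 < κ) :
    Real.cosh κ + Real.sinh κ * ((Real.sqrt R - Real.cosh κ) / Real.sinh κ) = Real.sqrt R := by
  have : 0 < Real.sinh κ := Real.sinh_pos_iff.2 hκ
  field_simp
  ring

private theorem Data_pos_real (he : 0 < e) (hκ : 0 < κ) (W : RData e κ) {p : ℝ}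
    (hp : (p : ℂ) ∈ W.D) {x : ℕ → ℂ} (hx : ∀ n, ‖x n‖ ≤ 1) (hr : ∀ n, (x n).im = 0) (n : ℕ) :
    (pos e κ W.c W.A0 W.r0 W.r p x n).im = 0 := by
  induction n with
  | zero =>
    obtain ⟨-, -, -, -, -, R, hR, h1, -⟩ := Data_node0 hκ W hp (hx 0) (hr 0) rfl
    show (step0 e κ p (W.c p) (W.A0 p) (W.r0 p * x 0)).im = 0
    unfold step0
    rw [h1, Data_step_real hR, ofReal_im]
  | succ n ih =>
    have hm := W.pos_mem hp hx n
    show (stepR e κ (pos e κ W.c W.A0 W.r0 W.r p x n)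
      (W.r (pos e κ W.c W.A0 W.r0 W.r p x n) * x (n + 1))).im = 0
    have h0 := Data_eq_re ih
    generalize pos e κ W.c W.A0 W.r0 W.r p x n = τ at *
    generalize τ.re = τ' at *
    subst h0
    obtain ⟨-, -, -, R, hR, h1, -⟩ := Data_link he hκ W hm (hx (n + 1)) (hr (n + 1)) rfl
    unfold stepR
    rw [h1, Data_step_real hR, ofReal_im]

private theorem Data_Qpow_real {κ τ : ℝ} (hκ : 0 < κ) (hτ : 0 < τ) :
    Qk κ (τ : ℂ) ^ (-(e : ℂ)) = (((Real.cosh κ + Real.sinh κ * τ) ^ (-e) : ℝ) : ℂ) := by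
  have h1 : 0 < Real.cosh κ + Real.sinh κ * τ := by
    have := Real.cosh_pos κ
    have := mul_pos (Real.sinh_pos_iff.2 hκ) hτ
    linarith
  rw [Data_Qk_real, Complex.ofReal_cpow h1.le]
  push_cast
  rfl

/-- Reality for real `p` and real `x`. -/
theorem RData.real (he : 1 < e) (hκ : 0 < κ) (W : RData e κ) {p : ℝ} (hp : (p : ℂ) ∈ W.D)
    {x : ℕ → ℂ} (hx : ∀ n, ‖x n‖ ≤ 1) (hr : ∀ n, (x n).im = 0) (n : ℕ) :
    (pos e κ W.c W.A0 W.r0 W.r p x n).im = 0 ∧ (Phi e κ W.c W.A0 W.r0 W.r W.M0 W.M p x n).im = 0 := by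
  have he0 : 0 < e := by linarith
  have hP := Data_pos_real he0 hκ W hp hx hr
  refine ⟨hP n, ?_⟩
  have hmem := W.pos_mem hp hx
  have hx' : ∀ n, x n ∈ (Complex.ofRealHom : ℝ →+* ℂ).fieldRange := fun n =>
    Data_mem_iff.2 (hr n)
  have hr' : ∀ n, W.r (pos e κ W.c W.A0 W.r0 W.r p x n) ∈
      (Complex.ofRealHom : ℝ →+* ℂ).fieldRange := by
    intro n
    have h1 := hmem n
    rw [Data_eq_re (hP n)] at h1 ⊢
    exact Data_mem_iff.2 (W.r_real _ h1)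
  have hM' : ∀ n, W.M (pos e κ W.c W.A0 W.r0 W.r p x n) ∈
      (Complex.ofRealHom : ℝ →+* ℂ).fieldRange := by
    intro n
    have h1 := hmem n
    rw [Data_eq_re (hP n)] at h1 ⊢
    exact Data_mem_iff.2 (W.M_real _ h1)
  have hfT : ∀ n, fT e κ (pos e κ W.c W.A0 W.r0 W.r p x n) ∈
      (Complex.ofRealHom : ℝ →+* ℂ).fieldRange := by
    intro n
    have h1 := W.Ω_re _ (hmem n)
    rw [Data_eq_re (hP n)]
    exact Data_mem_iff.2 (fT_real he0 hκ h1)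
  have hfTs : ∀ n, fT e κ (shf κ (pos e κ W.c W.A0 W.r0 W.r p x n)) ∈
      (Complex.ofRealHom : ℝ →+* ℂ).fieldRange := by
    intro n
    have h1 := shf_re hκ (W.Ω_re _ (hmem n)).le
    have h2 : (shf κ (pos e κ W.c W.A0 W.r0 W.r p x n)).im = 0 := by
      rw [Data_eq_re (hP n)]
      exact Data_shf_real _ _
    rw [Data_eq_re h2]
    exact Data_mem_iff.2 (fT_real he0 hκ h1)
  have hQ : ∀ n, Qk κ (pos e κ W.c W.A0 W.r0 W.r p x n) ^ (-(e : ℂ)) ∈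
      (Complex.ofRealHom : ℝ →+* ℂ).fieldRange := by
    intro n
    have h1 := W.Ω_re _ (hmem n)
    rw [Data_eq_re (hP n), Data_Qpow_real hκ h1]
    exact Data_mem_iff.2 (ofReal_im _)
  apply Data_mem_iff.1
  cases n with
  | zero =>
    have h1 : W.r0 p ∈ (Complex.ofRealHom : ℝ →+* ℂ).fieldRange :=
      Data_mem_iff.2 (W.r0_real p hp)
    have h2 : W.M0 p ∈ (Complex.ofRealHom : ℝ →+* ℂ).fieldRange :=
      Data_mem_iff.2 (W.M0_real p hp)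
    have h3 : W.c p ∈ (Complex.ofRealHom : ℝ →+* ℂ).fieldRange :=
      Data_mem_iff.2 (W.c_real p hp).1
    exact div_mem (sub_mem (mul_mem h1 (hx' 0)) (mul_mem h2 (sub_mem (add_mem h3
      (mul_mem h1 (hx' 0))) (sub_mem (hfT 0) (mul_mem (hQ 0) (mul_mem (hr' 0) (hx' 1))))))) h1
  | succ n =>
    exact div_mem (sub_mem (mul_mem (hr' n) (hx' (n + 1))) (mul_mem (hM' n) (sub_mem
      (mul_mem (hr' n) (hx' (n + 1))) (sub_mem (sub_mem (hfT (n + 1)) (hfTs n))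
        (mul_mem (hQ (n + 1)) (mul_mem (hr' (n + 1)) (hx' (n + 2)))))))) (hr' n)

/-- `f (n+1)` for a real sequence. -/
noncomputable def fseq (e κ : ℝ) (c A0 r0 r : ℂ → ℂ) (p : ℝ) (x : ℕ → ℂ) : ℕ → ℝ
  | 0 => (c p + r0 p * x 0).re
  | n + 1 => (fT e κ (shf κ (pos e κ c A0 r0 r p x n)) + r (pos e κ c A0 r0 r p x n) * x (n + 1)).re

/-- `Q (n+1)` for a real sequence. -/
noncomputable def Qseq (e κ : ℝ) (c A0 r0 r : ℂ → ℂ) (p : ℝ) (x : ℕ → ℂ) (n : ℕ) : ℝ :=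
  (Qk κ (pos e κ c A0 r0 r p x n)).re

/-- The hypotheses of `orbit_of_f`.  `hlaw 0`: the fixed point equation and `M0 ≠ 0` give
`f 1 = fT (τ 1) - Q^(-e) η 2 = 1 - Q^(-e) (fT (shf τ 1) + η 2)` by `fT_add`; `hlaw (n+1)` the same.
`hQ0`, `hQ`: `Qk (step0 ..) = rad0^(1/2)`, `Qk (stepR ..) = radR^(1/2)`, positive reals, and
`aR_real`, `A0_real` (`a1 = (CC (1-c))^(1/e) (1 - d/(1-c))^(1/e) = (CC (1-c-d))^(1/e)`).
`hf1`: `1 - f n > 0` from `a0_slit`, `a_slit` (real numbers in the slit plane are positive).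
`hlim`: `tend` and `cosh κ + sinh κ = exp κ`. -/
theorem RData.real_hyps (he : 1 < e) (hκ : 0 < κ) (W : RData e κ) {p : ℝ} (hp : (p : ℂ) ∈ W.D)
    {x : ℕ → ℂ} (hx : ∀ n, ‖x n‖ ≤ 1) (hr : ∀ n, (x n).im = 0)
    (hfix : ∀ n, x n = Phi e κ W.c W.A0 W.r0 W.r W.M0 W.M p x n) :
    ∃ fs Qs : ℕ → ℝ, fs = fseq e κ W.c W.A0 W.r0 W.r p x ∧ Qs = Qseq e κ W.c W.A0 W.r0 W.r p x ∧
    (∀ n, 0 < fs n) ∧ (∀ n, fs n < 1) ∧ (∀ n, 0 < Qs n) ∧
    ((Ck e κ * fs 0) ^ (-(1 / e)) < 1) ∧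
    (Qs 0 ^ 2 = 1 + (1 / (Ck e κ * (1 - fs 0)) ^ (1 / e) +
      2 * ((Ck e κ * fs 0) ^ (-(1 / e)) * (1 - Real.tanh (κ * p) ^ 2) +
          Real.tanh (κ * p) * Real.sqrt (1 - ((Ck e κ * fs 0) ^ (-(1 / e))) ^ 2 *
            (1 - Real.tanh (κ * p) ^ 2)))) / (Ck e κ * (1 - fs 0)) ^ (1 / e)) ∧
    (∀ n, Qs (n + 1) ^ 2 = 1 + (1 / (Ck e κ * (1 - fs (n + 1))) ^ (1 / e) +
      (Ck e κ * fs (n + 1)) ^ (-(1 / e)) +
        (1 - (Qs n ^ 2)⁻¹) / (Ck e κ * fs (n + 1)) ^ (-(1 / e))) /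
          (Ck e κ * (1 - fs (n + 1))) ^ (1 / e)) ∧
    (∀ n, 1 - fs n = fs (n + 1) * Qs n ^ (-e)) ∧
    Tendsto Qs atTop (𝓝 (Real.exp κ)) := by
  have he0 : 0 < e := by linarith
  have hP := Data_pos_real he0 hκ W hp hx hr
  have hmem := W.pos_mem hp hx
  obtain ⟨τ, hτ⟩ : ∃ τ : ℕ → ℝ, ∀ n, pos e κ W.c W.A0 W.r0 W.r p x n = ((τ n : ℝ) : ℂ) :=
    ⟨fun n => (pos e κ W.c W.A0 W.r0 W.r p x n).re, fun n => Data_eq_re (hP n)⟩
  have hτΩ : ∀ n, ((τ n : ℝ) : ℂ) ∈ W.Ω := fun n => by rw [← hτ]; exact hmem n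
  have hτ0 : ∀ n, 0 < τ n := fun n => by
    have := W.Ω_re _ (hτΩ n)
    simpa using this
  have hfs0 : fseq e κ W.c W.A0 W.r0 W.r p x 0 = (W.c p + W.r0 p * x 0).re := rfl
  have hfs1 : ∀ n, fseq e κ W.c W.A0 W.r0 W.r p x (n + 1) =
      (fT e κ (shf κ (τ n)) + W.r (τ n) * x (n + 1)).re := fun n => by rw [← hτ n]; rfl
  have hQs : ∀ n, Qseq e κ W.c W.A0 W.r0 W.r p x n = Real.cosh κ + Real.sinh κ * τ n := by
    intro n
    unfold Qseq
    rw [hτ, Data_Qk_real, ofReal_re]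
  have hQpos : ∀ n, 0 < Qseq e κ W.c W.A0 W.r0 W.r p x n := by
    intro n
    rw [hQs]
    have := Real.cosh_pos κ
    have := mul_pos (Real.sinh_pos_iff.2 hκ) (hτ0 n)
    linarith
  obtain ⟨n0a, n0b, n0c, n0d, n0e, R0, hR0, n0f, n0g⟩ := Data_node0 hκ W hp (hx 0) (hr 0) hfs0
  have hL := fun n => Data_link he0 hκ W (hτΩ n) (hx (n + 1)) (hr (n + 1)) (hfs1 n)
  have hpow : ∀ n, Qk κ (τ n : ℂ) ^ (-(e : ℂ)) =
      ((Qseq e κ W.c W.A0 W.r0 W.r p x n ^ (-e) : ℝ) : ℂ) := by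
    intro n
    rw [Data_Qpow_real hκ (hτ0 n), hQs]
  have hadd : ∀ n, fT e κ (τ n : ℂ) + ((Qseq e κ W.c W.A0 W.r0 W.r p x n ^ (-e) : ℝ) : ℂ) *
      fT e κ (shf κ (τ n : ℂ)) = 1 := by
    intro n
    rw [← hpow]
    exact fT_add he0 hκ (W.Ω_re _ (hτΩ n))
  refine ⟨_, _, rfl, rfl, ?_, ?_, hQpos, n0d, ?_, ?_, ?_, ?_⟩
  · intro n
    cases n with
    | zero => exact n0b
    | succ n => exact (hL n).2.1
  · intro n
    cases n with
    | zero => exact n0c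
    | succ n => exact (hL n).2.2.1
  · have h1 : ((τ 0 : ℝ) : ℂ) = (((Real.sqrt R0 - Real.cosh κ) / Real.sinh κ : ℝ) : ℂ) := by
      rw [← hτ 0, ← Data_step_real hR0, ← n0f]
      rfl
    have h2 : τ 0 = (Real.sqrt R0 - Real.cosh κ) / Real.sinh κ := by exact_mod_cast h1
    rw [hQs, h2, Data_Qk_step hκ, Real.sq_sqrt hR0.le]
    exact n0g
  · intro n
    obtain ⟨la, lb, lc, R, hR, lf, lg⟩ := hL n
    have h1 : ((τ (n + 1) : ℝ) : ℂ) = (((Real.sqrt R - Real.cosh κ) / Real.sinh κ : ℝ) : ℂ) := by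
      rw [← hτ (n + 1), ← Data_step_real hR, ← lf, ← hτ n]
      rfl
    have h2 : τ (n + 1) = (Real.sqrt R - Real.cosh κ) / Real.sinh κ := by exact_mod_cast h1
    rw [hQs (n + 1), h2, Data_Qk_step hκ, Real.sq_sqrt hR.le, hQs n]
    exact lg
  · intro n
    have key : (((fseq e κ W.c W.A0 W.r0 W.r p x n : ℝ)) : ℂ) = fT e κ (τ n : ℂ) -
        ((Qseq e κ W.c W.A0 W.r0 W.r p x n ^ (-e) : ℝ) : ℂ) * (W.r (τ n) * x (n + 1)) := by
      cases n with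
      | zero =>
        have h1 := hfix 0
        have h2 : Phi e κ W.c W.A0 W.r0 W.r W.M0 W.M p x 0 =
          (W.r0 p * x 0 - W.M0 p * (W.c p + W.r0 p * x 0 -
            (fT e κ (pos e κ W.c W.A0 W.r0 W.r p x 0) -
            Qk κ (pos e κ W.c W.A0 W.r0 W.r p x 0) ^ (-(e : ℂ)) *
              (W.r (pos e κ W.c W.A0 W.r0 W.r p x 0) * x 1)))) / W.r0 p := rfl
        rw [h2, eq_div_iff (W.r0_ne p hp), hτ 0, hpow 0, n0a] at h1
        have h3 : W.M0 p * ((fseq e κ W.c W.A0 W.r0 W.r p x 0 : ℝ) -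
            (fT e κ (τ 0 : ℂ) - ((Qseq e κ W.c W.A0 W.r0 W.r p x 0 ^ (-e) : ℝ) : ℂ) *
              (W.r (τ 0) * x 1))) = 0 := by linear_combination h1
        have h4 := (mul_eq_zero.1 h3).resolve_left (W.M0_ne p hp)
        rw [sub_eq_zero] at h4
        exact h4
      | succ n =>
        have h1 := hfix (n + 1)
        have h2 : Phi e κ W.c W.A0 W.r0 W.r W.M0 W.M p x (n + 1) =
          (W.r (pos e κ W.c W.A0 W.r0 W.r p x n) * x (n + 1) -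
            W.M (pos e κ W.c W.A0 W.r0 W.r p x n) *
              (W.r (pos e κ W.c W.A0 W.r0 W.r p x n) * x (n + 1) -
            (fT e κ (pos e κ W.c W.A0 W.r0 W.r p x (n + 1)) -
              fT e κ (shf κ (pos e κ W.c W.A0 W.r0 W.r p x n)) -
            Qk κ (pos e κ W.c W.A0 W.r0 W.r p x (n + 1)) ^ (-(e : ℂ)) *
              (W.r (pos e κ W.c W.A0 W.r0 W.r p x (n + 1)) * x (n + 2))))) /
                W.r (pos e κ W.c W.A0 W.r0 W.r p x n) := rfl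
        rw [h2, hτ n, hτ (n + 1), eq_div_iff (W.r_ne _ (hτΩ n)), hpow (n + 1)] at h1
        have h3 : W.M (τ n) * ((fseq e κ W.c W.A0 W.r0 W.r p x (n + 1) : ℝ) -
            (fT e κ (τ (n + 1) : ℂ) -
              ((Qseq e κ W.c W.A0 W.r0 W.r p x (n + 1) ^ (-e) : ℝ) : ℂ) *
              (W.r (τ (n + 1)) * x (n + 2)))) = 0 := by
          rw [← (hL n).1]
          linear_combination h1
        have h4 := (mul_eq_zero.1 h3).resolve_left (W.M_ne _ (hτΩ n))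
        rw [sub_eq_zero] at h4
        exact h4
    have h5 : (((1 - fseq e κ W.c W.A0 W.r0 W.r p x n : ℝ)) : ℂ) =
        ((fseq e κ W.c W.A0 W.r0 W.r p x (n + 1) *
          Qseq e κ W.c W.A0 W.r0 W.r p x n ^ (-e) : ℝ) : ℂ) := by
      rw [ofReal_sub, ofReal_one, key, ofReal_mul, ← (hL n).1]
      linear_combination -(hadd n)
    exact_mod_cast h5
  · have h1 := W.tend p hp x hx hr
    have h2 : Continuous (fun z : ℂ => (Qk κ z).re) := by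
      unfold Qk
      fun_prop
    have h3 := (h2.tendsto 1).comp h1
    have h4 : (Qk κ 1).re = Real.exp κ := by
      unfold Qk
      rw [mul_one, add_re, ofReal_re, ofReal_re, Real.cosh_add_sinh]
    rw [← h4]
    exact h3

/-- **The interface theorem.**  `tr p = sinh (κ p)`, `s p x = Ss e κ p (fseq ..) (Qseq ..)`,
`H p x = H0 e κ p (c p + r0 p * x 0)`. -/
theorem RData.nonempty_seqTrap (he : 1 < e) (hκ : 0 < κ) (W : RData e κ) :
    Nonempty (SeqTrap e (Real.exp κ)) := by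
  have he0 : 0 < e := by linarith
  refine ⟨{
    θ := W.θ
    hθ0 := W.hθ0
    hθ1 := W.hθ1
    D := W.D
    isOpen_D := W.isOpen_D
    R := fun _ _ => 1
    R_pos := fun _ _ _ => one_pos
    R_cont := fun s hs ε hε => Filter.Eventually.of_forall fun t n => by
      constructor <;> linarith
    Φ := Phi e κ W.c W.A0 W.r0 W.r W.M0 W.M
    maps := fun p hp x hx n => by
      rw [mul_one]
      exact W.maps hp hx n
    hol := W.hol he hκ
    real := fun p hp x hx hr n => (W.real he hκ hp hx hr n).2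
    tr := fun p => Real.sinh (κ * p)
    s := fun p x => Ss e κ p (fseq e κ W.c W.A0 W.r0 W.r p x) (Qseq e κ W.c W.A0 W.r0 W.r p x)
    orbit := ?_
    H := fun p x => H0 e κ p (W.c p + W.r0 p * x 0)
    hol_H := ?_
    H_real := ?_
    η := W.η
    hη := W.hη
    seg := W.seg
    δ := 1
    hδ := one_pos
    odd := fun p _ => by rw [mul_neg, Real.sinh_neg]
    test := W.test }⟩
  · intro p hp x hx hr hfix
    obtain ⟨fs, Qs, hfs, hQs, h1, h2, h3, h4, h5, h6, h7, h8⟩ :=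
      W.real_hyps he hκ hp hx hr hfix
    obtain ⟨o1, o2, o3, o4, -⟩ := orbit_of_f he hκ p h1 h2 h3 h4 h5 h6 h7 h8
    subst hfs
    subst hQs
    exact ⟨rfl, o1, o2, o3, o4⟩
  · intro x hx hR z hz
    apply DifferentiableAt.differentiableWithinAt
    have hD := W.isOpen_D.mem_nhds hz
    have hx0 := hR z hz 0
    have dx : DifferentiableAt ℂ (fun w => x w 0) z := (hx 0).differentiableAt hD
    have dF : DifferentiableAt ℂ (fun w => W.c w + W.r0 w * x w 0) z :=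
      (W.c_diff.differentiableAt hD).add ((W.r0_diff.differentiableAt hD).mul dx)
    have dρ := Data_rho_diff (e := e) hκ dF (W.F0_slit z hz _ hx0)
    have dT := Data_T1_diff (Data_tanh_diff hκ differentiableAt_id (W.D_strip z hz)) dρ
      (W.w0_slit z hz _ hx0)
    have dR : DifferentiableAt ℂ (fun w => radH e κ w (W.c w + W.r0 w * x w 0)) z := by
      unfold radH
      exact (((dρ.const_mul 2).mul dT).const_sub 1).add (dρ.pow 2)
    show DifferentiableAt ℂ (fun w => H0 e κ w (W.c w + W.r0 w * x w 0)) z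
    unfold H0
    exact dF.mul (dR.cpow_const (W.radH_slit z hz _ hx0))
  · intro p hp x hx hr hfix
    obtain ⟨fs, Qs, hfs, hQs, h1, h2, h3, h4, h5, h6, h7, h8⟩ :=
      W.real_hyps he hκ hp hx hr hfix
    obtain ⟨-, -, -, -, o5⟩ := orbit_of_f he hκ p h1 h2 h3 h4 h5 h6 h7 h8
    subst hfs
    subst hQs
    have hfs0 : fseq e κ W.c W.A0 W.r0 W.r p x 0 = (W.c p + W.r0 p * x 0).re := rfl
    obtain ⟨n0a, n0b, n0c, n0d, n0e, -⟩ := Data_node0 hκ W hp (hx 0) (hr 0) hfs0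
    have hH := W.radH_slit p hp (x 0) (hx 0)
    show H0 e κ p (W.c p + W.r0 p * x 0) = _
    rw [o5, n0a]
    rw [n0a] at hH
    unfold H0
    have e1 : radH e κ (p : ℂ) ((fseq e κ W.c W.A0 W.r0 W.r p x 0 : ℝ) : ℂ) =
        ((1 - 2 * (Ck e κ * fseq e κ W.c W.A0 W.r0 W.r p x 0) ^ (-(1 / e)) *
        ((Ck e κ * fseq e κ W.c W.A0 W.r0 W.r p x 0) ^ (-(1 / e)) *
          (1 - Real.tanh (κ * p) ^ 2) +
          Real.tanh (κ * p) * Real.sqrt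
            (1 - ((Ck e κ * fseq e κ W.c W.A0 W.r0 W.r p x 0) ^ (-(1 / e))) ^ 2 *
            (1 - Real.tanh (κ * p) ^ 2))) +
          ((Ck e κ * fseq e κ W.c W.A0 W.r0 W.r p x 0) ^ (-(1 / e))) ^ 2 : ℝ) : ℂ) := by
      unfold radH
      rw [Data_rho_real hκ n0b, Data_tanh_real, Data_T1_real n0e]
      push_cast
      rfl
    rw [e1] at hH ⊢
    have hpos := Data_ofReal_pos hH
    rw [← Complex.ofReal_cpow hpos.le, ← ofReal_mul]

end Pool.Agent.helper31.EQ.R
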