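import Pool.Agent.helper31.EQ.R.DefsN

/-!
# EQ-R: the ratio position scheme, index dependent, with free logarithm centres in the law

The law between two nodes is `1 + exp lam = (1 + exp (-lam')) Qk τ ^ e`.  With any centre `c` of the
logarithm it is `lam = c + log (exp (-c) ((1 + exp (-lam')) Qk τ ^ e - 1))`; for `c = Pl τ` this is
`lawL`.
-/

namespace Pool.Agent.helper31.EQ.R

open Complex Pool.Agent.helper31.EQ.Y

noncomputable section

/-- right side of the law, logarithm centred at `c` -/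
def lawC (e κ : ℝ) (c τ lam : ℂ) : ℂ :=
  c + log (exp (-c) * ((1 + exp (-lam)) * Qk κ τ ^ (e : ℂ) - 1))

/-- The sequence map, positions `posN`, preconditioners `M0 p`, `M p n τ`, centres `C p n τ`. -/
def PhiC (e κ : ℝ) (L r0 : ℂ → ℂ) (B r : ℂ → ℕ → ℂ → ℂ) (M0 : ℂ → ℂ) (M C : ℂ → ℕ → ℂ → ℂ)
    (p : ℂ) (x : ℕ → ℂ) : ℕ → ℂ
  | 0 => (r0 p * x 0 - M0 p * (L p + r0 p * x 0 -
      lawC e κ (C p 0 (posN e κ L r0 B r p x 0)) (posN e κ L r0 B r p x 0)
        (B p 0 (posN e κ L r0 B r p x 0) + r p 0 (posN e κ L r0 B r p x 0) * x 1))) / r0 p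
  | n + 1 => (r p n (posN e κ L r0 B r p x n) * x (n + 1) -
      M p n (posN e κ L r0 B r p x n) *
        (B p n (posN e κ L r0 B r p x n) + r p n (posN e κ L r0 B r p x n) * x (n + 1) -
      lawC e κ (C p (n + 1) (posN e κ L r0 B r p x (n + 1))) (posN e κ L r0 B r p x (n + 1))
        (B p (n + 1) (posN e κ L r0 B r p x (n + 1)) +
          r p (n + 1) (posN e κ L r0 B r p x (n + 1)) * x (n + 2)))) /
      r p n (posN e κ L r0 B r p x n)

end

end Pool.Agent.helper31.EQ.R
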