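import Pool.Agent.helper31.EQ.R.DataN
import Pool.Agent.helper31.EQ.R.DefsC

/-!
# EQ-R5: the interface of the ratio position scheme, index dependent, free centres in the law

Proofs: helper59, after the proofs of `R/DataN.lean` (helper88).
-/

namespace Pool.Agent.helper31.EQ.R

open Set Metric Filter Topology Complex Pool.Agent.helper31.EQ.Y

/-- Everything the scheme needs for one pair `(e, κ)`. -/
structure RDataC (e κ : ℝ) where
  θ : ℝ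
  hθ0 : 0 ≤ θ
  hθ1 : θ < 1
  /-- starts `p = ζ 0`, `t 0 = sinh (κ p)` -/
  D : Set ℂ
  isOpen_D : IsOpen D
  D_strip : ∀ p ∈ D, |p.im| < Real.pi / (2 * κ)
  /-- positions `τ` of the link number `n` (`n = 0` is the link from node `1` to node `2`) -/
  Ω : ℂ → ℕ → Set ℂ
  Ω_re : ∀ p ∈ D, ∀ n, ∀ τ ∈ Ω p n, 0 < τ.re
  /-- `lam 1 = L p + r0 p * x 0`, `lam (n+2) = B p n (pos n) + r p n (pos n) * x (n+1)` -/
  L : ℂ → ℂ
  r0 : ℂ → ℂ
  B : ℂ → ℕ → ℂ → ℂ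
  r : ℂ → ℕ → ℂ → ℂ
  /-- preconditioners -/
  M0 : ℂ → ℂ
  M : ℂ → ℕ → ℂ → ℂ
  /-- centre of the logarithm in the law at the link `n` -/
  C : ℂ → ℕ → ℂ → ℂ
  L_diff : DifferentiableOn ℂ L D
  r0_diff : DifferentiableOn ℂ r0 D
  M0_diff : DifferentiableOn ℂ M0 D
  B_diff : ∀ p ∈ D, ∀ n, ∀ τ ∈ Ω p n, DifferentiableAt ℂ (fun q : ℂ × ℂ => B q.1 n q.2) (p, τ)
  r_diff : ∀ p ∈ D, ∀ n, ∀ τ ∈ Ω p n, DifferentiableAt ℂ (fun q : ℂ × ℂ => r q.1 n q.2) (p, τ)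
  M_diff : ∀ p ∈ D, ∀ n, ∀ τ ∈ Ω p n, DifferentiableAt ℂ (fun q : ℂ × ℂ => M q.1 n q.2) (p, τ)
  C_diff : ∀ p ∈ D, ∀ n, ∀ τ ∈ Ω p n, DifferentiableAt ℂ (fun q : ℂ × ℂ => C q.1 n q.2) (p, τ)
  r0_ne : ∀ p ∈ D, r0 p ≠ 0
  r_ne : ∀ p ∈ D, ∀ n, ∀ τ ∈ Ω p n, r p n τ ≠ 0
  M0_ne : ∀ p ∈ D, M0 p ≠ 0
  M_ne : ∀ p ∈ D, ∀ n, ∀ τ ∈ Ω p n, M p n τ ≠ 0
  L_real : ∀ p : ℝ, (p : ℂ) ∈ D → (L p).im = 0
  r0_real : ∀ p : ℝ, (p : ℂ) ∈ D → (r0 p).im = 0
  M0_real : ∀ p : ℝ, (p : ℂ) ∈ D → (M0 p).im = 0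
  B_real : ∀ p : ℝ, (p : ℂ) ∈ D → ∀ n, ∀ τ : ℝ, (τ : ℂ) ∈ Ω p n → (B p n τ).im = 0
  r_real : ∀ p : ℝ, (p : ℂ) ∈ D → ∀ n, ∀ τ : ℝ, (τ : ℂ) ∈ Ω p n → (r p n τ).im = 0
  M_real : ∀ p : ℝ, (p : ℂ) ∈ D → ∀ n, ∀ τ : ℝ, (τ : ℂ) ∈ Ω p n → (M p n τ).im = 0
  C_real : ∀ p : ℝ, (p : ℂ) ∈ D → ∀ n, ∀ τ : ℝ, (τ : ℂ) ∈ Ω p n → (C p n τ).im = 0
  /-- node `0`: all powers are in the slit plane -/
  F0_slit : ∀ p ∈ D, ∀ x : ℂ, ‖x‖ ≤ 1 → 1 + exp (-(L p + r0 p * x)) ∈ slitPlane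
  w0_slit : ∀ p ∈ D, ∀ x : ℂ, ‖x‖ ≤ 1 →
    1 - rhoL e κ (L p + r0 p * x) ^ 2 * (1 - tanh (κ * p) ^ 2) ∈ slitPlane
  rad0_slit : ∀ p ∈ D, ∀ x : ℂ, ‖x‖ ≤ 1 → rad0L e κ p (L p + r0 p * x) ∈ slitPlane
  radH_slit : ∀ p ∈ D, ∀ x : ℂ, ‖x‖ ≤ 1 → radHL e κ p (L p + r0 p * x) ∈ slitPlane
  rho_lt : ∀ p : ℝ, (p : ℂ) ∈ D → ∀ x : ℂ, ‖x‖ ≤ 1 → ‖rhoL e κ (L p + r0 p * x)‖ < 1
  /-- links -/
  F_slit : ∀ p ∈ D, ∀ n, ∀ τ ∈ Ω p n, ∀ x : ℂ, ‖x‖ ≤ 1 →
    1 + exp (-(B p n τ + r p n τ * x)) ∈ slitPlane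
  rad_slit : ∀ p ∈ D, ∀ n, ∀ τ ∈ Ω p n, ∀ x : ℂ, ‖x‖ ≤ 1 →
    radL e κ τ (B p n τ + r p n τ * x) ∈ slitPlane
  law_slit : ∀ p ∈ D, ∀ n, ∀ τ ∈ Ω p n, ∀ x : ℂ, ‖x‖ ≤ 1 →
    exp (-(C p n τ)) * ((1 + exp (-(B p n τ + r p n τ * x))) * Qk κ τ ^ (e : ℂ) - 1) ∈ slitPlane
  /-- invariance -/
  inv0 : ∀ p ∈ D, ∀ x : ℂ, ‖x‖ ≤ 1 → step0L e κ p (L p + r0 p * x) ∈ Ω p 0
  inv : ∀ p ∈ D, ∀ n, ∀ τ ∈ Ω p n, ∀ x : ℂ, ‖x‖ ≤ 1 →
    stepL e κ τ (B p n τ + r p n τ * x) ∈ Ω p (n + 1)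
  /-- closing -/
  close0 : ∀ p ∈ D, ∀ x x' : ℂ, ‖x‖ ≤ 1 → ‖x'‖ ≤ 1 → ∀ τ, τ = step0L e κ p (L p + r0 p * x) →
    ‖r0 p * x - M0 p * (L p + r0 p * x - lawC e κ (C p 0 τ) τ (B p 0 τ + r p 0 τ * x'))‖ ≤
      θ * ‖r0 p‖
  close : ∀ p ∈ D, ∀ n, ∀ τ ∈ Ω p n, ∀ x x' : ℂ, ‖x‖ ≤ 1 → ‖x'‖ ≤ 1 →
    ∀ τ', τ' = stepL e κ τ (B p n τ + r p n τ * x) →
    ‖r p n τ * x - M p n τ * (B p n τ + r p n τ * x -
      lawC e κ (C p (n + 1) τ') τ' (B p (n + 1) τ' + r p (n + 1) τ' * x'))‖ ≤ θ * ‖r p n τ‖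
  /-- real positions converge to `1` -/
  tend : ∀ p : ℝ, (p : ℂ) ∈ D → ∀ x : ℕ → ℂ, (∀ n, ‖x n‖ ≤ 1) → (∀ n, (x n).im = 0) →
    Tendsto (posN e κ L r0 B r p x) atTop (𝓝 1)
  η : ℝ
  hη : 0 < η
  seg : ∀ y : ℝ, |y| ≤ η → ((y : ℂ) * I) ∈ D
  test : ∀ x : ℕ → ℂ, (∀ n, ‖x n‖ ≤ 1) →
    (∀ n, x n = PhiC e κ L r0 B r M0 M C ((η : ℂ) * I) x n) →
    (H0L e κ ((η : ℂ) * I) (L ((η : ℂ) * I) + r0 ((η : ℂ) * I) * x 0)).re ≠ 1 / 2

variable {e κ : ℝ}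

private theorem DataC_real_pos {z : ℂ} (hz : z ∈ slitPlane) (h : z.im = 0) : 0 < z.re := by
  rcases (mem_slitPlane_iff.1 hz) with h1 | h1
  · exact h1
  · exact absurd h h1

private theorem DataC_ofReal_pos {x : ℝ} (hz : (x : ℂ) ∈ slitPlane) : 0 < x := by
  have := DataC_real_pos hz (ofReal_im x)
  simpa using this

private theorem DataC_eq_re {z : ℂ} (h : z.im = 0) : z = ((z.re : ℝ) : ℂ) := by
  apply Complex.ext
  · simp
  · simp [h]

private theorem DataC_T1_real {T ρ : ℝ} (h : 0 ≤ 1 - ρ ^ 2 * (1 - T ^ 2)) :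
    T1 (T : ℂ) (ρ : ℂ) =
      ((ρ * (1 - T ^ 2) + T * Real.sqrt (1 - ρ ^ 2 * (1 - T ^ 2)) : ℝ) : ℂ) := by
  unfold T1
  rw [Real.sqrt_eq_rpow]
  have h1 := Complex.ofReal_cpow h (1 / 2)
  have h2 : ((1 - ρ ^ 2 * (1 - T ^ 2) : ℝ) : ℂ) = 1 - (ρ : ℂ) ^ 2 * (1 - (T : ℂ) ^ 2) := by
    push_cast
    ring
  rw [h2] at h1
  rw [ofReal_add, ofReal_mul, ofReal_mul, h1]
  push_cast
  ring

private theorem DataC_sqrt_real {w : ℝ} (h : 0 ≤ w) :
    (w : ℂ) ^ ((1 / 2 : ℝ) : ℂ) = ((Real.sqrt w : ℝ) : ℂ) := by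
  rw [Real.sqrt_eq_rpow, Complex.ofReal_cpow h]

private theorem DataC_tanh_real (κ p : ℝ) :
    tanh ((κ : ℂ) * (p : ℂ)) = ((Real.tanh (κ * p) : ℝ) : ℂ) := by
  push_cast
  rfl

private theorem DataC_shf_real (κ τ : ℝ) : (shf κ (τ : ℂ)).im = 0 := by
  have : shf κ (τ : ℂ) = (((τ + Real.tanh κ) / (1 + Real.tanh κ * τ) : ℝ) : ℂ) := by
    unfold shf
    push_cast
    rfl
  rw [this, ofReal_im]

private theorem DataC_Qk_real (κ τ : ℝ) :
    Qk κ (τ : ℂ) = ((Real.cosh κ + Real.sinh κ * τ : ℝ) : ℂ) := by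
  unfold Qk
  push_cast
  rfl

private theorem DataC_mul_slit {C : ℝ} (hC : 0 < C) {F : ℂ} (h : F ∈ slitPlane) :
    (C : ℂ) * F ∈ slitPlane := by
  rw [mem_slitPlane_iff] at h ⊢
  rw [re_ofReal_mul, im_ofReal_mul]
  rcases h with h | h
  · exact Or.inl (mul_pos hC h)
  · exact Or.inr (mul_ne_zero hC.ne' h)

private theorem DataC_half_slit {F : ℂ} (h : F ∈ slitPlane) : F / 2 ∈ slitPlane := by
  have h1 := DataC_mul_slit (C := 1 / 2) (by norm_num) h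
  have h2 : ((1 / 2 : ℝ) : ℂ) * F = F / 2 := by
    push_cast
    ring
  rwa [h2] at h1

/-! ### real logits -/

private theorem DataC_f (ℓ : ℝ) {f : ℝ} (hf : f = 1 / (1 + Real.exp (-ℓ))) :
    0 < f ∧ f < 1 ∧ Real.exp ℓ * (1 - f) = f ∧ (1 + Real.exp (-ℓ)) * f = 1 := by
  have h1 := Real.exp_pos (-ℓ)
  have h2 : Real.exp ℓ * Real.exp (-ℓ) = 1 := by
    rw [← Real.exp_add]; simp
  have h3 : (1 + Real.exp (-ℓ)) * f = 1 := by
    rw [hf]; field_simp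
  have hf0 : 0 < f := by rw [hf]; positivity
  refine ⟨hf0, ?_, ?_, h3⟩
  · nlinarith
  · have h4 : 1 - f = Real.exp (-ℓ) * f := by linear_combination -h3
    rw [h4, ← mul_assoc, h2, one_mul]

private theorem DataC_rho_real (he : 0 < e) (hκ : 0 < κ) (ℓ : ℝ) {f : ℝ}
    (hf : f = 1 / (1 + Real.exp (-ℓ))) :
    rhoL e κ (ℓ : ℂ) = (((Ck e κ * f) ^ (-(1 / e)) : ℝ) : ℂ) := by
  obtain ⟨hf0, -, -, h1⟩ := DataC_f ℓ hf
  have hC := Ck_pos (e := e) hκ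
  have hpos : 0 < 1 + Real.exp (-ℓ) := by positivity
  unfold rhoL
  have e1 : ((1 : ℂ) + exp (-(ℓ : ℂ))) / 2 = (((1 + Real.exp (-ℓ)) / 2 : ℝ) : ℂ) := by
    push_cast
    rfl
  rw [e1, ← Complex.ofReal_cpow (by positivity), ← ofReal_mul]
  congr 1
  have e2 : Ck e κ * f = (Ck e κ / 2) * ((1 + Real.exp (-ℓ)) / 2)⁻¹ := by
    have : f = (1 + Real.exp (-ℓ))⁻¹ := by rw [hf, one_div]
    rw [this]
    field_simp
  rw [e2, Real.mul_rpow (by positivity) (by positivity), Real.inv_rpow (by positivity),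
    Real.rpow_neg (x := (1 + Real.exp (-ℓ)) / 2) (by positivity), inv_inv]

private theorem DataC_inv_a (he : 0 < e) (hκ : 0 < κ) (ℓ : ℝ) {f : ℝ}
    (hf : f = 1 / (1 + Real.exp (-ℓ))) :
    1 / (Ck e κ * (1 - f)) ^ (1 / e) = Real.exp (ℓ / e) * (Ck e κ * f) ^ (-(1 / e)) := by
  obtain ⟨hf0, hf1, h1, -⟩ := DataC_f ℓ hf
  have hC := Ck_pos (e := e) hκ
  have h1f : 0 < 1 - f := by linarith
  have e1 : Ck e κ * f = Real.exp ℓ * (Ck e κ * (1 - f)) := by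
    linear_combination -(Ck e κ) * h1
  have e2 : Real.exp ℓ ^ (-(1 / e)) = (Real.exp (ℓ / e))⁻¹ := by
    rw [← Real.exp_mul, ← Real.exp_neg]
    congr 1
    ring
  have h3 := Real.exp_pos (ℓ / e)
  rw [e1, Real.mul_rpow (Real.exp_pos _).le (mul_pos hC h1f).le, e2,
    Real.rpow_neg (mul_pos hC h1f).le]
  field_simp

private theorem DataC_exp_real (ℓ : ℝ) : exp ((ℓ : ℂ) / (e : ℂ)) = ((Real.exp (ℓ / e) : ℝ) : ℂ) := by
  push_cast
  rfl

/-- the real radicand of node `1` -/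
private theorem DataC_rad0_real (he : 0 < e) (hκ : 0 < κ) {p : ℝ} (ℓ : ℝ) {f : ℝ}
    (hf : f = 1 / (1 + Real.exp (-ℓ)))
    (hw : 0 ≤ 1 - ((Ck e κ * f) ^ (-(1 / e))) ^ 2 * (1 - Real.tanh (κ * p) ^ 2)) :
    rad0L e κ (p : ℂ) (ℓ : ℂ) =
      ((1 + (1 / (Ck e κ * (1 - f)) ^ (1 / e) +
      2 * ((Ck e κ * f) ^ (-(1 / e)) * (1 - Real.tanh (κ * p) ^ 2) +
          Real.tanh (κ * p) * Real.sqrt (1 - ((Ck e κ * f) ^ (-(1 / e))) ^ 2 *
            (1 - Real.tanh (κ * p) ^ 2)))) / (Ck e κ * (1 - f)) ^ (1 / e) : ℝ) : ℂ) := by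
  unfold rad0L
  rw [DataC_rho_real he hκ ℓ hf, DataC_tanh_real, DataC_T1_real hw, DataC_exp_real]
  have h1 := DataC_inv_a he hκ ℓ hf
  rw [div_eq_mul_one_div (1 / (Ck e κ * (1 - f)) ^ (1 / e) + _), h1]
  push_cast
  ring

/-- the real radicand of a link -/
private theorem DataC_rad_real (he : 0 < e) (hκ : 0 < κ) {τ : ℝ} (ℓ : ℝ) {f : ℝ}
    (hf : f = 1 / (1 + Real.exp (-ℓ))) :
    radL e κ (τ : ℂ) (ℓ : ℂ) = ((1 + (1 / (Ck e κ * (1 - f)) ^ (1 / e) +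
      (Ck e κ * f) ^ (-(1 / e)) +
        (1 - ((Real.cosh κ + Real.sinh κ * τ) ^ 2)⁻¹) /
          (Ck e κ * f) ^ (-(1 / e))) / (Ck e κ * (1 - f)) ^ (1 / e) : ℝ) : ℂ) := by
  obtain ⟨hf0, hf1, -, -⟩ := DataC_f ℓ hf
  unfold radL
  rw [DataC_rho_real he hκ ℓ hf, DataC_exp_real, DataC_Qk_real]
  have h1 := DataC_inv_a he hκ ℓ hf
  have h2 : 0 < (Ck e κ * f) ^ (-(1 / e)) :=
    Real.rpow_pos_of_pos (mul_pos (Ck_pos hκ) hf0) _
  have h3 : (1 / (Ck e κ * (1 - f)) ^ (1 / e) + (Ck e κ * f) ^ (-(1 / e)) +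
        (1 - ((Real.cosh κ + Real.sinh κ * τ) ^ 2)⁻¹) /
          (Ck e κ * f) ^ (-(1 / e))) / (Ck e κ * (1 - f)) ^ (1 / e) =
      Real.exp (ℓ / e) * (1 - ((Real.cosh κ + Real.sinh κ * τ) ^ 2)⁻¹) +
      Real.exp (ℓ / e) * (Real.exp (ℓ / e) + 1) * ((Ck e κ * f) ^ (-(1 / e))) ^ 2 := by
    rw [div_eq_mul_one_div (1 / (Ck e κ * (1 - f)) ^ (1 / e) + _ + _), h1]
    generalize (Ck e κ * f) ^ (-(1 / e)) = ρ at *
    generalize ((Real.cosh κ + Real.sinh κ * τ) ^ 2)⁻¹ = q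
    generalize Real.exp (ℓ / e) = w
    field_simp
    ring
  rw [h3]
  push_cast
  ring

/-! ### differentiability -/

private theorem DataC_rho_diff {lam : ℂ → ℂ} {z : ℂ}
    (dl : DifferentiableAt ℂ lam z) (h : 1 + exp (-(lam z)) ∈ slitPlane) :
    DifferentiableAt ℂ (fun w => rhoL e κ (lam w)) z := by
  unfold rhoL
  have d1 : DifferentiableAt ℂ (fun w => (1 + exp (-(lam w))) / 2) z :=
    ((dl.neg.cexp).const_add 1).div_const 2
  exact (d1.cpow_const (DataC_half_slit h)).const_mul _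

private theorem DataC_T1_diff {T ρ : ℂ → ℂ} {z : ℂ} (dT : DifferentiableAt ℂ T z)
    (dρ : DifferentiableAt ℂ ρ z) (h : 1 - ρ z ^ 2 * (1 - T z ^ 2) ∈ slitPlane) :
    DifferentiableAt ℂ (fun w => T1 (T w) (ρ w)) z := by
  unfold T1
  have d1 : DifferentiableAt ℂ (fun w => 1 - T w ^ 2) z := (dT.pow 2).const_sub 1
  have d2 : DifferentiableAt ℂ (fun w => 1 - ρ w ^ 2 * (1 - T w ^ 2)) z :=
    ((dρ.pow 2).mul d1).const_sub 1
  exact (dρ.mul d1).add (dT.mul (d2.cpow_const h))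

private theorem DataC_cosh_ne (hκ : 0 < κ) {ζ : ℂ} (h : |ζ.im| < Real.pi / (2 * κ)) :
    cosh (κ * ζ) ≠ 0 := by
  intro h0
  have := re_cosh_pos hκ h
  rw [h0] at this
  simp at this

private theorem DataC_tanh_diff (hκ : 0 < κ) {p : ℂ → ℂ} {z : ℂ}
    (dp : DifferentiableAt ℂ p z) (h : |(p z).im| < Real.pi / (2 * κ)) :
    DifferentiableAt ℂ (fun w => tanh (κ * p w)) z := by
  have e1 : (fun w : ℂ => tanh (κ * p w)) = fun w => sinh (κ * p w) / cosh (κ * p w) := by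
    funext w
    rw [tanh_eq_sinh_div_cosh]
  rw [e1]
  have dκ : DifferentiableAt ℂ (fun w : ℂ => (κ : ℂ) * p w) z := dp.const_mul _
  exact dκ.csinh.div dκ.ccosh (DataC_cosh_ne hκ h)

private theorem DataC_expdiv_diff {lam : ℂ → ℂ} {z : ℂ} (dl : DifferentiableAt ℂ lam z) :
    DifferentiableAt ℂ (fun w => exp (lam w / (e : ℂ))) z :=
  (dl.div_const _).cexp

private theorem DataC_step0_diff (hκ : 0 < κ) {p lam : ℂ → ℂ} {z : ℂ}
    (dp : DifferentiableAt ℂ p z) (dl : DifferentiableAt ℂ lam z)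
    (hp : |(p z).im| < Real.pi / (2 * κ)) (h : 1 + exp (-(lam z)) ∈ slitPlane)
    (hw : 1 - rhoL e κ (lam z) ^ 2 * (1 - tanh (κ * p z) ^ 2) ∈ slitPlane)
    (hr : rad0L e κ (p z) (lam z) ∈ slitPlane) :
    DifferentiableAt ℂ (fun w => step0L e κ (p w) (lam w)) z := by
  have dρ : DifferentiableAt ℂ (fun w => rhoL e κ (lam w)) z := DataC_rho_diff dl h
  have dT := DataC_T1_diff (DataC_tanh_diff hκ dp hp) dρ hw
  have dE : DifferentiableAt ℂ (fun w => exp (lam w / (e : ℂ))) z := DataC_expdiv_diff dl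
  have dR : DifferentiableAt ℂ (fun w => rad0L e κ (p w) (lam w)) z := by
    unfold rad0L
    exact ((dE.mul dρ).mul ((dE.mul dρ).add (dT.const_mul 2))).const_add 1
  unfold step0L
  exact ((dR.cpow_const hr).sub_const _).div_const _

private theorem DataC_shf_diff (hκ : 0 < κ) {τ : ℂ → ℂ} {z : ℂ}
    (dτ : DifferentiableAt ℂ τ z) (h : 0 < (τ z).re) :
    DifferentiableAt ℂ (fun w => shf κ (τ w)) z := by
  unfold shf
  exact (dτ.add_const _).div ((dτ.const_mul _).const_add 1) (shf_den hκ h.le)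

private theorem DataC_fT_diff (he : 0 < e) (hκ : 0 < κ) {τ : ℂ → ℂ} {z : ℂ}
    (dτ : DifferentiableAt ℂ τ z) (h : 0 < (τ z).re) :
    DifferentiableAt ℂ (fun w => fT e κ (τ w)) z := by
  have h1 : DifferentiableAt ℂ (fT e κ) (τ z) :=
    (differentiableOn_fT he hκ).differentiableAt
      ((isOpen_lt continuous_const continuous_re).mem_nhds h)
  exact DifferentiableAt.comp (g := fT e κ) z h1 dτ

private theorem DataC_fT_slit (he : 0 < e) (hκ : 0 < κ) {τ : ℂ} (h : 0 < τ.re) :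
    fT e κ τ ∈ slitPlane := by
  left
  have := half_lt_re_fT he hκ h
  linarith

private theorem DataC_Qk_slit (hκ : 0 < κ) {τ : ℂ} (h : 0 < τ.re) :
    Qk κ τ ∈ slitPlane := by
  left
  exact (Real.cosh_pos κ).trans_le (Qk_re hκ h.le)

private theorem DataC_Qk_diff {τ : ℂ → ℂ} {z : ℂ} (dτ : DifferentiableAt ℂ τ z) :
    DifferentiableAt ℂ (fun w => Qk κ (τ w)) z := by
  unfold Qk
  exact (dτ.const_mul _).const_add _

private theorem DataC_step_diff (hκ : 0 < κ) {τ lam : ℂ → ℂ} {z : ℂ}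
    (dτ : DifferentiableAt ℂ τ z) (dl : DifferentiableAt ℂ lam z) (h0 : 0 < (τ z).re)
    (h : 1 + exp (-(lam z)) ∈ slitPlane)
    (hr : radL e κ (τ z) (lam z) ∈ slitPlane) :
    DifferentiableAt ℂ (fun w => stepL e κ (τ w) (lam w)) z := by
  have dρ : DifferentiableAt ℂ (fun w => rhoL e κ (lam w)) z := DataC_rho_diff dl h
  have dE : DifferentiableAt ℂ (fun w => exp (lam w / (e : ℂ))) z := DataC_expdiv_diff dl
  have hQne : Qk κ (τ z) ^ 2 ≠ 0 := pow_ne_zero 2 (slitPlane_ne_zero (DataC_Qk_slit hκ h0))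
  have dQ : DifferentiableAt ℂ (fun w => Qk κ (τ w)) z := DataC_Qk_diff dτ
  have dQi : DifferentiableAt ℂ (fun w => 1 - (Qk κ (τ w) ^ 2)⁻¹) z :=
    ((dQ.pow 2).inv hQne).const_sub 1
  have dR : DifferentiableAt ℂ (fun w => radL e κ (τ w) (lam w)) z := by
    unfold radL
    exact ((dE.mul dQi).const_add 1).add ((dE.mul (dE.add_const 1)).mul (dρ.pow 2))
  unfold stepL
  exact ((dR.cpow_const hr).sub_const _).div_const _

private theorem DataC_Pl_diff (he : 0 < e) (hκ : 0 < κ) {τ : ℂ → ℂ} {z : ℂ}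
    (dτ : DifferentiableAt ℂ τ z) (h : 0 < (τ z).re) :
    DifferentiableAt ℂ (fun w => Pl e κ (τ w)) z := by
  have h1 : 0 < (shf κ (τ z)).re := shf_re hκ h.le
  unfold Pl
  exact (((DataC_fT_diff he hκ dτ h).clog (DataC_fT_slit he hκ h)).sub
    ((DataC_fT_diff he hκ (DataC_shf_diff hκ dτ h) h1).clog (DataC_fT_slit he hκ h1))).add
    (((DataC_Qk_diff dτ).clog (DataC_Qk_slit hκ h)).const_mul _)

/-- `exp (-Pl τ) ((1 + exp (-lam)) Qk^e - 1) = 1 + β (exp (Pl (shf τ) - lam) - 1)` (the computation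
of `law_exp`), so for the centre `Pl τ` the law is `lawL`. -/
theorem lawC_arg_Pl (he : 0 < e) (hκ : 0 < κ) {τ : ℂ} (lam : ℂ) (h : 0 < τ.re) :
    exp (-(Pl e κ τ)) * ((1 + exp (-lam)) * Qk κ τ ^ (e : ℂ) - 1) =
      1 + betaL e κ τ * (exp (Pl e κ (shf κ τ) - lam) - 1) := by
  have h1 : 0 < (shf κ τ).re := shf_re hκ h.le
  have hF := slitPlane_ne_zero (DataC_fT_slit he hκ h)
  have hQ := slitPlane_ne_zero (DataC_Qk_slit hκ h)
  have hadd := fT_add he hκ h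
  have hP1 := exp_Pl he hκ h
  have hP2 := exp_Pl he hκ h1
  have hne := one_sub_fT_ne he hκ h
  have hexp : exp (Pl e κ (shf κ τ) - lam) = exp (Pl e κ (shf κ τ)) * exp (-lam) := by
    rw [sub_eq_add_neg (Pl e κ (shf κ τ)), exp_add]
  have hQe : Qk κ τ ^ (e : ℂ) ≠ 0 := by
    rw [cpow_def_of_ne_zero hQ]
    exact exp_ne_zero _
  have hGQ : fT e κ (shf κ τ) = (1 - fT e κ τ) * Qk κ τ ^ (e : ℂ) := by
    have e1 : 1 - fT e κ τ = Qk κ τ ^ (-(e : ℂ)) * fT e κ (shf κ τ) := by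
      linear_combination -hadd
    rw [e1, cpow_neg]
    field_simp
  have hβ : betaL e κ τ * fT e κ τ = 1 - fT e κ (shf κ τ) := by
    unfold betaL
    field_simp
  rw [hexp]
  have key : exp (Pl e κ τ) * (1 + betaL e κ τ * (exp (Pl e κ (shf κ τ)) * exp (-lam) - 1)) *
      (1 - fT e κ τ) = fT e κ τ + fT e κ (shf κ τ) * exp (-lam) - (1 - fT e κ (shf κ τ)) := by
    calc exp (Pl e κ τ) * (1 + betaL e κ τ * (exp (Pl e κ (shf κ τ)) * exp (-lam) - 1)) *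
          (1 - fT e κ τ) = (exp (Pl e κ τ) * (1 - fT e κ τ)) *
          (1 + betaL e κ τ * (exp (Pl e κ (shf κ τ)) * exp (-lam) - 1)) := by ring
      _ = fT e κ τ + (betaL e κ τ * fT e κ τ) *
          (exp (Pl e κ (shf κ τ)) * exp (-lam) - 1) := by rw [hP1]; ring
      _ = fT e κ τ + (exp (Pl e κ (shf κ τ)) * (1 - fT e κ (shf κ τ))) * exp (-lam) -
          (1 - fT e κ (shf κ τ)) := by rw [hβ]; ring
      _ = _ := by rw [hP2]
  have hfin : ((1 + exp (-lam)) * Qk κ τ ^ (e : ℂ) - 1) * (1 - fT e κ τ) =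
      (exp (Pl e κ τ) * (1 + betaL e κ τ * (exp (Pl e κ (shf κ τ)) * exp (-lam) - 1))) *
      (1 - fT e κ τ) := by
    linear_combination -key - (1 + exp (-lam)) * hGQ
  have hE := mul_right_cancel₀ hne hfin
  rw [hE, ← mul_assoc, ← exp_add, neg_add_cancel, exp_zero, one_mul]

theorem lawC_Pl (he : 0 < e) (hκ : 0 < κ) {τ : ℂ} (lam : ℂ) (h : 0 < τ.re) :
    lawC e κ (Pl e κ τ) τ lam = lawL e κ τ lam := by
  unfold lawC lawL
  rw [lawC_arg_Pl he hκ lam h]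

/-- If `lam = lawC c τ lam'` and the argument of the logarithm is not `0`, then
`1 + exp lam = (1 + exp (-lam')) Qk^e`. -/
theorem lawC_exp {τ c lam lam' : ℂ}
    (hs : exp (-c) * ((1 + exp (-lam')) * Qk κ τ ^ (e : ℂ) - 1) ≠ 0)
    (hl : lam = lawC e κ c τ lam') :
    1 + exp lam = (1 + exp (-lam')) * Qk κ τ ^ (e : ℂ) := by
  rw [hl, lawC, exp_add, exp_log hs, ← mul_assoc, ← exp_add, add_neg_cancel, exp_zero, one_mul]
  ring

private theorem DataC_law_diff (hκ : 0 < κ) {c τ lam : ℂ → ℂ} {z : ℂ}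
    (dc : DifferentiableAt ℂ c z)
    (dτ : DifferentiableAt ℂ τ z) (dl : DifferentiableAt ℂ lam z) (h : 0 < (τ z).re)
    (hs : exp (-(c z)) * ((1 + exp (-(lam z))) * Qk κ (τ z) ^ (e : ℂ) - 1) ∈ slitPlane) :
    DifferentiableAt ℂ (fun w => lawC e κ (c w) (τ w) (lam w)) z := by
  have dQ : DifferentiableAt ℂ (fun w => Qk κ (τ w) ^ (e : ℂ)) z :=
    (DataC_Qk_diff dτ).cpow_const (DataC_Qk_slit hκ h)
  have d1 : DifferentiableAt ℂ
      (fun w => exp (-(c w)) * ((1 + exp (-(lam w))) * Qk κ (τ w) ^ (e : ℂ) - 1)) z :=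
    (dc.neg.cexp).mul ((((dl.neg.cexp).const_add 1).mul dQ).sub_const 1)
  unfold lawC
  exact dc.add (d1.clog hs)

/-- Positions stay in `Ω`. -/
private theorem DataC_pos_mem (W : RDataC e κ) {p : ℂ} (hp : p ∈ W.D) {x : ℕ → ℂ}
    (hx : ∀ n, ‖x n‖ ≤ 1) (n : ℕ) : posN e κ W.L W.r0 W.B W.r p x n ∈ W.Ω p n := by
  induction n with
  | zero => exact W.inv0 p hp (x 0) (hx 0)
  | succ n ih => exact W.inv p hp n _ ih (x (n + 1)) (hx (n + 1))

/-- Self-map: `close0`, `close`. -/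
private theorem DataC_maps (W : RDataC e κ) {p : ℂ} (hp : p ∈ W.D) {x : ℕ → ℂ}
    (hx : ∀ n, ‖x n‖ ≤ 1) (n : ℕ) : ‖PhiC e κ W.L W.r0 W.B W.r W.M0 W.M W.C p x n‖ ≤ W.θ := by
  cases n with
  | zero =>
    have h1 := W.close0 p hp (x 0) (x 1) (hx 0) (hx 1) (posN e κ W.L W.r0 W.B W.r p x 0) rfl
    have h2 : 0 < ‖W.r0 p‖ := norm_pos_iff.2 (W.r0_ne p hp)
    show ‖(_ : ℂ) / W.r0 p‖ ≤ W.θ
    rw [norm_div, div_le_iff₀ h2]
    exact h1
  | succ n =>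
    have hm := DataC_pos_mem W hp hx n
    have h1 := W.close p hp n _ hm (x (n + 1)) (x (n + 2)) (hx _) (hx _)
      (posN e κ W.L W.r0 W.B W.r p x (n + 1)) rfl
    have h2 : 0 < ‖W.r p n (posN e κ W.L W.r0 W.B W.r p x n)‖ :=
      norm_pos_iff.2 (W.r_ne p hp n _ hm)
    show ‖(_ : ℂ) / W.r p n (posN e κ W.L W.r0 W.B W.r p x n)‖ ≤ W.θ
    rw [norm_div, div_le_iff₀ h2]
    exact h1

private theorem DataC_comp_diff {g : ℂ → ℕ → ℂ → ℂ} {k : ℕ} {t τ : ℂ → ℂ} {z : ℂ}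
    (dg : DifferentiableAt ℂ (fun q : ℂ × ℂ => g q.1 k q.2) (t z, τ z))
    (dt : DifferentiableAt ℂ t z) (dτ : DifferentiableAt ℂ τ z) :
    DifferentiableAt ℂ (fun w => g (t w) k (τ w)) z :=
  DifferentiableAt.comp (g := fun q : ℂ × ℂ => g q.1 k q.2) (f := fun w => (t w, τ w)) z dg
    (dt.prodMk dτ)

private theorem DataC_hol (he : 1 < e) (hκ : 0 < κ) (W : RDataC e κ) :
    HolFamilyR W.D (fun _ _ => 1) (PhiC e κ W.L W.r0 W.B W.r W.M0 W.M W.C) := by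
  intro O t x hO ht hmaps hx hR
  have he0 : 0 < e := by linarith
  -- positions are differentiable
  have hpos : ∀ n, ∀ z ∈ O, DifferentiableAt ℂ
      (fun w => posN e κ W.L W.r0 W.B W.r (t w) (x w) n) z := by
    intro n
    induction n with
    | zero =>
      intro z hz
      have hO' := hO.mem_nhds hz
      have dt : DifferentiableAt ℂ t z := ht.differentiableAt hO'
      have dx : DifferentiableAt ℂ (fun w => x w 0) z := (hx 0).differentiableAt hO'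
      have hp := hmaps hz
      have hD := W.isOpen_D.mem_nhds hp
      have dL : DifferentiableAt ℂ (fun w => W.L (t w)) z :=
        DifferentiableAt.comp (g := W.L) z (W.L_diff.differentiableAt hD) dt
      have dr : DifferentiableAt ℂ (fun w => W.r0 (t w)) z :=
        DifferentiableAt.comp (g := W.r0) z (W.r0_diff.differentiableAt hD) dt
      have hx0 := hR z hz 0
      exact DataC_step0_diff hκ dt (dL.add (dr.mul dx)) (W.D_strip _ hp)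
        (W.F0_slit _ hp _ hx0) (W.w0_slit _ hp _ hx0) (W.rad0_slit _ hp _ hx0)
    | succ n ih =>
      intro z hz
      have hO' := hO.mem_nhds hz
      have dt : DifferentiableAt ℂ t z := ht.differentiableAt hO'
      have dx : DifferentiableAt ℂ (fun w => x w (n + 1)) z := (hx _).differentiableAt hO'
      have hp := hmaps hz
      have hm := DataC_pos_mem W hp (hR z hz) n
      have hxn := hR z hz (n + 1)
      have dr : DifferentiableAt ℂ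
          (fun w => W.r (t w) n (posN e κ W.L W.r0 W.B W.r (t w) (x w) n)) z :=
        DataC_comp_diff (g := W.r) (W.r_diff _ hp n _ hm) dt (ih z hz)
      have dB : DifferentiableAt ℂ
          (fun w => W.B (t w) n (posN e κ W.L W.r0 W.B W.r (t w) (x w) n)) z :=
        DataC_comp_diff (g := W.B) (W.B_diff _ hp n _ hm) dt (ih z hz)
      exact DataC_step_diff hκ (ih z hz) (dB.add (dr.mul dx)) (W.Ω_re _ hp n _ hm)
        (W.F_slit _ hp n _ hm _ hxn) (W.rad_slit _ hp n _ hm _ hxn)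
  intro n z hz
  apply DifferentiableAt.differentiableWithinAt
  have hO' := hO.mem_nhds hz
  have dt : DifferentiableAt ℂ t z := ht.differentiableAt hO'
  have dx : ∀ k, DifferentiableAt ℂ (fun w => x w k) z := fun k => (hx k).differentiableAt hO'
  have hp := hmaps hz
  have hmem := DataC_pos_mem W hp (hR z hz)
  have dP := fun k => hpos k z hz
  have dr : ∀ k, DifferentiableAt ℂ
      (fun w => W.r (t w) k (posN e κ W.L W.r0 W.B W.r (t w) (x w) k)) z := fun k =>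
    DataC_comp_diff (g := W.r) (W.r_diff _ hp k _ (hmem k)) dt (dP k)
  have dB : ∀ k, DifferentiableAt ℂ
      (fun w => W.B (t w) k (posN e κ W.L W.r0 W.B W.r (t w) (x w) k)) z := fun k =>
    DataC_comp_diff (g := W.B) (W.B_diff _ hp k _ (hmem k)) dt (dP k)
  have dM : ∀ k, DifferentiableAt ℂ
      (fun w => W.M (t w) k (posN e κ W.L W.r0 W.B W.r (t w) (x w) k)) z := fun k =>
    DataC_comp_diff (g := W.M) (W.M_diff _ hp k _ (hmem k)) dt (dP k)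
  have dC : ∀ k, DifferentiableAt ℂ
      (fun w => W.C (t w) k (posN e κ W.L W.r0 W.B W.r (t w) (x w) k)) z := fun k =>
    DataC_comp_diff (g := W.C) (W.C_diff _ hp k _ (hmem k)) dt (dP k)
  have dlaw : ∀ k, DifferentiableAt ℂ
      (fun w => lawC e κ (W.C (t w) k (posN e κ W.L W.r0 W.B W.r (t w) (x w) k))
        (posN e κ W.L W.r0 W.B W.r (t w) (x w) k)
        (W.B (t w) k (posN e κ W.L W.r0 W.B W.r (t w) (x w) k) +
          W.r (t w) k (posN e κ W.L W.r0 W.B W.r (t w) (x w) k) * x w (k + 1))) z := fun k =>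
    DataC_law_diff hκ (dC k) (dP k) ((dB k).add ((dr k).mul (dx (k + 1))))
      (W.Ω_re _ hp k _ (hmem k))
      (W.law_slit _ hp k _ (hmem k) _ (hR z hz (k + 1)))
  cases n with
  | zero =>
    have hD := W.isOpen_D.mem_nhds hp
    have dL : DifferentiableAt ℂ (fun w => W.L (t w)) z :=
      DifferentiableAt.comp (g := W.L) z (W.L_diff.differentiableAt hD) dt
    have dr0 : DifferentiableAt ℂ (fun w => W.r0 (t w)) z :=
      DifferentiableAt.comp (g := W.r0) z (W.r0_diff.differentiableAt hD) dt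
    have dM0 : DifferentiableAt ℂ (fun w => W.M0 (t w)) z :=
      DifferentiableAt.comp (g := W.M0) z (W.M0_diff.differentiableAt hD) dt
    exact ((dr0.mul (dx 0)).sub (dM0.mul ((dL.add (dr0.mul (dx 0))).sub (dlaw 0)))).div dr0
      (W.r0_ne _ hp)
  | succ n =>
    exact (((dr n).mul (dx (n + 1))).sub ((dM n).mul (((dB n).add ((dr n).mul (dx (n + 1)))).sub
      (dlaw (n + 1))))).div (dr n) (W.r_ne _ hp n _ (hmem n))

private theorem DataC_mem_iff {z : ℂ} :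
    z ∈ (Complex.ofRealHom : ℝ →+* ℂ).fieldRange ↔ z.im = 0 := by
  constructor
  · rintro ⟨r, rfl⟩
    exact ofReal_im r
  · intro h
    exact ⟨z.re, (DataC_eq_re h).symm⟩

private theorem DataC_exp_mem {z : ℂ} (h : z ∈ (Complex.ofRealHom : ℝ →+* ℂ).fieldRange) :
    exp z ∈ (Complex.ofRealHom : ℝ →+* ℂ).fieldRange := by
  obtain ⟨r, rfl⟩ := h
  refine ⟨Real.exp r, ?_⟩
  simp

private theorem DataC_log_mem {z : ℂ} (h : z ∈ (Complex.ofRealHom : ℝ →+* ℂ).fieldRange)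
    (hs : z ∈ slitPlane) : log z ∈ (Complex.ofRealHom : ℝ →+* ℂ).fieldRange := by
  obtain ⟨r, rfl⟩ := h
  have hr : 0 < r := DataC_ofReal_pos hs
  refine ⟨Real.log r, ?_⟩
  simp only [Complex.ofRealHom_eq_coe]
  rw [Complex.ofReal_log hr.le]

private theorem DataC_fT_mem (he : 0 < e) (hκ : 0 < κ) {z : ℂ} (h : 0 < z.re) (hz : z.im = 0) :
    fT e κ z ∈ (Complex.ofRealHom : ℝ →+* ℂ).fieldRange := by
  apply DataC_mem_iff.2
  rw [DataC_eq_re hz]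
  exact fT_real he hκ h

private theorem DataC_shf_mem {z : ℂ} (hz : z.im = 0) : (shf κ z).im = 0 := by
  rw [DataC_eq_re hz]
  exact DataC_shf_real _ _

private theorem DataC_Pl_mem (he : 0 < e) (hκ : 0 < κ) {z : ℂ} (h : 0 < z.re) (hz : z.im = 0) :
    Pl e κ z ∈ (Complex.ofRealHom : ℝ →+* ℂ).fieldRange := by
  have h1 : 0 < (shf κ z).re := shf_re hκ h.le
  unfold Pl
  have hQ : Qk κ z ∈ (Complex.ofRealHom : ℝ →+* ℂ).fieldRange := by
    apply DataC_mem_iff.2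
    rw [DataC_eq_re hz, DataC_Qk_real, ofReal_im]
  exact add_mem (sub_mem (DataC_log_mem (DataC_fT_mem he hκ h hz) (DataC_fT_slit he hκ h))
    (DataC_log_mem (DataC_fT_mem he hκ h1 (DataC_shf_mem hz)) (DataC_fT_slit he hκ h1)))
    (mul_mem (DataC_mem_iff.2 (ofReal_im e)) (DataC_log_mem hQ (DataC_Qk_slit hκ h)))

private theorem DataC_law_mem (hκ : 0 < κ) {c z lam : ℂ} (h : 0 < z.re)
    (hz : z.im = 0) (hc : c ∈ (Complex.ofRealHom : ℝ →+* ℂ).fieldRange)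
    (hl : lam ∈ (Complex.ofRealHom : ℝ →+* ℂ).fieldRange)
    (hs : exp (-c) * ((1 + exp (-lam)) * Qk κ z ^ (e : ℂ) - 1) ∈ slitPlane) :
    lawC e κ c z lam ∈ (Complex.ofRealHom : ℝ →+* ℂ).fieldRange := by
  have hone : (1 : ℂ) ∈ (Complex.ofRealHom : ℝ →+* ℂ).fieldRange := one_mem _
  have hQ : Qk κ z ^ (e : ℂ) ∈ (Complex.ofRealHom : ℝ →+* ℂ).fieldRange := by
    have h1 := DataC_Qk_slit hκ h
    rw [DataC_eq_re hz, DataC_Qk_real] at h1 ⊢
    have h2 := DataC_ofReal_pos h1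
    rw [← Complex.ofReal_cpow h2.le]
    exact DataC_mem_iff.2 (ofReal_im _)
  unfold lawC
  exact add_mem hc (DataC_log_mem (mul_mem (DataC_exp_mem (neg_mem hc)) (sub_mem (mul_mem
    (add_mem hone (DataC_exp_mem (neg_mem hl))) hQ) hone)) hs)

private theorem DataC_node0 (he : 0 < e) (hκ : 0 < κ) (W : RDataC e κ) {p : ℝ}
    (hp : (p : ℂ) ∈ W.D) {x : ℂ} (hx : ‖x‖ ≤ 1) (hr : x.im = 0) {f : ℝ}
    (hf : f = 1 / (1 + Real.exp (-(W.L p + W.r0 p * x).re))) :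
    W.L p + W.r0 p * x = (((W.L p + W.r0 p * x).re : ℝ) : ℂ) ∧ 0 < f ∧ f < 1 ∧
    (Ck e κ * f) ^ (-(1 / e)) < 1 ∧
    0 ≤ 1 - ((Ck e κ * f) ^ (-(1 / e))) ^ 2 * (1 - Real.tanh (κ * p) ^ 2) ∧
    ∃ R : ℝ, 0 < R ∧ rad0L e κ p (W.L p + W.r0 p * x) = (R : ℂ) ∧
      R = 1 + (1 / (Ck e κ * (1 - f)) ^ (1 / e) +
      2 * ((Ck e κ * f) ^ (-(1 / e)) * (1 - Real.tanh (κ * p) ^ 2) +
          Real.tanh (κ * p) * Real.sqrt (1 - ((Ck e κ * f) ^ (-(1 / e))) ^ 2 *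
            (1 - Real.tanh (κ * p) ^ 2)))) / (Ck e κ * (1 - f)) ^ (1 / e) := by
  have hdi : (W.L p + W.r0 p * x).im = 0 := by
    rw [add_im, mul_im, hr, W.r0_real p hp, W.L_real p hp]
    ring
  have e0 := DataC_eq_re hdi
  have hw := W.w0_slit p hp x hx
  have hrad := W.rad0_slit p hp x hx
  have hρ := W.rho_lt p hp x hx
  generalize W.L p + W.r0 p * x = lam at *
  generalize lam.re = ℓ at *
  subst e0
  obtain ⟨hf0, hf1, -, -⟩ := DataC_f ℓ hf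
  rw [DataC_rho_real he hκ ℓ hf] at hρ hw
  have hρ0 : 0 < (Ck e κ * f) ^ (-(1 / e)) :=
    Real.rpow_pos_of_pos (mul_pos (Ck_pos hκ) hf0) _
  have hρ1 : (Ck e κ * f) ^ (-(1 / e)) < 1 := by
    rw [Complex.norm_real, Real.norm_of_nonneg hρ0.le] at hρ
    exact hρ
  have hw' : 0 ≤ 1 - ((Ck e κ * f) ^ (-(1 / e))) ^ 2 * (1 - Real.tanh (κ * p) ^ 2) := by
    apply le_of_lt
    apply DataC_ofReal_pos
    rw [DataC_tanh_real] at hw
    push_cast
    push_cast at hw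
    exact hw
  have h2 := DataC_rad0_real he hκ (p := p) ℓ hf hw'
  refine ⟨rfl, hf0, hf1, hρ1, hw', _, ?_, h2, rfl⟩
  rw [h2] at hrad
  exact DataC_ofReal_pos hrad

private theorem DataC_link (he : 0 < e) (hκ : 0 < κ) (W : RDataC e κ) {p : ℝ}
    (hp : (p : ℂ) ∈ W.D) {n : ℕ} {τ : ℝ}
    (hτ : (τ : ℂ) ∈ W.Ω p n) {x : ℂ} (hx : ‖x‖ ≤ 1) (hr : x.im = 0) {f : ℝ}
    (hf : f = 1 / (1 + Real.exp (-(W.B p n τ + W.r p n τ * x).re))) :
    W.B p n τ + W.r p n τ * x = (((W.B p n τ + W.r p n τ * x).re : ℝ) : ℂ) ∧ 0 < f ∧ f < 1 ∧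
    ∃ R : ℝ, 0 < R ∧ radL e κ τ (W.B p n τ + W.r p n τ * x) = (R : ℂ) ∧
      R = 1 + (1 / (Ck e κ * (1 - f)) ^ (1 / e) +
      (Ck e κ * f) ^ (-(1 / e)) +
        (1 - ((Real.cosh κ + Real.sinh κ * τ) ^ 2)⁻¹) / (Ck e κ * f) ^ (-(1 / e))) /
          (Ck e κ * (1 - f)) ^ (1 / e) := by
  have hdi : (W.B p n τ + W.r p n τ * x).im = 0 := by
    rw [add_im, mul_im, hr, W.r_real p hp n τ hτ, W.B_real p hp n τ hτ]
    ring
  have e0 := DataC_eq_re hdi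
  have hrad := W.rad_slit p hp n _ hτ x hx
  generalize W.B p n τ + W.r p n τ * x = lam at *
  generalize lam.re = ℓ at *
  subst e0
  obtain ⟨hf0, hf1, -, -⟩ := DataC_f ℓ hf
  have h2 := DataC_rad_real he hκ (τ := τ) ℓ hf
  refine ⟨rfl, hf0, hf1, _, ?_, h2, rfl⟩
  rw [h2] at hrad
  exact DataC_ofReal_pos hrad

private theorem DataC_step_real {κ R : ℝ} (hR : 0 < R) :
    (((R : ℂ) ^ ((1 / 2 : ℝ) : ℂ) - (Real.cosh κ : ℂ)) / (Real.sinh κ : ℂ)) =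
      (((Real.sqrt R - Real.cosh κ) / Real.sinh κ : ℝ) : ℂ) := by
  rw [DataC_sqrt_real hR.le, ofReal_div, ofReal_sub]

private theorem DataC_Qk_step {κ R : ℝ} (hκ : 0 < κ) :
    Real.cosh κ + Real.sinh κ * ((Real.sqrt R - Real.cosh κ) / Real.sinh κ) = Real.sqrt R := by
  have : 0 < Real.sinh κ := Real.sinh_pos_iff.2 hκ
  field_simp
  ring

private theorem DataC_pos_real (he : 0 < e) (hκ : 0 < κ) (W : RDataC e κ) {p : ℝ}
    (hp : (p : ℂ) ∈ W.D) {x : ℕ → ℂ} (hx : ∀ n, ‖x n‖ ≤ 1) (hr : ∀ n, (x n).im = 0) (n : ℕ) :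
    (posN e κ W.L W.r0 W.B W.r p x n).im = 0 := by
  induction n with
  | zero =>
    obtain ⟨-, -, -, -, -, R, hR, h1, -⟩ := DataC_node0 he hκ W hp (hx 0) (hr 0) rfl
    show (step0L e κ p (W.L p + W.r0 p * x 0)).im = 0
    unfold step0L
    rw [h1, DataC_step_real hR, ofReal_im]
  | succ n ih =>
    have hm := DataC_pos_mem W hp hx n
    show (stepL e κ (posN e κ W.L W.r0 W.B W.r p x n)
      (W.B p n (posN e κ W.L W.r0 W.B W.r p x n) +
        W.r p n (posN e κ W.L W.r0 W.B W.r p x n) * x (n + 1))).im = 0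
    have h0 := DataC_eq_re ih
    generalize posN e κ W.L W.r0 W.B W.r p x n = τ at *
    generalize τ.re = τ' at *
    subst h0
    obtain ⟨-, -, -, R, hR, h1, -⟩ := DataC_link he hκ W hp hm (hx (n + 1)) (hr (n + 1)) rfl
    unfold stepL
    rw [h1, DataC_step_real hR, ofReal_im]

/-- Reality for real `p` and real `x`. -/
private theorem DataC_real (he : 1 < e) (hκ : 0 < κ) (W : RDataC e κ) {p : ℝ}
    (hp : (p : ℂ) ∈ W.D)
    {x : ℕ → ℂ} (hx : ∀ n, ‖x n‖ ≤ 1) (hr : ∀ n, (x n).im = 0) (n : ℕ) :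
    (PhiC e κ W.L W.r0 W.B W.r W.M0 W.M W.C p x n).im = 0 := by
  have he0 : 0 < e := by linarith
  have hP := DataC_pos_real he0 hκ W hp hx hr
  have hmem := DataC_pos_mem W hp hx
  have hx' : ∀ n, x n ∈ (Complex.ofRealHom : ℝ →+* ℂ).fieldRange := fun n =>
    DataC_mem_iff.2 (hr n)
  have hr' : ∀ n, W.r p n (posN e κ W.L W.r0 W.B W.r p x n) ∈
      (Complex.ofRealHom : ℝ →+* ℂ).fieldRange := by
    intro n
    have h1 := hmem n
    rw [DataC_eq_re (hP n)] at h1 ⊢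
    exact DataC_mem_iff.2 (W.r_real p hp n _ h1)
  have hB' : ∀ n, W.B p n (posN e κ W.L W.r0 W.B W.r p x n) ∈
      (Complex.ofRealHom : ℝ →+* ℂ).fieldRange := by
    intro n
    have h1 := hmem n
    rw [DataC_eq_re (hP n)] at h1 ⊢
    exact DataC_mem_iff.2 (W.B_real p hp n _ h1)
  have hM' : ∀ n, W.M p n (posN e κ W.L W.r0 W.B W.r p x n) ∈
      (Complex.ofRealHom : ℝ →+* ℂ).fieldRange := by
    intro n
    have h1 := hmem n
    rw [DataC_eq_re (hP n)] at h1 ⊢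
    exact DataC_mem_iff.2 (W.M_real p hp n _ h1)
  have hC' : ∀ n, W.C p n (posN e κ W.L W.r0 W.B W.r p x n) ∈
      (Complex.ofRealHom : ℝ →+* ℂ).fieldRange := by
    intro n
    have h1 := hmem n
    rw [DataC_eq_re (hP n)] at h1 ⊢
    exact DataC_mem_iff.2 (W.C_real p hp n _ h1)
  have hlaw : ∀ n, lawC e κ (W.C p n (posN e κ W.L W.r0 W.B W.r p x n))
      (posN e κ W.L W.r0 W.B W.r p x n)
      (W.B p n (posN e κ W.L W.r0 W.B W.r p x n) +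
        W.r p n (posN e κ W.L W.r0 W.B W.r p x n) * x (n + 1)) ∈
      (Complex.ofRealHom : ℝ →+* ℂ).fieldRange := fun n =>
    DataC_law_mem hκ (W.Ω_re p hp n _ (hmem n)) (hP n) (hC' n)
      (add_mem (hB' n) (mul_mem (hr' n) (hx' (n + 1))))
      (W.law_slit p hp n _ (hmem n) _ (hx (n + 1)))
  apply DataC_mem_iff.1
  cases n with
  | zero =>
    have h1 : W.r0 p ∈ (Complex.ofRealHom : ℝ →+* ℂ).fieldRange :=
      DataC_mem_iff.2 (W.r0_real p hp)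
    have h2 : W.M0 p ∈ (Complex.ofRealHom : ℝ →+* ℂ).fieldRange :=
      DataC_mem_iff.2 (W.M0_real p hp)
    have h3 : W.L p ∈ (Complex.ofRealHom : ℝ →+* ℂ).fieldRange :=
      DataC_mem_iff.2 (W.L_real p hp)
    exact div_mem (sub_mem (mul_mem h1 (hx' 0)) (mul_mem h2 (sub_mem (add_mem h3
      (mul_mem h1 (hx' 0))) (hlaw 0)))) h1
  | succ n =>
    exact div_mem (sub_mem (mul_mem (hr' n) (hx' (n + 1))) (mul_mem (hM' n) (sub_mem
      (add_mem (hB' n) (mul_mem (hr' n) (hx' (n + 1)))) (hlaw (n + 1))))) (hr' n)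

/-- `f (n+1)` for a real sequence. -/
private noncomputable def DataC_fseq (L r0 : ℂ → ℂ) (B r : ℂ → ℕ → ℂ → ℂ) (e κ : ℝ) (p : ℝ) (x : ℕ → ℂ) : ℕ → ℝ
  | 0 => 1 / (1 + Real.exp (-(L p + r0 p * x 0).re))
  | n + 1 => 1 / (1 + Real.exp (-(B p n (posN e κ L r0 B r p x n) +
      r p n (posN e κ L r0 B r p x n) * x (n + 1)).re))

/-- `Q (n+1)` for a real sequence. -/
private noncomputable def DataC_Qseq (L r0 : ℂ → ℂ) (B r : ℂ → ℕ → ℂ → ℂ) (e κ : ℝ) (p : ℝ) (x : ℕ → ℂ) (n : ℕ) : ℝ :=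
  (Qk κ (posN e κ L r0 B r p x n)).re

/-- The hypotheses of `orbit_of_f`.  For real `lam` and `fs = 1/(1+exp(-lam))`:
`(Ck fs)^(-1/e) = rhoL lam` (real), `(Ck (1 - fs))^(1/e) = 1/(exp (lam/e) * rhoL lam)`.
`hlaw`: `law_exp` (the fixed point equation and `M ≠ 0` give `lam = lawL ..`), in the form
`1/(1-fs) = 1 + exp lam`.  `hQ0`, `hQ`: `Qk (step0L ..) = rad0L^(1/2)`, `Qk (stepL ..) = radL^(1/2)`,
positive reals.  `hlim`: `tend` and `cosh κ + sinh κ = exp κ`. -/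
private theorem DataC_real_hyps (he : 1 < e) (hκ : 0 < κ) (W : RDataC e κ) {p : ℝ} (hp : (p : ℂ) ∈ W.D)
    {x : ℕ → ℂ} (hx : ∀ n, ‖x n‖ ≤ 1) (hr : ∀ n, (x n).im = 0)
    (hfix : ∀ n, x n = PhiC e κ W.L W.r0 W.B W.r W.M0 W.M W.C p x n) :
    ∃ fs Qs : ℕ → ℝ, fs = DataC_fseq W.L W.r0 W.B W.r e κ p x ∧
    Qs = DataC_Qseq W.L W.r0 W.B W.r e κ p x ∧
    (∀ n, 0 < fs n) ∧ (∀ n, fs n < 1) ∧ (∀ n, 0 < Qs n) ∧
    ((Ck e κ * fs 0) ^ (-(1 / e)) < 1) ∧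
    (Qs 0 ^ 2 = 1 + (1 / (Ck e κ * (1 - fs 0)) ^ (1 / e) +
      2 * ((Ck e κ * fs 0) ^ (-(1 / e)) * (1 - Real.tanh (κ * p) ^ 2) +
          Real.tanh (κ * p) * Real.sqrt (1 - ((Ck e κ * fs 0) ^ (-(1 / e))) ^ 2 *
            (1 - Real.tanh (κ * p) ^ 2)))) / (Ck e κ * (1 - fs 0)) ^ (1 / e)) ∧
    (∀ n, Qs (n + 1) ^ 2 = 1 + (1 / (Ck e κ * (1 - fs (n + 1))) ^ (1 / e) +
      (Ck e κ * fs (n + 1)) ^ (-(1 / e)) +
        (1 - (Qs n ^ 2)⁻¹) / (Ck e κ * fs (n + 1)) ^ (-(1 / e))) /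
          (Ck e κ * (1 - fs (n + 1))) ^ (1 / e)) ∧
    (∀ n, 1 - fs n = fs (n + 1) * Qs n ^ (-e)) ∧
    Tendsto Qs atTop (𝓝 (Real.exp κ)) := by
  have he0 : 0 < e := by linarith
  have hP := DataC_pos_real he0 hκ W hp hx hr
  have hmem := DataC_pos_mem W hp hx
  obtain ⟨τ, hτ⟩ : ∃ τ : ℕ → ℝ, ∀ n, posN e κ W.L W.r0 W.B W.r p x n = ((τ n : ℝ) : ℂ) :=
    ⟨fun n => (posN e κ W.L W.r0 W.B W.r p x n).re, fun n => DataC_eq_re (hP n)⟩
  have hτΩ : ∀ n, ((τ n : ℝ) : ℂ) ∈ W.Ω p n := fun n => by rw [← hτ]; exact hmem n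
  have hτ0 : ∀ n, 0 < τ n := fun n => by
    have := W.Ω_re p hp n _ (hτΩ n)
    simpa using this
  have hfs0 : DataC_fseq W.L W.r0 W.B W.r e κ p x 0 =
      1 / (1 + Real.exp (-(W.L p + W.r0 p * x 0).re)) := rfl
  have hfs1 : ∀ n, DataC_fseq W.L W.r0 W.B W.r e κ p x (n + 1) =
      1 / (1 + Real.exp (-(W.B p n (τ n) + W.r p n (τ n) * x (n + 1)).re)) := fun n => by
    rw [← hτ n]; rfl
  have hQs : ∀ n, DataC_Qseq W.L W.r0 W.B W.r e κ p x n = Real.cosh κ + Real.sinh κ * τ n := by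
    intro n
    unfold DataC_Qseq
    rw [hτ, DataC_Qk_real, ofReal_re]
  have hQpos : ∀ n, 0 < DataC_Qseq W.L W.r0 W.B W.r e κ p x n := by
    intro n
    rw [hQs]
    have := Real.cosh_pos κ
    have := mul_pos (Real.sinh_pos_iff.2 hκ) (hτ0 n)
    linarith
  obtain ⟨n0a, n0b, n0c, n0d, n0e, R0, hR0, n0f, n0g⟩ :=
    DataC_node0 he0 hκ W hp (hx 0) (hr 0) hfs0
  have hL := fun n => DataC_link he0 hκ W hp (hτΩ n) (hx (n + 1)) (hr (n + 1)) (hfs1 n)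
  refine ⟨_, _, rfl, rfl, ?_, ?_, hQpos, n0d, ?_, ?_, ?_, ?_⟩
  · intro n
    cases n with
    | zero => exact n0b
    | succ n => exact (hL n).2.1
  · intro n
    cases n with
    | zero => exact n0c
    | succ n => exact (hL n).2.2.1
  · have h1 : ((τ 0 : ℝ) : ℂ) = (((Real.sqrt R0 - Real.cosh κ) / Real.sinh κ : ℝ) : ℂ) := by
      rw [← hτ 0, ← DataC_step_real hR0, ← n0f]
      rfl
    have h2 : τ 0 = (Real.sqrt R0 - Real.cosh κ) / Real.sinh κ := by exact_mod_cast h1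
    rw [hQs, h2, DataC_Qk_step hκ, Real.sq_sqrt hR0.le]
    exact n0g
  · intro n
    obtain ⟨la, lb, lc, R, hR, lf, lg⟩ := hL n
    have h1 : ((τ (n + 1) : ℝ) : ℂ) = (((Real.sqrt R - Real.cosh κ) / Real.sinh κ : ℝ) : ℂ) := by
      rw [← hτ (n + 1), ← DataC_step_real hR, ← lf, ← hτ n]
      rfl
    have h2 : τ (n + 1) = (Real.sqrt R - Real.cosh κ) / Real.sinh κ := by exact_mod_cast h1
    rw [hQs (n + 1), h2, DataC_Qk_step hκ, Real.sq_sqrt hR.le, hQs n]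
    exact lg
  · intro n
    -- the real logits
    obtain ⟨ℓ, hℓ, hℓf⟩ : ∃ ℓ : ℝ, (DataC_fseq W.L W.r0 W.B W.r e κ p x n = 1 / (1 + Real.exp (-ℓ))) ∧
        (ℓ : ℂ) = lawC e κ (W.C p n (τ n)) (τ n)
          (W.B p n (τ n) + W.r p n (τ n) * x (n + 1)) := by
      cases n with
      | zero =>
        refine ⟨(W.L p + W.r0 p * x 0).re, hfs0, ?_⟩
        have h1 := hfix 0
        have h2 : PhiC e κ W.L W.r0 W.B W.r W.M0 W.M W.C p x 0 =
          (W.r0 p * x 0 - W.M0 p * (W.L p + W.r0 p * x 0 -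
            lawC e κ (W.C p 0 (posN e κ W.L W.r0 W.B W.r p x 0)) (posN e κ W.L W.r0 W.B W.r p x 0)
              (W.B p 0 (posN e κ W.L W.r0 W.B W.r p x 0) +
                W.r p 0 (posN e κ W.L W.r0 W.B W.r p x 0) * x 1))) / W.r0 p := rfl
        rw [h2, eq_div_iff (W.r0_ne p hp), hτ 0] at h1
        have h3 : W.M0 p * (W.L p + W.r0 p * x 0 -
            lawC e κ (W.C p 0 (τ 0)) (τ 0) (W.B p 0 (τ 0) + W.r p 0 (τ 0) * x 1)) = 0 := by linear_combination h1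
        have h4 := (mul_eq_zero.1 h3).resolve_left (W.M0_ne p hp)
        rw [sub_eq_zero] at h4
        rw [← n0a]
        exact h4
      | succ n =>
        refine ⟨(W.B p n (τ n) + W.r p n (τ n) * x (n + 1)).re, hfs1 n, ?_⟩
        have h1 := hfix (n + 1)
        have h2 : PhiC e κ W.L W.r0 W.B W.r W.M0 W.M W.C p x (n + 1) =
          (W.r p n (posN e κ W.L W.r0 W.B W.r p x n) * x (n + 1) -
            W.M p n (posN e κ W.L W.r0 W.B W.r p x n) *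
              (W.B p n (posN e κ W.L W.r0 W.B W.r p x n) +
                W.r p n (posN e κ W.L W.r0 W.B W.r p x n) * x (n + 1) -
            lawC e κ (W.C p (n + 1) (posN e κ W.L W.r0 W.B W.r p x (n + 1)))
              (posN e κ W.L W.r0 W.B W.r p x (n + 1))
              (W.B p (n + 1) (posN e κ W.L W.r0 W.B W.r p x (n + 1)) +
                W.r p (n + 1) (posN e κ W.L W.r0 W.B W.r p x (n + 1)) * x (n + 2)))) /
              W.r p n (posN e κ W.L W.r0 W.B W.r p x n) := rfl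
        rw [h2, hτ n, hτ (n + 1), eq_div_iff (W.r_ne p hp n _ (hτΩ n))] at h1
        have h3 : W.M p n (τ n) * (W.B p n (τ n) + W.r p n (τ n) * x (n + 1) -
            lawC e κ (W.C p (n + 1) (τ (n + 1))) (τ (n + 1)) (W.B p (n + 1) (τ (n + 1)) + W.r p (n + 1) (τ (n + 1)) * x (n + 2))) = 0 := by
          linear_combination h1
        have h4 := (mul_eq_zero.1 h3).resolve_left (W.M_ne p hp n _ (hτΩ n))
        rw [sub_eq_zero] at h4
        rw [← (hL n).1]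
        exact h4
    have hre := W.Ω_re p hp n _ (hτΩ n)
    have h5 := lawC_exp (slitPlane_ne_zero (W.law_slit p hp n _ (hτΩ n) _ (hx (n + 1)))) hℓf
    rw [(hL n).1] at h5
    have h6 := hfs1 n
    generalize (W.B p n (τ n) + W.r p n (τ n) * x (n + 1)).re = ℓ' at h5 h6
    have hQp := hQpos n
    rw [hQs n] at hQp
    have h7 : 1 + Real.exp ℓ = (1 + Real.exp (-ℓ')) *
        (Real.cosh κ + Real.sinh κ * τ n) ^ e := by
      rw [DataC_Qk_real, ← Complex.ofReal_cpow hQp.le] at h5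
      exact_mod_cast h5
    obtain ⟨a1, a2, a3, a4⟩ := DataC_f ℓ hℓ
    obtain ⟨b1, b2, b3, b4⟩ := DataC_f ℓ' h6
    have hQe := Real.rpow_pos_of_pos hQp e
    rw [hQs n, Real.rpow_neg hQp.le, ← div_eq_mul_inv, eq_div_iff hQe.ne']
    generalize (Real.cosh κ + Real.sinh κ * τ n) ^ e = q at *
    generalize DataC_fseq W.L W.r0 W.B W.r e κ p x n = f at *
    generalize DataC_fseq W.L W.r0 W.B W.r e κ p x (n + 1) = f' at *
    have h8 : (1 + Real.exp ℓ) * (1 - f) = 1 := by linear_combination a3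
    have h9 : (1 + Real.exp (-ℓ')) * q * (1 - f) = 1 := by rw [← h7]; exact h8
    have h10 : f' = q * (1 - f) := by
      calc f' = f' * 1 := (mul_one _).symm
        _ = f' * ((1 + Real.exp (-ℓ')) * q * (1 - f)) := by rw [h9]
        _ = ((1 + Real.exp (-ℓ')) * f') * (q * (1 - f)) := by ring
        _ = q * (1 - f) := by rw [b4, one_mul]
    rw [h10]
    ring
  · have h1 := W.tend p hp x hx hr
    have h2 : Continuous (fun z : ℂ => (Qk κ z).re) := by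
      unfold Qk
      fun_prop
    have h3 := (h2.tendsto 1).comp h1
    have h4 : (Qk κ 1).re = Real.exp κ := by
      unfold Qk
      rw [mul_one, add_re, ofReal_re, ofReal_re, Real.cosh_add_sinh]
    rw [← h4]
    exact h3

/-- **The interface theorem.**  Same proof as `RDataN.nonempty_seqTrap` with `lawC` for `lawL`
(`Qk κ τ ^ e` is differentiable since `Re Qk ≥ cosh κ > 0`). -/
theorem RDataC.nonempty_seqTrap (he : 1 < e) (hκ : 0 < κ) (W : RDataC e κ) :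
    Nonempty (SeqTrap e (Real.exp κ)) := by
  have he0 : 0 < e := by linarith
  refine ⟨{
    θ := W.θ
    hθ0 := W.hθ0
    hθ1 := W.hθ1
    D := W.D
    isOpen_D := W.isOpen_D
    R := fun _ _ => 1
    R_pos := fun _ _ _ => one_pos
    R_cont := fun s hs ε hε => Filter.Eventually.of_forall fun t n => by
      constructor <;> linarith
    Φ := PhiC e κ W.L W.r0 W.B W.r W.M0 W.M W.C
    maps := fun p hp x hx n => by
      rw [mul_one]
      exact DataC_maps W hp hx n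
    hol := DataC_hol he hκ W
    real := fun p hp x hx hr n => DataC_real he hκ W hp hx hr n
    tr := fun p => Real.sinh (κ * p)
    s := fun p x => Ss e κ p (DataC_fseq W.L W.r0 W.B W.r e κ p x) (DataC_Qseq W.L W.r0 W.B W.r e κ p x)
    orbit := ?_
    H := fun p x => H0L e κ p (W.L p + W.r0 p * x 0)
    hol_H := ?_
    H_real := ?_
    η := W.η
    hη := W.hη
    seg := W.seg
    δ := 1
    hδ := one_pos
    odd := fun p _ => by rw [mul_neg, Real.sinh_neg]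
    test := W.test }⟩
  · intro p hp x hx hr hfix
    obtain ⟨fs, Qs, hfs, hQs, h1, h2, h3, h4, h5, h6, h7, h8⟩ :=
      DataC_real_hyps he hκ W hp hx hr hfix
    obtain ⟨o1, o2, o3, o4, -⟩ := orbit_of_f he hκ p h1 h2 h3 h4 h5 h6 h7 h8
    subst hfs
    subst hQs
    exact ⟨rfl, o1, o2, o3, o4⟩
  · intro x hx hR z hz
    apply DifferentiableAt.differentiableWithinAt
    have hD := W.isOpen_D.mem_nhds hz
    have hx0 := hR z hz 0
    have dx : DifferentiableAt ℂ (fun w => x w 0) z := (hx 0).differentiableAt hD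
    have dF : DifferentiableAt ℂ (fun w => W.L w + W.r0 w * x w 0) z :=
      (W.L_diff.differentiableAt hD).add ((W.r0_diff.differentiableAt hD).mul dx)
    have hF0 := W.F0_slit z hz _ hx0
    have dρ : DifferentiableAt ℂ (fun w => rhoL e κ (W.L w + W.r0 w * x w 0)) z :=
      DataC_rho_diff dF hF0
    have dT := DataC_T1_diff (DataC_tanh_diff hκ differentiableAt_id (W.D_strip z hz)) dρ
      (W.w0_slit z hz _ hx0)
    have dR : DifferentiableAt ℂ (fun w => radHL e κ w (W.L w + W.r0 w * x w 0)) z := by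
      unfold radHL
      exact (((dρ.const_mul 2).mul dT).const_sub 1).add (dρ.pow 2)
    show DifferentiableAt ℂ (fun w => H0L e κ w (W.L w + W.r0 w * x w 0)) z
    unfold H0L
    exact (dR.cpow_const (W.radH_slit z hz _ hx0)).div ((dF.neg.cexp).const_add 1)
      (slitPlane_ne_zero hF0)
  · intro p hp x hx hr hfix
    obtain ⟨fs, Qs, hfs, hQs, h1, h2, h3, h4, h5, h6, h7, h8⟩ :=
      DataC_real_hyps he hκ W hp hx hr hfix
    obtain ⟨-, -, -, -, o5⟩ := orbit_of_f he hκ p h1 h2 h3 h4 h5 h6 h7 h8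
    subst hfs
    subst hQs
    have hfs0 : DataC_fseq W.L W.r0 W.B W.r e κ p x 0 =
      1 / (1 + Real.exp (-(W.L p + W.r0 p * x 0).re)) := rfl
    obtain ⟨n0a, n0b, n0c, n0d, n0e, -⟩ := DataC_node0 he0 hκ W hp (hx 0) (hr 0) hfs0
    have hH := W.radH_slit p hp (x 0) (hx 0)
    show H0L e κ p (W.L p + W.r0 p * x 0) = _
    rw [o5, n0a]
    rw [n0a] at hH
    generalize (W.L p + W.r0 p * x 0).re = ℓ at hfs0 hH ⊢
    unfold H0L
    have e1 : radHL e κ (p : ℂ) (ℓ : ℂ) =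
        ((1 - 2 * (Ck e κ * DataC_fseq W.L W.r0 W.B W.r e κ p x 0) ^ (-(1 / e)) *
        ((Ck e κ * DataC_fseq W.L W.r0 W.B W.r e κ p x 0) ^ (-(1 / e)) *
          (1 - Real.tanh (κ * p) ^ 2) +
          Real.tanh (κ * p) * Real.sqrt
            (1 - ((Ck e κ * DataC_fseq W.L W.r0 W.B W.r e κ p x 0) ^ (-(1 / e))) ^ 2 *
            (1 - Real.tanh (κ * p) ^ 2))) +
          ((Ck e κ * DataC_fseq W.L W.r0 W.B W.r e κ p x 0) ^ (-(1 / e))) ^ 2 : ℝ) : ℂ) := by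
      unfold radHL
      rw [DataC_rho_real he0 hκ ℓ hfs0, DataC_tanh_real, DataC_T1_real n0e]
      push_cast
      rfl
    rw [e1] at hH ⊢
    have hpos := DataC_ofReal_pos hH
    obtain ⟨-, -, -, c4⟩ := DataC_f ℓ hfs0
    have e2 : (1 : ℂ) + exp (-(ℓ : ℂ)) = (((1 + Real.exp (-ℓ)) : ℝ) : ℂ) := by
      push_cast
      rfl
    rw [← Complex.ofReal_cpow hpos.le, e2, ← ofReal_div]
    congr 1
    have hne : (1 + Real.exp (-ℓ)) ≠ 0 := by positivity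
    have hfin : ∀ X F E : ℝ, E * F = 1 → X = F * X * E := fun X F E h => by
      linear_combination -X * h
    rw [div_eq_iff hne]
    exact hfin _ _ _ c4

end Pool.Agent.helper31.EQ.R
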