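import Pool.Agent.helper31.EQ.R.Defs

/-!
# EQ-R: the ratio position scheme in the logarithmic unknown, definitions

As in `R/Defs.lean`; the unknown at the node `n+1` is the logit
`lam = log (f (n+1) / (1 - f (n+1)))`, so `f = 1/(1 + exp (-lam))`, and
`w = (f/(1-f))^(1/e) = exp (lam/e)`.  With `ρ = (CC f)^(-1/e)` and `a = (CC (1 - f))^(1/e)` one has
`1/a = w ρ`, so the step `Q₊² = 1 + (1/a + ρ + (1 - Q⁻²)/ρ)/a` is
`Q₊² = 1 + w (1 - Q⁻²) + w (w + 1) ρ²`.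
The rigid logit is `Pl τ = log (f/(1-f))`, the unknown of the link `n` is
`lam (n+1) = B (τ n) + r (τ n) x n` with a free centre `B` (for example `B τ = Pl (shf τ)`), and the
law between the node `n+1` and the next one is
`lam = Pl τ₊ + log (1 + β τ₊ (exp (Pl (shf τ₊) - lam₊) - 1))`, `β τ = (1 - f (τ+1))/f τ`.
-/

namespace Pool.Agent.helper31.EQ.R

open Complex Pool.Agent.helper31.EQ.Y

noncomputable section

/-- the rigid logit `log (f/(1-f))` in principal logarithms -/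
def Pl (e κ : ℝ) (τ : ℂ) : ℂ :=
  log (fT e κ τ) - log (fT e κ (shf κ τ)) + (e : ℂ) * log (Qk κ τ)

/-- `ρ = (CC f)^(-1/e)`, `1/f = 1 + exp (-lam)` -/
def rhoL (e κ : ℝ) (lam : ℂ) : ℂ :=
  (((Ck e κ / 2) ^ (-(1 / e)) : ℝ) : ℂ) * ((1 + exp (-lam)) / 2) ^ ((1 / e : ℝ) : ℂ)

/-- the radicand `(Q (n+1))²` -/
def radL (e κ : ℝ) (τ lam : ℂ) : ℂ :=
  1 + exp (lam / e) * (1 - (Qk κ τ ^ 2)⁻¹) +
    exp (lam / e) * (exp (lam / e) + 1) * rhoL e κ lam ^ 2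

/-- the next link -/
def stepL (e κ : ℝ) (τ lam : ℂ) : ℂ :=
  (radL e κ τ lam ^ ((1 / 2 : ℝ) : ℂ) - (Real.cosh κ : ℂ)) / (Real.sinh κ : ℂ)

/-- the radicand `(Q 1)²` for the start `p` -/
def rad0L (e κ : ℝ) (p lam : ℂ) : ℂ :=
  1 + exp (lam / e) * rhoL e κ lam *
    (exp (lam / e) * rhoL e κ lam + 2 * T1 (tanh (κ * p)) (rhoL e κ lam))

/-- the first link `τ 1` -/
def step0L (e κ : ℝ) (p lam : ℂ) : ℂ :=
  (rad0L e κ p lam ^ ((1 / 2 : ℝ) : ℂ) - (Real.cosh κ : ℂ)) / (Real.sinh κ : ℂ)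

/-- `(E 0 / E 1)²` -/
def radHL (e κ : ℝ) (p lam : ℂ) : ℂ :=
  1 - 2 * rhoL e κ lam * T1 (tanh (κ * p)) (rhoL e κ lam) + rhoL e κ lam ^ 2

/-- `H = V_+/F` at node `0` -/
def H0L (e κ : ℝ) (p lam : ℂ) : ℂ := radHL e κ p lam ^ ((e / 2 : ℝ) : ℂ) / (1 + exp (-lam))

/-- `β τ = (1 - f (τ+1)) / f τ` -/
def betaL (e κ : ℝ) (τ : ℂ) : ℂ := (1 - fT e κ (shf κ τ)) / fT e κ τ

/-- right side of the law -/
def lawL (e κ : ℝ) (τ lam : ℂ) : ℂ :=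
  Pl e κ τ + log (1 + betaL e κ τ * (exp (Pl e κ (shf κ τ) - lam) - 1))

/-- Links: `pos 0 = τ 1`, `lam 1 = L p + r0 p * x 0`, `lam (n+2) = B (pos n) + r (pos n) * x (n+1)`. -/
def posL (e κ : ℝ) (L r0 B r : ℂ → ℂ) (p : ℂ) (x : ℕ → ℂ) : ℕ → ℂ
  | 0 => step0L e κ p (L p + r0 p * x 0)
  | n + 1 => stepL e κ (posL e κ L r0 B r p x n)
      (B (posL e κ L r0 B r p x n) + r (posL e κ L r0 B r p x n) * x (n + 1))

/-- The sequence map, with preconditioners `M0 p`, `M τ`. -/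
def PhiL (e κ : ℝ) (L r0 B r M0 M : ℂ → ℂ) (p : ℂ) (x : ℕ → ℂ) : ℕ → ℂ
  | 0 => (r0 p * x 0 - M0 p * (L p + r0 p * x 0 -
      lawL e κ (posL e κ L r0 B r p x 0)
        (B (posL e κ L r0 B r p x 0) + r (posL e κ L r0 B r p x 0) * x 1))) / r0 p
  | n + 1 => (r (posL e κ L r0 B r p x n) * x (n + 1) -
      M (posL e κ L r0 B r p x n) *
        (B (posL e κ L r0 B r p x n) + r (posL e κ L r0 B r p x n) * x (n + 1) -
      lawL e κ (posL e κ L r0 B r p x (n + 1))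
        (B (posL e κ L r0 B r p x (n + 1)) +
          r (posL e κ L r0 B r p x (n + 1)) * x (n + 2)))) / r (posL e κ L r0 B r p x n)

end

end Pool.Agent.helper31.EQ.R
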