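import Pool.Agent.helper31.EQ.R.DefsL

/-!
# EQ-R: the ratio position scheme in the logarithmic unknown, index dependent version

As `R/DefsL.lean`; centre, radius and preconditioner of the link `n` may depend on the start `p` and
on the index: `lam (n+2) = B p n (pos n) + r p n (pos n) * x (n+1)`.
-/

namespace Pool.Agent.helper31.EQ.R

open Complex Pool.Agent.helper31.EQ.Y

noncomputable section

/-- Links: `pos 0 = τ 1`, `lam 1 = L p + r0 p * x 0`,
`lam (n+2) = B p n (pos n) + r p n (pos n) * x (n+1)`. -/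
def posN (e κ : ℝ) (L r0 : ℂ → ℂ) (B r : ℂ → ℕ → ℂ → ℂ) (p : ℂ) (x : ℕ → ℂ) : ℕ → ℂ
  | 0 => step0L e κ p (L p + r0 p * x 0)
  | n + 1 => stepL e κ (posN e κ L r0 B r p x n)
      (B p n (posN e κ L r0 B r p x n) + r p n (posN e κ L r0 B r p x n) * x (n + 1))

/-- The sequence map, with preconditioners `M0 p`, `M p n τ`. -/
def PhiN (e κ : ℝ) (L r0 : ℂ → ℂ) (B r : ℂ → ℕ → ℂ → ℂ) (M0 : ℂ → ℂ) (M : ℂ → ℕ → ℂ → ℂ)
    (p : ℂ) (x : ℕ → ℂ) : ℕ → ℂ
  | 0 => (r0 p * x 0 - M0 p * (L p + r0 p * x 0 -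
      lawL e κ (posN e κ L r0 B r p x 0)
        (B p 0 (posN e κ L r0 B r p x 0) + r p 0 (posN e κ L r0 B r p x 0) * x 1))) / r0 p
  | n + 1 => (r p n (posN e κ L r0 B r p x n) * x (n + 1) -
      M p n (posN e κ L r0 B r p x n) *
        (B p n (posN e κ L r0 B r p x n) + r p n (posN e κ L r0 B r p x n) * x (n + 1) -
      lawL e κ (posN e κ L r0 B r p x (n + 1))
        (B p (n + 1) (posN e κ L r0 B r p x (n + 1)) +
          r p (n + 1) (posN e κ L r0 B r p x (n + 1)) * x (n + 2)))) /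
      r p n (posN e κ L r0 B r p x n)

end

end Pool.Agent.helper31.EQ.R
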